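import Pool.Agent.Run7.h472.OH.Iface

/-! Basic properties of the local deficits (`S_WBD`). -/

set_option autoImplicit false
open MeasureTheory ProbabilityTheory Filter Set
open scoped ENNReal Pointwise Topology

namespace Pool.Agent.Run7.h472.OH

open Pool.Agent.N662.FP

theorem nm_le {z : ℤ × ℤ} {k : ℕ} (h1 : |z.1| ≤ (k : ℤ)) (h2 : |z.2| ≤ (k : ℤ)) : nm z ≤ k := by
  unfold nm
  refine max_le ?_ ?_
  · zify
    exact h1
  · zify
    exact h2

theorem abs_le_nm1 (z : ℤ × ℤ) : |z.1| ≤ (nm z : ℤ) := by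
  unfold nm
  rw [Int.abs_eq_natAbs]
  exact_mod_cast le_max_left _ _

theorem abs_le_nm2 (z : ℤ × ℤ) : |z.2| ≤ (nm z : ℤ) := by
  unfold nm
  rw [Int.abs_eq_natAbs]
  exact_mod_cast le_max_right _ _

theorem nm_add (a b : ℤ × ℤ) : nm (a + b) ≤ nm a + nm b := by
  refine nm_le ?_ ?_
  · have := abs_le_nm1 a
    have := abs_le_nm1 b
    have h : |(a + b).1| ≤ |a.1| + |b.1| := abs_add_le _ _
    push_cast
    linarith
  · have := abs_le_nm2 a
    have := abs_le_nm2 b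
    have h : |(a + b).2| ≤ |a.2| + |b.2| := abs_add_le _ _
    push_cast
    linarith

theorem nm_neg (a : ℤ × ℤ) : nm (-a) = nm a := by
  simp [nm]

theorem nm_sub_comm (a b : ℤ × ℤ) : nm (a - b) = nm (b - a) := by
  rw [← nm_neg, neg_sub]

theorem nm_zero : nm (0 : ℤ × ℤ) = 0 := by simp [nm]

theorem nm_tri (a b c : ℤ × ℤ) : nm (a - c) ≤ nm (a - b) + nm (b - c) := by
  have : a - c = (a - b) + (b - c) := by abel
  rw [this]
  exact nm_add _ _

/-- one step has norm at most one -/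
theorem nm_step {a b : ℤ × ℤ} (h : |b.1 - a.1| + |b.2 - a.2| = 1) : nm (b - a) ≤ 1 := by
  refine nm_le ?_ ?_
  · have := abs_nonneg (b.2 - a.2)
    show |b.1 - a.1| ≤ ((1 : ℕ) : ℤ)
    push_cast
    linarith
  · have := abs_nonneg (b.1 - a.1)
    show |b.2 - a.2| ≤ ((1 : ℕ) : ℤ)
    push_cast
    linarith

theorem tm_nonneg (x : Env) (p : ℕ → ℤ × ℤ) (i j : ℕ) : 0 ≤ tm x p i j :=
  Finset.sum_nonneg fun _ _ => le_max_right _ _

theorem tm_add (x : Env) (p : ℕ → ℤ × ℤ) {i j k : ℕ} (h1 : i ≤ j) (h2 : j ≤ k) :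
    tm x p i j + tm x p j k = tm x p i k :=
  Finset.sum_Ico_consecutive _ h1 h2

theorem tmS_nonneg (x : Env) (q : Sq) : 0 ≤ tmS x q :=
  Finset.sum_nonneg fun _ _ => le_max_right _ _

/-- coordinates of a point in a block -/
theorem blk_iff {n : ℕ} (hn : 1 ≤ n) {z b : ℤ × ℤ} (h : blk n z = b) :
    (n : ℤ) * b.1 ≤ z.1 ∧ z.1 < (n : ℤ) * b.1 + n ∧ (n : ℤ) * b.2 ≤ z.2 ∧
      z.2 < (n : ℤ) * b.2 + n := by
  have hn' : (0 : ℤ) < n := by exact_mod_cast hn
  subst h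
  simp only [blk]
  have h1 := Int.emod_add_mul_ediv z.1 n
  have h2 := Int.emod_nonneg z.1 hn'.ne'
  have h3 := Int.emod_lt_of_pos z.1 hn'
  have h4 := Int.emod_add_mul_ediv z.2 n
  have h5 := Int.emod_nonneg z.2 hn'.ne'
  have h6 := Int.emod_lt_of_pos z.2 hn'
  refine ⟨?_, ?_, ?_, ?_⟩ <;> linarith

theorem nm_blk {n : ℕ} (hn : 1 ≤ n) {z b : ℤ × ℤ} (h : blk n z = b) :
    |z.1 - (n : ℤ) * b.1| ≤ n ∧ |z.2 - (n : ℤ) * b.2| ≤ n := by
  obtain ⟨h1, h2, h3, h4⟩ := blk_iff hn h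
  have hn' : (0 : ℤ) < n := by exact_mod_cast hn
  constructor <;> rw [abs_le] <;> constructor <;> linarith

theorem nm_valid {L n : ℕ} (hn : 1 ≤ n) {b : ℤ × ℤ} {z w : ℤ × ℤ} (hz : blk n z = b)
    (hw : InR L n b w) : nm (w - z) ≤ (L + 1) * n := by
  obtain ⟨h1, h2⟩ := nm_blk hn hz
  obtain ⟨h3, h4⟩ := hw
  refine nm_le ?_ ?_
  · show |w.1 - z.1| ≤ _
    have : w.1 - z.1 = (w.1 - (n : ℤ) * b.1) - (z.1 - (n : ℤ) * b.1) := by ring
    rw [this]
    refine (abs_sub _ _).trans ?_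
    push_cast
    linarith
  · show |w.2 - z.2| ≤ _
    have : w.2 - z.2 = (w.2 - (n : ℤ) * b.2) - (z.2 - (n : ℤ) * b.2) := by ring
    rw [this]
    refine (abs_sub _ _).trans ?_
    push_cast
    linarith

theorem bound_one {μ : Seminorm ℝ (ℝ × ℝ)} {c C : ℝ} {L : ℕ} (hc : Cst μ c C L) {n : ℕ}
    (hn : 1 ≤ n) (b : ℤ × ℤ) (x : Env) (q : Sq) (hq : Val L n b q) :
    μ (em (q.2 (Fin.last _) - q.2 0)) - tmS x q ≤ C * (L + 1) * n := by
  have h1 := hc.hi (q.2 (Fin.last _) - q.2 0)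
  have h2 : (nm (q.2 (Fin.last _) - q.2 0) : ℝ) ≤ ((L : ℝ) + 1) * n := by
    exact_mod_cast nm_valid hn hq.start (hq.inR _)
  have h3 := tmS_nonneg x q
  have h4 : C * (nm (q.2 (Fin.last _) - q.2 0) : ℝ) ≤ C * (((L : ℝ) + 1) * n) :=
    mul_le_mul_of_nonneg_left h2 hc.C_pos.le
  linarith

/-- the trivial sequence at the corner -/
def triv (n : ℕ) (b : ℤ × ℤ) : Sq := ⟨0, fun _ => ((n : ℤ) * b.1, (n : ℤ) * b.2)⟩

theorem val_triv {L n : ℕ} (hn : 1 ≤ n) (b : ℤ × ℤ) : Val L n b (triv n b) := by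
  have hn' : (n : ℤ) ≠ 0 := by exact_mod_cast (by omega : n ≠ 0)
  refine ⟨?_, ?_, ?_⟩
  · simp only [triv, blk]
    rw [Int.mul_ediv_cancel_left _ hn', Int.mul_ediv_cancel_left _ hn']
  · intro i
    simp only [triv, InR, sub_self, abs_zero]
    constructor <;> positivity
  · intro i
    exact i.elim0

/-- the piece of a path between the indices `i` and `j` -/
def piece (p : ℕ → ℤ × ℤ) (i j : ℕ) : Sq := ⟨j - i, fun k => p (i + k)⟩

theorem val_piece {L n : ℕ} {b : ℤ × ℤ} {m : ℕ} {p : ℕ → ℤ × ℤ} (hp : IsP p m) {i j : ℕ}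
    (hij : i ≤ j) (hjm : j ≤ m) (hb : blk n (p i) = b)
    (hR : ∀ k, i ≤ k → k ≤ j → InR L n b (p k)) : Val L n b (piece p i j) := by
  refine ⟨?_, ?_, ?_⟩
  · simpa [piece] using hb
  · intro k
    refine hR _ (by simp) ?_
    have h1 := k.2
    change (k : ℕ) < (j - i) + 1 at h1
    omega
  · intro k
    have h1 := k.2
    change (k : ℕ) < (j - i) at h1
    have h2 := hp (i + k) (by omega)
    exact h2

theorem tmS_piece (x : Env) (p : ℕ → ℤ × ℤ) {i j : ℕ} : tmS x (piece p i j) = tm x p i j := by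
  unfold tmS tm piece
  simp only [Fin.val_castSucc, Fin.val_succ]
  rw [Finset.sum_Ico_eq_sum_range, Finset.sum_range]
  rfl

theorem t_WBD : S_WBD := by
  intro μ c C L hc n hn b x
  have hB : BddAbove (Set.range fun q : {q : Sq // Val L n b q} =>
      (μ (em (q.1.2 (Fin.last _) - q.1.2 0)) - tmS x q.1)) := by
    refine ⟨C * (L + 1) * n, ?_⟩
    rintro _ ⟨q, rfl⟩
    exact bound_one hc hn b x q.1 q.2
  haveI : Nonempty {q : Sq // Val L n b q} := ⟨⟨triv n b, val_triv hn b⟩⟩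
  refine ⟨hB, ?_, ?_, ?_⟩
  · refine le_trans (le_of_eq ?_) (le_ciSup hB ⟨triv n b, val_triv hn b⟩)
    have : tmS x (triv n b) = 0 := by
      unfold tmS triv
      exact Finset.sum_eq_zero fun i _ => i.elim0
    have h2 : Pool.Agent.N662.FP.em ((triv n b).2 (Fin.last _) - (triv n b).2 0) = 0 := by
      simp [triv, Pool.Agent.N662.FP.em]
    rw [this, h2, map_zero, sub_zero]
  · exact ciSup_le fun q => bound_one hc hn b x q.1 q.2
  · intro m p hp i j hij hjm hb hR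
    have hv := val_piece hp hij hjm hb hR
    have h1 := le_ciSup hB ⟨piece p i j, hv⟩
    have h2 : (piece p i j).2 (Fin.last _) = p j := by
      show p (i + ((Fin.last (j - i) : Fin (j - i + 1)) : ℕ)) = p j
      rw [Fin.val_last]
      congr 1
      omega
    have h3 : (piece p i j).2 0 = p i := by
      show p (i + ((0 : Fin (j - i + 1)) : ℕ)) = p i
      simp
    simp only [h2, h3, tmS_piece] at h1
    exact h1

end Pool.Agent.Run7.h472.OH
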