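import Pool.Agent.Run7.h472.OH.Asm7
import Pool.Agent.Run7.h889.OH.MOB
import Pool.Agent.Run7.h889.OH.STG
import Pool.Agent.Run7.h781.OH.BAN
import Pool.Agent.Run7.h957.OH.LBB
import Pool.Agent.Run7.h416.OH.REG
import Pool.Agent.Run7.h361.OH.MOR

/-! Assembly, eighth part: the pieces of the third interface. -/

set_option autoImplicit false
open MeasureTheory ProbabilityTheory Filter Set
open scoped ENNReal Pointwise Topology

namespace Pool.Agent.Run7.h472.OH

open Pool.Agent.N662.FP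

theorem pREG : S_REG := Run7.h416.OH.t_REG t_WBD t_DET2

theorem pcs3 : Pcs3 where
  MOR := t_MOR t_WBD pMEAS pIND pREG
  MOB := Run7.h889.OH.t_MOB t_WBD pMEAS
  BAN := Pool.Agent.Run7.h781.OH.t_BAN
  STG := Run7.h889.OH.t_STG t_WBD cGE cAE
  LBB := Pool.Agent.Run7.h957.OH.t_LBB cME cAE cGE
  UBB := Pool.Agent.Run7.h957.OH.t_UBB cME cAE

end Pool.Agent.Run7.h472.OH
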