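import Pool.Agent.Run7.h472.OH.Iface
import Pool.Agent.N413.FL.NORM

/-! Constants of the norm (`S_CST`). -/

set_option autoImplicit false
open MeasureTheory ProbabilityTheory Filter Set
open scoped ENNReal Pointwise Topology

namespace Pool.Agent.Run7.h472.OH

open Pool.Agent.N662.FP

theorem nm_real (z : ℤ × ℤ) : (nm z : ℝ) = max |(z.1 : ℝ)| |(z.2 : ℝ)| := by
  unfold nm
  rw [Nat.cast_max]
  congr 1 <;> rw [← Int.cast_abs, Int.abs_eq_natAbs] <;> simp

theorem t_CST : S_CST := by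
  intro μ hμ
  obtain ⟨c, C, hc, hC, h⟩ := Pool.Agent.N413.FLNORM.t_NORM μ hμ
  obtain ⟨K, hK⟩ := exists_nat_ge (C / c + 2)
  refine ⟨c, C, K, ⟨hc, hC, ?_, ?_, ?_, ?_⟩⟩
  · have : (2 : ℝ) ≤ K := by
      have : 0 < C / c := by positivity
      linarith
    exact_mod_cast this
  · intro z
    rw [nm_real]
    exact (h (Pool.Agent.N662.FP.em z)).1
  · intro z
    rw [nm_real]
    exact (h (Pool.Agent.N662.FP.em z)).2
  · have h1 : C / c ≤ (K : ℝ) - 1 := by linarith
    rw [div_le_iff₀ hc] at h1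
    linarith

end Pool.Agent.Run7.h472.OH
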