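import Pool.Agent.Run7.h472.OH.DET
import Pool.Agent.Run7.h472.OH.CST
import Pool.Agent.N662.FP.Cl

/-! Assembly. -/

set_option autoImplicit false
open MeasureTheory ProbabilityTheory Filter Set
open scoped ENNReal Pointwise Topology

namespace Pool.Agent.Run7.h472.OH

open Pool.Agent.N662.FP

/-- the large deviation bound for the lower tail at one point -/
def LD {Ω : Type} [MeasureSpace Ω] (T : Ω → ℤ × ℤ → ℝ) (μ : Seminorm ℝ (ℝ × ℝ)) (κ : ℝ) : Prop :=
  ∃ A : ℝ, 0 < A ∧ ∀ (v : ℤ × ℤ) (δ : ℝ), 0 < δ → δ ≤ 1 →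
    (volume : Measure Ω).real {ω | T ω v ≤ (1 - δ) * μ (Pool.Agent.N662.FP.em v)} ≤
      A * Real.exp (-(δ ^ (1 / κ) * μ (Pool.Agent.N662.FP.em v) / A))

section
variable {Ω : Type} [MeasureSpace Ω] [IsProbabilityMeasure (volume : Measure Ω)]
variable {X : Sym2 (ℤ × ℤ) → Ω → ℝ}

theorem G_nonneg (μ : Seminorm ℝ (ℝ × ℝ)) (L n : ℕ) (u : ℝ) : 0 ≤ G X μ L n u :=
  measureReal_nonneg

theorem G_le_one (μ : Seminorm ℝ (ℝ × ℝ)) (L n : ℕ) (u : ℝ) : G X μ L n u ≤ 1 :=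
  measureReal_le_one

theorem G_anti (μ : Seminorm ℝ (ℝ × ℝ)) (L n : ℕ) : Antitone (G X μ L n) := by
  intro u u' h
  exact measureReal_mono (fun ω (hω : u' < _) => lt_of_le_of_lt h hω) (measure_ne_top _ _)

theorem G_zero {μ : Seminorm ℝ (ℝ × ℝ)} {c C : ℝ} {L : ℕ} (hc : Cst μ c C L) {B : ℝ}
    (hB : C * (L + 1) ≤ B) (n : ℕ) (u : ℝ) (hn : 1 ≤ n) (hu : B * n ≤ u) : G X μ L n u = 0 := by
  have : {ω | u < W μ L n 0 (env X ω)} = ∅ := by
    ext ω
    simp only [Set.mem_empty_iff_false, iff_false]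
    intro (h : u < W μ L n 0 (env X ω))
    have h1 := (t_WBD μ c C L hc n hn 0 (env X ω)).2.2.1
    have h2 : C * (L + 1) * n ≤ B * n := mul_le_mul_of_nonneg_right hB (Nat.cast_nonneg n)
    linarith
  unfold G
  rw [this]
  simp

/-- from one exponent to the large deviation bound -/
theorem toLD (hCG : S_CG) (hFEW : S_FEW) (hSTEP : S_STEP) (hEMB : S_EMB) (hOTG : S_OTG)
    (hITG : S_ITG) (hITT : S_ITT) (hX : Iid X) (μ : Seminorm ℝ (ℝ × ℝ))
    (hμ : ∀ x, μ x = 0 → x = 0) (κ κ' q : ℝ) (h0 : 0 < κ') (h1 : κ' < κ) (h2 : κ < 1)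
    (hq : 3 / (1 - κ) < q)
    (hO : Asymptotics.IsBigO atTop (fun t : ℝ => (volume : Measure Ω).real
      (Out (fun ω v => D (env X ω) 0 v) μ κ t)) (fun t : ℝ => t ^ (-q))) :
    LD (fun ω v => D (env X ω) 0 v) μ κ' := by
  obtain ⟨c, C, L, hc⟩ := t_CST μ hμ
  have hcp := hc.c_pos
  have hCp := hc.C_pos
  set κ1 := (κ' + 2 * κ) / 3 with hκ1
  set κ2 := (2 * κ' + κ) / 3 with hκ2
  obtain ⟨q1, hq1, hG1⟩ := hOTG Ω X hX μ c C L hc κ κ1 q (by linarith) (by linarith) h2 hq hO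
  obtain ⟨B0, hB01, hB0⟩ := hSTEP Ω X hX μ c C L hc
  -- the constant
  set S : ℝ := 2 * C * (L + 1) / c with hS
  have hL0 : (0 : ℝ) ≤ L := Nat.cast_nonneg L
  have hS0 : 0 < S := by positivity
  set B : ℝ := B0 + C * (L + 1) + 2 / c + 2 * (1 + S) + 3 * (2 * (L : ℝ) + 1) ^ 2 + 3 + S with hB
  have hp1 : 0 < C * ((L : ℝ) + 1) := by positivity
  have hp2 : 0 < 2 / c := by positivity
  have hp3 : 0 < 3 * (2 * (L : ℝ) + 1) ^ 2 := by positivity
  have hB1 : 1 ≤ B := by linarith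
  have hBpos : 0 < B := by linarith
  have hBB0 : B0 ≤ B := by linarith
  have hBC : C * (L + 1) ≤ B := by linarith
  have hBc : 2 / c ≤ B := by linarith
  -- the recursion
  have hrec : ∀ n N : ℕ, 1 ≤ n → n ≤ N → ∀ (g u p : ℝ) (j ρ : ℕ), 1 ≤ j → 0 ≤ g → g ≤ n / B →
      0 < u → 0 < p → G X μ L n g ≤ p → (2 * (ρ : ℝ) + 1) ^ 2 * p ≤ 1 → B * (N / n) * g ≤ u →
      B * (N / n) + j ≤ ρ →
      G X μ L N u ≤ B * ((2 * (ρ : ℝ) + 1) ^ 2 * p) ^ ((j : ℝ) / ((2 * L + 1) ^ 2 : ℕ)) +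
        (2 * (ρ : ℝ) + 1) ^ 2 * G X μ L n (u / (4 * j)) := by
    intro n N hn hnN g u p j ρ hj hg hgB hu hp hGp hρ hBg hBρ
    have hn0 : (0 : ℝ) < n := by exact_mod_cast hn
    have hN0 : (0 : ℝ) < N := by
      have : (n : ℝ) ≤ N := by exact_mod_cast hnN
      linarith
    have hNn : 1 ≤ (N : ℝ) / n := by
      rw [le_div_iff₀ hn0, one_mul]
      exact_mod_cast hnN
    have hK : 1 + 2 * (C * (L + 1) * N) / (c * n) ≤ (1 + S) * (N / n) := by
      have : 2 * (C * (L + 1) * N) / (c * n) = S * (N / n) := by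
        rw [hS]
        field_simp
      rw [this, add_mul, one_mul]
      linarith
    have h3 := hFEW Ω X hX μ c C L hc n N hn (hn.trans hnN) g u p j ρ hj hg ?_ hu hp hGp hρ ?_ ?_
    · refine h3.trans ?_
      have e1 : (((2 * L + 1) ^ 2 : ℕ) : ℝ) = (2 * (L : ℝ) + 1) ^ 2 := by push_cast; ring
      rw [e1]
      have h4 : 0 ≤ ((2 * (ρ : ℝ) + 1) ^ 2 * p) ^ ((j : ℝ) / (2 * (L : ℝ) + 1) ^ 2) := by
        positivity
      have h5 : 3 * (2 * (L : ℝ) + 1) ^ 2 ≤ B := by linarith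
      have := mul_le_mul_of_nonneg_right h5 h4
      linarith
    · refine hgB.trans ?_
      rw [div_le_iff₀ hBpos]
      have h4 : 2 ≤ B * c := by
        rw [div_le_iff₀ hcp] at hBc
        linarith
      have h5 := mul_le_mul_of_nonneg_right h4 hn0.le
      have h6 : c * (n : ℝ) / 2 * B = B * c * n / 2 := by ring
      linarith
    · have h4 : (1 + 2 * (C * (L + 1) * N) / (c * n)) * g ≤ (1 + S) * (N / n) * g :=
        mul_le_mul_of_nonneg_right hK hg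
      have h5 : 2 * (1 + S) * ((N : ℝ) / n * g) ≤ B * ((N : ℝ) / n * g) :=
        mul_le_mul_of_nonneg_right (by linarith) (by positivity)
      have h6 : 2 * (1 + S) * ((N : ℝ) / n * g) = 2 * ((1 + S) * (N / n) * g) := by ring
      have h7 : B * ((N : ℝ) / n * g) = B * (N / n) * g := by ring
      linarith
    · have h6 : (3 + S) * ((N : ℝ) / n) ≤ B * (N / n) :=
        mul_le_mul_of_nonneg_right (by linarith) (by linarith)
      have h7 : (3 + S) * ((N : ℝ) / n) = N / n + (1 + S) * (N / n) + N / n := by ring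
      linarith
  obtain ⟨e, he, hG2⟩ := hITG (G X μ L) (fun n u => G_nonneg μ L n u) (fun n => G_anti μ L n) B
    ((2 * L + 1) ^ 2) hB1 (Nat.one_le_iff_ne_zero.2 (by positivity))
    (fun n u hn hu => G_zero hc hBC n u hn hu) hrec κ1 κ2 q1 (by linarith) (by linarith)
    (by linarith) hq1 hG1
  have hstep : ∀ δ : ℝ, 0 < δ → δ ≤ 1 → ∀ n : ℕ, 1 ≤ n → ∀ (y : ℝ) (I : ℕ), 0 < y →
      δ * n / B ≤ y → B * n ≤ 2 ^ I * y → Sm (G X μ L) n (δ * n / B) (B / (δ * n)) y I ≤ 1 / B →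
      (∀ m : ℕ, n ≤ m → G X μ L m (δ * m) ≤ B * m ^ 2 * Real.exp (-((m : ℝ) / n))) ∧
      ∀ v : ℤ × ℤ, (n : ℝ) ≤ μ (Pool.Agent.N662.FP.em v) →
      (volume : Measure Ω).real {ω | D (env X ω) 0 v ≤ (1 - δ) * μ (Pool.Agent.N662.FP.em v)} ≤
        B * Real.exp (-(μ (Pool.Agent.N662.FP.em v) / n)) := by
    intro δ hδ hδ1 n hn y I hy hgy hBy hSm
    have hn0 : (0 : ℝ) < n := by exact_mod_cast hn
    refine hB0 B hBB0 δ hδ hδ1 n hn ?_
    refine (hEMB Ω X hX μ c C L hc n hn (δ * n / B) (B / (δ * n)) y I (by positivity) hy hgy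
      ?_).trans (ENNReal.ofReal_le_ofReal hSm)
    exact (mul_le_mul_of_nonneg_right hBC hn0.le).trans hBy
  obtain ⟨A, hA1, hA⟩ := hITT (G X μ L) (fun n u => G_nonneg μ L n u)
    (fun n u => G_le_one μ L n u) (fun n => G_anti μ L n) B hB1
    (fun n u hn hu => G_zero hc hBC n u hn hu)
    (fun δ hδ hδ1 n hn y I hy hgy hBy hSm => (hstep δ hδ hδ1 n hn y I hy hgy hBy hSm).1)
    κ2 κ' e h0 (by linarith) (by linarith) he hG2
  refine ⟨A + B + 3, by linarith, ?_⟩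
  intro v δ hδ hδ1
  obtain ⟨n, hn, hnA, y, I, hy, hgy, hBy, hSm⟩ := hA δ hδ hδ1
  have hn0 : (0 : ℝ) < n := by exact_mod_cast hn
  have hμ0 : 0 ≤ μ (Pool.Agent.N662.FP.em v) := apply_nonneg μ _
  have hδp : 0 < δ ^ (1 / κ') := Real.rpow_pos_of_pos hδ _
  have hnδ : (n : ℝ) * δ ^ (1 / κ') ≤ A := by
    have := mul_le_mul_of_nonneg_right hnA hδp.le
    rwa [mul_assoc, ← Real.rpow_add hδ, neg_add_cancel, Real.rpow_zero, mul_one] at this
  set E := δ ^ (1 / κ') * μ (Pool.Agent.N662.FP.em v) with hE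
  have hE0 : 0 ≤ E := by positivity
  have hEA : E / (A + B + 3) ≤ E / A :=
    div_le_div_of_nonneg_left hE0 (by linarith) (by linarith)
  by_cases hv : (n : ℝ) ≤ μ (Pool.Agent.N662.FP.em v)
  · refine ((hstep δ hδ hδ1 n hn y I hy hgy hBy hSm).2 v hv).trans ?_
    have h3 : E / A ≤ μ (Pool.Agent.N662.FP.em v) / n := by
      rw [div_le_div_iff₀ (by linarith) hn0, hE]
      have h4 := mul_le_mul_of_nonneg_right hnδ hμ0
      have h5 : δ ^ (1 / κ') * μ (Pool.Agent.N662.FP.em v) * n =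
        n * δ ^ (1 / κ') * μ (Pool.Agent.N662.FP.em v) := by ring
      linarith
    have h4 : Real.exp (-(μ (Pool.Agent.N662.FP.em v) / n)) ≤ Real.exp (-(E / (A + B + 3))) :=
      Real.exp_le_exp.2 (by linarith)
    have h5 := Real.exp_pos (-(E / (A + B + 3)))
    have h6 := mul_le_mul_of_nonneg_left h4 hBpos.le
    have h7 : B * Real.exp (-(E / (A + B + 3))) ≤ (A + B + 3) * Real.exp (-(E / (A + B + 3))) :=
      mul_le_mul_of_nonneg_right (by linarith) h5.le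
    exact h6.trans h7
  · have hv' := (not_le.1 hv).le
    have h3 : E ≤ A := by
      rw [hE]
      refine le_trans ?_ hnδ
      rw [mul_comm]
      exact mul_le_mul_of_nonneg_right hv' hδp.le
    have h4 : E / (A + B + 3) ≤ 1 := by
      rw [div_le_one (by linarith)]
      linarith
    have h5 : Real.exp (-1) ≤ Real.exp (-(E / (A + B + 3))) := Real.exp_le_exp.2 (by linarith)
    have h6 : 1 ≤ 3 * Real.exp (-1) := by
      rw [Real.exp_neg]
      have := Real.exp_one_lt_d9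
      have h7 := Real.exp_pos 1
      rw [← div_eq_mul_inv, le_div_iff₀ h7]
      linarith
    have h8 := Real.exp_pos (-(E / (A + B + 3)))
    refine (measureReal_le_one).trans (h6.trans ?_)
    have h9 : 3 * Real.exp (-1) ≤ 3 * Real.exp (-(E / (A + B + 3))) := by linarith
    have h10 : 3 * Real.exp (-(E / (A + B + 3))) ≤ (A + B + 3) * Real.exp (-(E / (A + B + 3))) :=
      mul_le_mul_of_nonneg_right (by linarith) h8.le
    exact h9.trans h10

end

end Pool.Agent.Run7.h472.OH
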