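import Pool.Agent.Run7.h472.OH.Iface

/-!
# Planar first-passage percolation: second interface

The lower tail around the MEAN at one point implies everything (both halves of Q1).
-/

set_option autoImplicit false
open MeasureTheory ProbabilityTheory Filter Set
open scoped ENNReal Pointwise Topology

namespace Pool.Agent.Run7.h472.OH

open Pool.Agent.N662.FP

section
variable {Ω : Type} [MeasureSpace Ω]

/-- the mean passage time -/
noncomputable def HH (X : Sym2 (ℤ × ℤ) → Ω → ℝ) (v : ℤ × ℤ) : ℝ :=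
  ∫ ω, D (env X ω) 0 v ∂(volume : Measure Ω)

/-- one-point lower tail bound around `h`: deviations of size `|v| ^ (1 - κ)` have probability
`O(|v| ^ (-q))` -/
def LT (T : Ω → ℤ × ℤ → ℝ) (h : ℤ × ℤ → ℝ) (κ q : ℝ) : Prop :=
  ∃ A : ℝ, 0 < A ∧ ∀ v : ℤ × ℤ,
    (volume : Measure Ω).real {ω | T ω v ≤ h v - A * (1 + (nm v : ℝ)) ^ (1 - κ)} ≤
      A * (1 + (nm v : ℝ)) ^ (-q)
end

/-- CHD. Chord lemma (the universal chord theorem with two chords): a lattice path from `0` to `2v`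
contains a piece with displacement `v`, up to distance two.

Proof by Borsuk-Ulam (`Pool.Agent.Helper325.BorsukUlam.borsuk_ulam` or
`Pool.Agent.H370R3.SphereTools.borsuk_ulam`, or another proof of the planar case). Let `γ` be the
piecewise linear interpolation of `p` on `[0,1]` (or on `[0,m]`), and for a point `x` of the
2-sphere put `t0 = 0`, `t1 = x1²`, `t2 = x1² + x2²`, `t3 = 1`,
`F x = ∑ i, sign (x i) (γ (t i) - γ (t (i-1)))`, an odd continuous map to the plane. At a zero the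
positive and the negative intervals have the same total displacement `v`. There are three
intervals, so (up to the sign) either one class is an interval `[a,b]`, or it is empty (then
`2v = 0`, take `a = b`), or one class is `[0,a]` (then the other class is `[a,1]`). So
`γ b - γ a = v` for some `a ≤ b`; round `a m`, `b m` down. (`m = 0`: `v = 0`.) -/
def S_CHD : Prop := ∀ (m : ℕ) (p : ℕ → ℤ × ℤ), IsP p m → ∀ v : ℤ × ℤ, p m - p 0 = v + v →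
  ∃ a b : ℕ, a ≤ b ∧ b ≤ m ∧ nm (p b - p a - v) ≤ 2

/-- HB. Basic facts on the mean passage time (from `S_TRI`, `S_TI`, `S_REV`, `S_INT`, `S_POSZ`-type
lower bound is not needed here). `H0` can be `h(e1) + h(e2)`. -/
def S_HB : Prop := ∀ (Ω : Type) [MeasureSpace Ω] [IsProbabilityMeasure (volume : Measure Ω)]
  (X : Sym2 (ℤ × ℤ) → Ω → ℝ), Iid X →
  (∀ v w : ℤ × ℤ, HH X (v + w) ≤ HH X v + HH X w) ∧ (∀ v : ℤ × ℤ, HH X (-v) = HH X v) ∧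
  (∀ v : ℤ × ℤ, 0 ≤ HH X v) ∧ ∃ H0 : ℝ, 0 < H0 ∧ ∀ v : ℤ × ℤ, HH X v ≤ H0 * nm v

/-- DBL. Doubling: `2 h(v) ≤ h(2v) + C (1 + |v|)^(1-κ)`.

Let `n = nm v` be large (small `v`: adjust `C`; if `v = 0` trivial), `c0 nm z ≤ h z ≤ H0 nm z`.
`R0 = C1 n`, `g = A' n^(1-κ)`. Good event: `D x y ≥ h(y-x) - g` for all `x, y` with
`nm ≤ R0`. It fails with probability at most
`∑_{x,y} P(D x y < h(y-x) - g)`; the term is `0` if `h(y-x) < g` (`D ≥ 0` a.s.), otherwise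
`nm(y-x) ≥ g/H0` and the term is at most `A (g/H0)^(-q)` (translation invariance of the law,
`S_TIL`; `A' ` is so large that `A (1+2R0)^(1-κ) ≤ g`). Total `≤ C n^(4-(1-κ)q) <
1/(h(2v)+2)` for large `n` as `(1-κ) q > 5`. By Markov `P(D 0 (2v) < h(2v)+1) ≥ 1/(h(2v)+1)`.
So some `ω` (with nonnegative weights) satisfies both. Take a path from `0` to `2v` with time
`< h(2v) + 1`. It stays in the box: otherwise at its first vertex `y` with `nm y = R0`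
(`first_exit`) `h(y) - g ≤ D 0 y ≤ h(2v) + 1`, impossible as `h(y) ≥ c0 R0` and `C1` is large.
Let `a ≤ b` be the indices of `S_CHD`, `w = p b - p a - v`, `nm w ≤ 2`. Then
`h(p b - p a) + h(p a) + h(2v - p b) - 3g ≤ h(2v) + 1`, `h(p b - p a) ≥ h(v) - 2 H0`,
`h(p a) + h(2v - p b) ≥ h(p a + 2v - p b) = h(v - w) ≥ h(v) - 2 H0`. -/
def S_DBL : Prop := ∀ (Ω : Type) [MeasureSpace Ω] [IsProbabilityMeasure (volume : Measure Ω)]
  (X : Sym2 (ℤ × ℤ) → Ω → ℝ), Iid X → ∀ c0 : ℝ, 0 < c0 → (∀ v : ℤ × ℤ, c0 * nm v ≤ HH X v) →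
  ∀ κ q : ℝ, 0 < κ → κ < 1 → 5 / (1 - κ) < q → LT (fun ω v => D (env X ω) 0 v) (HH X) κ q →
  ∃ C : ℝ, 0 < C ∧ ∀ v : ℤ × ℤ, 2 * HH X v ≤ HH X (v + v) + C * (1 + (nm v : ℝ)) ^ (1 - κ)

/-- NRF. The nonrandom fluctuations: `h(v) ≤ μ(v) + C (1 + |v|)^(1-κ)`.

Iterate the doubling inequality: `h(v) ≤ h(2^i v)/2^i + C' (1 + nm v)^(1-κ)` with
`C' = C ∑ 2^(-l κ)`, as `(1 + 2^l n) ≤ 2^l (1+n)`. Almost surely `T(2^i v)/2^i → m`, and by `LT`
`P(T(2^i v) ≤ h(2^i v) - A (1 + 2^i nm v)^(1-κ)) → 0`, so `m ≥ limsup h(2^i v)/2^i`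
(convergence almost surely implies convergence in probability; for large `i` some `ω` satisfies
both `T(2^i v)/2^i ≤ m + ε` and `T(2^i v) ≥ h(2^i v) - A (1+2^i nm v)^(1-κ)`). -/
def S_NRF : Prop := ∀ (Ω : Type) [MeasureSpace Ω] [IsProbabilityMeasure (volume : Measure Ω)]
  (X : Sym2 (ℤ × ℤ) → Ω → ℝ), Iid X → ∀ κ q C : ℝ, 0 < κ → κ < 1 → 0 < q → 0 < C →
  LT (fun ω v => D (env X ω) 0 v) (HH X) κ q →
  (∀ v : ℤ × ℤ, 2 * HH X v ≤ HH X (v + v) + C * (1 + (nm v : ℝ)) ^ (1 - κ)) →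
  ∃ C' : ℝ, 0 < C' ∧ ∀ (v : ℤ × ℤ) (m : ℝ),
    (∀ᵐ ω ∂(volume : Measure Ω), Tendsto (fun n : ℕ => D (env X ω) 0 ((n : ℤ) • v) / (n : ℝ))
      atTop (𝓝 m)) →
    HH X v ≤ m + C' * (1 + (nm v : ℝ)) ^ (1 - κ)

/-- OUT2. Polynomial version of `S_OUT`.

`Out T μ κ' t` implies `T v ≤ t` for some `v` with `μ v ≥ t + t^(1-κ')/2` (large `t`), and then
`T v ≤ μ v - A (1 + nm v)^(1-κ)`: if `μ v ≤ 2t` since `t^(1-κ')/2 ≥ A (1 + 2t/c)^(1-κ)`, if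
`μ v ≥ 2t` since `μ v / 2 ≥ A (1 + μ v / c)^(1-κ)`. Sum `A (1 + nm v)^(-q)` over all `v` with
`nm v ≥ t/C`: at most a constant times `t^(2-q)`. -/
def S_OUT2 : Prop := ∀ (Ω : Type) [MeasureSpace Ω] [IsProbabilityMeasure (volume : Measure Ω)]
  (T : Ω → ℤ × ℤ → ℝ) (μ : Seminorm ℝ (ℝ × ℝ)) (c C : ℝ) (L : ℕ), Cst μ c C L →
  ∀ κ κ' q : ℝ, 0 < κ' → κ' < κ → κ < 1 → 2 < q → LT T (fun v => μ (em v)) κ q →
  Asymptotics.IsBigO atTop (fun t : ℝ => (volume : Measure Ω).real (Out T μ κ' t))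
    (fun t : ℝ => t ^ (-(q - 2)))

/-- MUP. Moments from an exponential tail: with `f = max (T - m) 0`,
`f^k ≤ r^k + ∑_{j≥0} ((j+2) r)^k 1{m + r + j r ≤ T}` (if `f ∈ [(j+1) r, (j+2) r)` then
`f^k ≤ ((j+2) r)^k`), and `P(m + r + j r ≤ T) ≤ exp (-(1+d) - d j)`. -/
def S_MUP : Prop := ∀ (k : ℕ) (d : ℝ), 0 < d → ∃ M : ℝ, 0 < M ∧
  ∀ (Ω : Type) [MeasureSpace Ω] [IsProbabilityMeasure (volume : Measure Ω)] (T : Ω → ℝ),
  AEMeasurable T (volume : Measure Ω) → ∀ m r : ℝ, 0 < r →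
  (∀ u : ℝ, 0 ≤ u →
    (volume : Measure Ω).real {ω | m + r + u ≤ T ω} ≤ Real.exp (-(1 + d + d * u / r))) →
  Integrable (fun ω => (max (T ω - m) 0) ^ k) (volume : Measure Ω) ∧
  ∫ ω, (max (T ω - m) 0) ^ k ∂(volume : Measure Ω) ≤ M * r ^ k

/-- MLO. Moments of the negative part from the large deviation bound. With `f = max (μ v - T v) 0`
(`≤ μ v` a.s.): `∫ f^k ≤ s^k + (μ v)^k P(T v ≤ μ v - s)`, `s = (1 + nm v)^(1-κ)`; apply the
hypothesis with `δ = s / μ v` (if `s ≥ μ v` trivial): the probability is at most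
`A exp (-(s/μ v)^(1/κ2) μ v / A)`, and `(s/μ v)^(1/κ2) μ v ≥ c' (1 + nm v)^(1 - κ/κ2)`. -/
def S_MLO : Prop := ∀ (Ω : Type) [MeasureSpace Ω] [IsProbabilityMeasure (volume : Measure Ω)]
  (T : Ω → ℤ × ℤ → ℝ) (μ : Seminorm ℝ (ℝ × ℝ)) (c C : ℝ) (L : ℕ), Cst μ c C L →
  (∀ v, AEMeasurable (fun ω => T ω v) (volume : Measure Ω)) →
  (∀ v, ∀ᵐ ω ∂(volume : Measure Ω), 0 ≤ T ω v) →
  ∀ κ κ2 A : ℝ, 0 < κ → κ < κ2 → κ2 < 1 → 0 < A →
  (∀ (v : ℤ × ℤ) (δ : ℝ), 0 < δ → δ ≤ 1 →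
    (volume : Measure Ω).real {ω | T ω v ≤ (1 - δ) * μ (em v)} ≤
      A * Real.exp (-(δ ^ (1 / κ2) * μ (em v) / A))) →
  ∀ k : ℕ, ∃ M : ℝ, 0 < M ∧ ∀ v : ℤ × ℤ,
    Integrable (fun ω => (max (μ (em v) - T ω v) 0) ^ k) (volume : Measure Ω) ∧
    ∫ ω, (max (μ (em v) - T ω v) 0) ^ k ∂(volume : Measure Ω) ≤
      M * ((1 + (nm v : ℝ)) ^ (1 - κ)) ^ k

/-- LDT. The large deviation bound implies the polynomial one-point bound around `μ` for every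
power (same computation as in `S_MLO`, `δ = A' (1 + nm v)^(1-κ) / μ v`; if `δ > 1` then the event
is empty as `T ≥ 0` a.s.; `v = 0`: choose the constant at least one). -/
def S_LDT : Prop := ∀ (Ω : Type) [MeasureSpace Ω] [IsProbabilityMeasure (volume : Measure Ω)]
  (T : Ω → ℤ × ℤ → ℝ) (μ : Seminorm ℝ (ℝ × ℝ)) (c C : ℝ) (L : ℕ), Cst μ c C L →
  (∀ v, ∀ᵐ ω ∂(volume : Measure Ω), 0 ≤ T ω v) →
  ∀ κ κ2 A : ℝ, 0 < κ → κ < κ2 → κ2 < 1 → 0 < A →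
  (∀ (v : ℤ × ℤ) (δ : ℝ), 0 < δ → δ ≤ 1 →
    (volume : Measure Ω).real {ω | T ω v ≤ (1 - δ) * μ (em v)} ≤
      A * Real.exp (-(δ ^ (1 / κ2) * μ (em v) / A))) →
  ∀ q : ℝ, 0 < q → LT T (fun v => μ (em v)) κ q

end Pool.Agent.Run7.h472.OH
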