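import Pool.Agent.Run7.h472.OH.Asm
import Pool.Agent.Run7.h472.OH.Iface2

/-! Assembly, second part. -/

set_option autoImplicit false
open MeasureTheory ProbabilityTheory Filter Set
open scoped ENNReal Pointwise Topology

namespace Pool.Agent.Run7.h472.OH

open Pool.Agent.N662.FP


section
variable {Ω : Type} [MeasureSpace Ω] [IsProbabilityMeasure (volume : Measure Ω)]
variable {X : Sym2 (ℤ × ℤ) → Ω → ℝ}

/-- polynomial decay of the outer events -/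
def OP (T : Ω → ℤ × ℤ → ℝ) (μ : Seminorm ℝ (ℝ × ℝ)) (κ q : ℝ) : Prop :=
  Asymptotics.IsBigO atTop (fun t : ℝ => (volume : Measure Ω).real (Out T μ κ t))
    (fun t : ℝ => t ^ (-q))

/-- stretched exponential decay of the outer events -/
def OE (T : Ω → ℤ × ℤ → ℝ) (μ : Seminorm ℝ (ℝ × ℝ)) (κ : ℝ) : Prop :=
  ∃ c : ℝ, 0 < c ∧ ∀ᶠ t : ℝ in atTop, (volume : Measure Ω).real (Out T μ κ t) ≤ Real.exp (-(t ^ c))

omit [IsProbabilityMeasure (volume : Measure Ω)] in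
theorem OE_OP {T : Ω → ℤ × ℤ → ℝ} {μ : Seminorm ℝ (ℝ × ℝ)} {κ : ℝ} (h : OE T μ κ) (q : ℝ) :
    OP T μ κ q := by
  obtain ⟨c, hc, hcc⟩ := h
  refine (Asymptotics.IsBigO.of_bound 1 ?_).trans (exp_O c q hc)
  filter_upwards [hcc] with t ht
  rw [Real.norm_of_nonneg measureReal_nonneg, Real.norm_of_nonneg (Real.exp_pos _).le, one_mul]
  exact ht

/-- all the pieces -/
structure Pcs : Prop where
  CG : S_CG
  FEW : S_FEW
  STEP : S_STEP
  EMB : S_EMB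
  OTG : S_OTG
  ITG : S_ITG
  ITT : S_ITT
  OUT : S_OUT
  OUT2 : S_OUT2
  LDT : S_LDT
  HB : S_HB
  DBL : S_DBL
  NRF : S_NRF
  MUP : S_MUP
  MLO : S_MLO

theorem ae0 (hX : Iid X) (v : ℤ × ℤ) : ∀ᵐ ω ∂(volume : Measure Ω), 0 ≤ D (env X ω) 0 v := by
  filter_upwards [cAE Ω X hX] with ω h
  exact (cGE (env X ω) h 0 v).2.2.1

theorem outer_tfae (hP : Pcs) (hX : Iid X) (μ : Seminorm ℝ (ℝ × ℝ)) (hμ : ∀ x, μ x = 0 → x = 0)
    (K : ℝ) (hK : K ≤ 1) :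
    List.TFAE [
      ∀ κ : ℝ, 0 < κ → κ < K → ∃ q : ℝ, 3 / (1 - κ) < q ∧ OP (fun ω v => D (env X ω) 0 v) μ κ q,
      ∀ κ : ℝ, 0 < κ → κ < K → ∀ q : ℝ, 0 < q → OP (fun ω v => D (env X ω) 0 v) μ κ q,
      ∀ κ : ℝ, 0 < κ → κ < K → OE (fun ω v => D (env X ω) 0 v) μ κ,
      ∀ κ : ℝ, 0 < κ → κ < K → LD (fun ω v => D (env X ω) 0 v) μ κ,
      ∀ κ : ℝ, 0 < κ → κ < K → ∃ q : ℝ, 5 / (1 - κ) < q ∧
        LT (fun ω v => D (env X ω) 0 v) (fun v => μ (Pool.Agent.N662.FP.em v)) κ q] := by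
  obtain ⟨c, C, L, hc⟩ := t_CST μ hμ
  tfae_have 1 → 4 := by
    intro h κ h0 h1
    obtain ⟨q, hq, ho⟩ := h ((κ + K) / 2) (by linarith) (by linarith)
    exact toLD hP.CG hP.FEW hP.STEP hP.EMB hP.OTG hP.ITG hP.ITT hX μ hμ ((κ + K) / 2) κ q h0
      (by linarith) (by linarith) hq ho
  tfae_have 4 → 3 := by
    intro h κ h0 h1
    obtain ⟨A, hA, hh⟩ := h ((κ + K) / 2) (by linarith) (by linarith)
    exact hP.OUT Ω _ μ c C L hc ((κ + K) / 2) κ A h0 (by linarith) (by linarith) hA hh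
  tfae_have 3 → 2 := fun h κ h0 h1 q _ => OE_OP (h κ h0 h1) q
  tfae_have 2 → 1 := by
    intro h κ h0 h1
    have h3 : 0 < 3 / (1 - κ) := div_pos (by norm_num) (by linarith)
    exact ⟨3 / (1 - κ) + 1, by linarith, h κ h0 h1 _ (by linarith)⟩
  tfae_have 4 → 5 := by
    intro h κ h0 h1
    obtain ⟨A, hA, hh⟩ := h ((κ + K) / 2) (by linarith) (by linarith)
    have h3 : 0 < 5 / (1 - κ) := div_pos (by norm_num) (by linarith)
    exact ⟨5 / (1 - κ) + 1, by linarith, hP.LDT Ω _ μ c C L hc (ae0 hX) κ ((κ + K) / 2) A h0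
      (by linarith) (by linarith) hA hh _ (by linarith)⟩
  tfae_have 5 → 1 := by
    intro h κ h0 h1
    obtain ⟨q, hq, hh⟩ := h ((κ + K) / 2) (by linarith) (by linarith)
    have h3 : 0 < 1 - (κ + K) / 2 := by linarith
    have h3' : 0 < 1 - κ := by linarith
    have h4 : 3 / (1 - κ) ≤ 3 / (1 - (κ + K) / 2) :=
      div_le_div_of_nonneg_left (by norm_num) h3 (by linarith)
    have h5 : 5 / (1 - (κ + K) / 2) = 3 / (1 - (κ + K) / 2) + 2 / (1 - (κ + K) / 2) := by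
      rw [← add_div]; norm_num
    have h6 : 2 ≤ 2 / (1 - (κ + K) / 2) := by
      rw [le_div_iff₀ h3]
      linarith
    have h7 : 0 < 3 / (1 - κ) := div_pos (by norm_num) h3'
    exact ⟨q - 2, by linarith, hP.OUT2 Ω _ μ c C L hc ((κ + K) / 2) κ q h0 (by linarith)
      (by linarith) (by linarith) hh⟩
  tfae_finish

end

end Pool.Agent.Run7.h472.OH
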