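import Pool.Agent.Run7.h472.OH.Asm2

/-! Assembly, third part: the mean and the moments. -/

set_option autoImplicit false
open MeasureTheory ProbabilityTheory Filter Set
open scoped ENNReal Pointwise Topology

namespace Pool.Agent.Run7.h472.OH

open Pool.Agent.N662.FP


/-- the first moment bound -/
def FM {Ω : Type} [MeasureSpace Ω] (T : Ω → ℤ × ℤ → ℝ) (μ : Seminorm ℝ (ℝ × ℝ)) (κ : ℝ) : Prop :=
  ∃ A : ℝ, ∀ v : ℤ × ℤ, ∫ ω, |T ω v - μ (Pool.Agent.N662.FP.em v)| ∂(volume : Measure Ω) ≤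
    A * (1 + μ (Pool.Agent.N662.FP.em v)) ^ (1 - κ)

/-- the central moments -/
def CM {Ω : Type} [MeasureSpace Ω] (T : Ω → ℤ × ℤ → ℝ) (h : ℤ × ℤ → ℝ) (κ : ℝ) (k : ℕ) : Prop :=
  ∃ A : ℝ, ∀ v : ℤ × ℤ, Integrable (fun ω => |T ω v - h v| ^ k) (volume : Measure Ω) ∧
    ∫ ω, |T ω v - h v| ^ k ∂(volume : Measure Ω) ≤ A * ((1 + (nm v : ℝ)) ^ (1 - κ)) ^ k

theorem nm_to_mu {μ : Seminorm ℝ (ℝ × ℝ)} {c C : ℝ} {L : ℕ} (hc : Cst μ c C L) :
    ∃ b : ℝ, 1 ≤ b ∧ ∀ (κ : ℝ), 0 ≤ κ → κ ≤ 1 → ∀ v : ℤ × ℤ,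
      (1 + μ (Pool.Agent.N662.FP.em v)) ^ (1 - κ) ≤ b * (1 + (nm v : ℝ)) ^ (1 - κ) ∧
      (1 + (nm v : ℝ)) ^ (1 - κ) ≤ b * (1 + μ (Pool.Agent.N662.FP.em v)) ^ (1 - κ) := by
  have hcp := hc.c_pos
  have hCp := hc.C_pos
  refine ⟨1 + C + 1 / c, by
    have : 0 < 1 / c := by positivity
    linarith, fun κ h0 h1 v => ?_⟩
  set b := 1 + C + 1 / c with hb
  have hc1 : 0 < 1 / c := by positivity
  have hb1 : 1 ≤ b := by linarith
  have hn : (0 : ℝ) ≤ nm v := Nat.cast_nonneg _
  have hm : 0 ≤ μ (Pool.Agent.N662.FP.em v) := apply_nonneg μ _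
  have hbb : b ^ (1 - κ) ≤ b := by
    conv_rhs => rw [← Real.rpow_one b]
    exact Real.rpow_le_rpow_of_exponent_le hb1 (by linarith)
  constructor
  · have h2 : 1 + μ (Pool.Agent.N662.FP.em v) ≤ b * (1 + (nm v : ℝ)) := by
      have := hc.hi v
      nlinarith
    calc (1 + μ (Pool.Agent.N662.FP.em v)) ^ (1 - κ) ≤ (b * (1 + (nm v : ℝ))) ^ (1 - κ) :=
          Real.rpow_le_rpow (by linarith) h2 (by linarith)
      _ = b ^ (1 - κ) * (1 + (nm v : ℝ)) ^ (1 - κ) := Real.mul_rpow (by linarith) (by linarith)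
      _ ≤ b * (1 + (nm v : ℝ)) ^ (1 - κ) :=
          mul_le_mul_of_nonneg_right hbb (Real.rpow_nonneg (by linarith) _)
  · have h2 : 1 + (nm v : ℝ) ≤ b * (1 + μ (Pool.Agent.N662.FP.em v)) := by
      have h3 := hc.lo v
      have h4 : (nm v : ℝ) ≤ 1 / c * μ (Pool.Agent.N662.FP.em v) := by
        rw [div_mul_eq_mul_div, one_mul, le_div_iff₀ hcp]
        linarith
      have h5 : 0 ≤ C * μ (Pool.Agent.N662.FP.em v) := by positivity
      nlinarith
    calc (1 + (nm v : ℝ)) ^ (1 - κ) ≤ (b * (1 + μ (Pool.Agent.N662.FP.em v))) ^ (1 - κ) :=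
          Real.rpow_le_rpow (by linarith) h2 (by linarith)
      _ = b ^ (1 - κ) * (1 + μ (Pool.Agent.N662.FP.em v)) ^ (1 - κ) := Real.mul_rpow (by linarith) (by linarith)
      _ ≤ b * (1 + μ (Pool.Agent.N662.FP.em v)) ^ (1 - κ) :=
          mul_le_mul_of_nonneg_right hbb (Real.rpow_nonneg (by linarith) _)

section
variable {Ω : Type} [MeasureSpace Ω] [IsProbabilityMeasure (volume : Measure Ω)]
variable {X : Sym2 (ℤ × ℤ) → Ω → ℝ}

/-- from the moments to the lower tail around the mean -/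
theorem CM_LT {T : Ω → ℤ × ℤ → ℝ} {h : ℤ × ℤ → ℝ} (K : ℝ)
    (hCM : ∀ κ : ℝ, 0 < κ → κ < K → ∀ k : ℕ, CM T h κ k) (κ : ℝ) (h0 : 0 < κ) (h1 : κ < K) : ∃ q : ℝ, 5 / (1 - κ) < q ∧ LT T h κ q := by
  set κm := (κ + K) / 2 with hκm
  have hgap : 0 < κm - κ := by linarith
  obtain ⟨k, hk⟩ := exists_nat_gt (5 / (1 - κ) / (κm - κ))
  rw [div_lt_iff₀ hgap] at hk
  obtain ⟨A, hA⟩ := hCM κm (by linarith) (by linarith) k
  refine ⟨k * (κm - κ), hk, max A 1, lt_max_of_lt_right one_pos, fun v => ?_⟩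
  obtain ⟨hi, hle⟩ := hA v
  have hn : (0 : ℝ) < 1 + nm v := by positivity
  set s := (1 + (nm v : ℝ)) ^ (1 - κ) with hs
  have hs0 : 0 < s := Real.rpow_pos_of_pos hn _
  have hsk : 0 < s ^ k := pow_pos hs0 k
  have hmk := mul_meas_ge_le_integral_of_nonneg (μ := (volume : Measure Ω))
    (f := fun ω => |T ω v - h v| ^ k) (Eventually.of_forall fun ω => by positivity) hi (s ^ k)
  have hsub : (volume : Measure Ω).real {ω | T ω v ≤ h v - max A 1 * s} ≤
      (volume : Measure Ω).real {ω | s ^ k ≤ |T ω v - h v| ^ k} := by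
    refine measureReal_mono ?_ (measure_ne_top _ _)
    intro ω (hω : T ω v ≤ h v - max A 1 * s)
    show s ^ k ≤ |T ω v - h v| ^ k
    refine pow_le_pow_left₀ hs0.le ?_ k
    have h2 : 1 * s ≤ max A 1 * s := mul_le_mul_of_nonneg_right (le_max_right _ _) hs0.le
    rw [abs_sub_comm]
    refine le_trans ?_ (le_abs_self _)
    linarith
  refine hsub.trans ?_
  have h3 : (volume : Measure Ω).real {ω | s ^ k ≤ |T ω v - h v| ^ k} ≤
      A * ((1 + (nm v : ℝ)) ^ (1 - κm)) ^ k / s ^ k := by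
    rw [le_div_iff₀ hsk, mul_comm]
    exact hmk.trans hle
  refine h3.trans ?_
  have h4 : ((1 + (nm v : ℝ)) ^ (1 - κm)) ^ k / s ^ k = (1 + (nm v : ℝ)) ^ (-(k * (κm - κ))) := by
    rw [hs, ← Real.rpow_natCast, ← Real.rpow_natCast, ← Real.rpow_mul hn.le,
      ← Real.rpow_mul hn.le, ← Real.rpow_sub hn]
    congr 1
    ring
  rw [mul_div_assoc, h4]
  exact mul_le_mul_of_nonneg_right (le_max_left _ _) (Real.rpow_nonneg hn.le _)

theorem mean_ge (hX : Iid X) {μ : Seminorm ℝ (ℝ × ℝ)}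
    (hlim : ∀ z : ℤ × ℤ, ∀ᵐ ω ∂(volume : Measure Ω),
      Tendsto (fun n : ℕ => D (env X ω) 0 ((n : ℤ) • z) / (n : ℝ)) atTop (𝓝 (μ (Pool.Agent.N662.FP.em z))))
    (v : ℤ × ℤ) : μ (Pool.Agent.N662.FP.em v) ≤ HH X v := cFAT Ω X hX v _ (hlim v)

theorem abs_int (hX : Iid X) {μ : Seminorm ℝ (ℝ × ℝ)} (v : ℤ × ℤ) :
    HH X v - μ (Pool.Agent.N662.FP.em v) ≤ ∫ ω, |D (env X ω) 0 v - μ (Pool.Agent.N662.FP.em v)| ∂(volume : Measure Ω) := by
  have hi := cINT Ω X hX 0 v
  have h1 : HH X v - μ (Pool.Agent.N662.FP.em v) = ∫ ω, (D (env X ω) 0 v - μ (Pool.Agent.N662.FP.em v)) ∂(volume : Measure Ω) := by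
    rw [integral_sub hi (integrable_const _)]
    simp [HH]
  rw [h1]
  exact integral_mono (hi.sub (integrable_const _)) (hi.sub (integrable_const _)).abs
    (fun ω => le_abs_self _)

/-- from the lower tail around the mean to the lower tail around `μ` and the first moment -/
theorem LT_all (hP : Pcs) (hX : Iid X) (μ : Seminorm ℝ (ℝ × ℝ)) {c C : ℝ} {L : ℕ}
    (hc : Cst μ c C L)
    (hlim : ∀ z : ℤ × ℤ, ∀ᵐ ω ∂(volume : Measure Ω),
      Tendsto (fun n : ℕ => D (env X ω) 0 ((n : ℤ) • z) / (n : ℝ)) atTop (𝓝 (μ (Pool.Agent.N662.FP.em z))))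
    (κ q : ℝ) (h0 : 0 < κ) (h1 : κ < 1) (hq : 5 / (1 - κ) < q)
    (hLT : LT (fun ω v => D (env X ω) 0 v) (HH X) κ q) :
    LT (fun ω v => D (env X ω) 0 v) (fun v => μ (Pool.Agent.N662.FP.em v)) κ q ∧
      FM (fun ω v => D (env X ω) 0 v) μ κ := by
  have hge := mean_ge hX hlim
  have hcp := hc.c_pos
  obtain ⟨C1, hC1, hdb⟩ := hP.DBL Ω X hX c hcp (fun v => (hc.lo v).trans (hge v)) κ q h0 h1 hq hLT
  have h1k : 0 < 1 - κ := by linarith
  have hq5 : 5 < q := by
    have : 5 ≤ 5 / (1 - κ) := by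
      rw [le_div_iff₀ h1k]
      linarith
    linarith
  obtain ⟨C2, hC2, hnr⟩ := hP.NRF Ω X hX κ q C1 h0 h1 (by linarith) hC1 hLT hdb
  have hnr' := fun v => hnr v _ (hlim v)
  obtain ⟨A, hA, hAA⟩ := hLT
  constructor
  · refine ⟨A, hA, fun v => le_trans (measureReal_mono ?_ (measure_ne_top _ _)) (hAA v)⟩
    intro ω (hω : D (env X ω) 0 v ≤ μ (Pool.Agent.N662.FP.em v) - A * (1 + (nm v : ℝ)) ^ (1 - κ))
    show D (env X ω) 0 v ≤ HH X v - A * (1 + (nm v : ℝ)) ^ (1 - κ)
    linarith [hge v]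
  · obtain ⟨_, _, hHn, H0, hH0, hHle⟩ := hP.HB Ω X hX
    obtain ⟨b, hb1, hb⟩ := nm_to_mu hc
    refine ⟨(2 * (A + H0 * A) + C2) * b, fun v => ?_⟩
    have hn : (0 : ℝ) < 1 + nm v := by positivity
    set s := (1 + (nm v : ℝ)) ^ (1 - κ) with hs
    have hs0 : 0 < s := Real.rpow_pos_of_pos hn _
    have hi := cINT Ω X hX 0 v
    set T : Ω → ℝ := fun ω => D (env X ω) 0 v with hT
    have hiT : Integrable T (volume : Measure Ω) := hi
    have hae : ∀ᵐ ω ∂(volume : Measure Ω), 0 ≤ T ω := ae0 hX v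
    set E : Set Ω := toMeasurable (volume : Measure Ω) {ω | T ω ≤ HH X v - A * s} with hE
    have hEm : MeasurableSet E := measurableSet_toMeasurable _ _
    have hEr : (volume : Measure Ω).real E ≤ A * (1 + (nm v : ℝ)) ^ (-q) := by
      refine le_trans (le_of_eq ?_) (hAA v)
      simp only [measureReal_def, hE, measure_toMeasurable]
      rfl
    -- the negative part
    have hneg : ∫ ω, max (HH X v - T ω) 0 ∂(volume : Measure Ω) ≤
        A * s + HH X v * (volume : Measure Ω).real E := by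
      have hint2 : Integrable (fun ω => A * s + HH X v * E.indicator (fun _ => (1 : ℝ)) ω)
          (volume : Measure Ω) :=
        (integrable_const _).add ((integrable_indicator_iff hEm |>.2
          (integrable_const _).integrableOn).const_mul _)
      have h2 : ∫ ω, (A * s + HH X v * E.indicator (fun _ => (1 : ℝ)) ω)
          ∂(volume : Measure Ω) = A * s + HH X v * (volume : Measure Ω).real E := by
        rw [integral_add (integrable_const _) ((integrable_indicator_iff hEm |>.2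
          (integrable_const _).integrableOn).const_mul _)]
        have e3 : ∫ _ω, A * s ∂(volume : Measure Ω) = A * s := by simp
        have e4 : ∫ ω, HH X v * E.indicator (fun _ => (1 : ℝ)) ω ∂(volume : Measure Ω) =
            HH X v * (volume : Measure Ω).real E := by
          rw [integral_const_mul]
          congr 1
          exact integral_indicator_one hEm
        rw [e3, e4]
      rw [← h2]
      refine integral_mono_ae (((integrable_const _).sub hiT).pos_part) hint2 ?_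
      filter_upwards [hae] with ω hω
      show max (HH X v - T ω) 0 ≤ A * s + HH X v * E.indicator (fun _ => (1 : ℝ)) ω
      have hAs : 0 < A * s := by positivity
      by_cases hmem : ω ∈ E
      · rw [Set.indicator_of_mem hmem, mul_one]
        refine max_le ?_ ?_
        · linarith
        · linarith [hHn v]
      · rw [Set.indicator_of_notMem hmem, mul_zero, add_zero]
        have h3 : ¬ T ω ≤ HH X v - A * s := fun hc' =>
          hmem (subset_toMeasurable _ _ hc')
        refine max_le ?_ hAs.le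
        linarith
    have hHr : HH X v * (volume : Measure Ω).real E ≤ H0 * A * s := by
      have h2 : HH X v * (volume : Measure Ω).real E ≤ (H0 * nm v) * (A * (1 + (nm v : ℝ)) ^ (-q)) :=
        mul_le_mul (hHle v) hEr measureReal_nonneg (by positivity)
      have h3 : (nm v : ℝ) * (1 + (nm v : ℝ)) ^ (-q) ≤ s := by
        calc (nm v : ℝ) * (1 + (nm v : ℝ)) ^ (-q) ≤ (1 + (nm v : ℝ)) ^ (1 : ℝ) *
              (1 + (nm v : ℝ)) ^ (-q) := by
              rw [Real.rpow_one]
              exact mul_le_mul_of_nonneg_right (by linarith) (Real.rpow_nonneg hn.le _)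
          _ = (1 + (nm v : ℝ)) ^ (1 + (-q)) := (Real.rpow_add hn _ _).symm
          _ ≤ (1 + (nm v : ℝ)) ^ (1 - κ) := by
              refine Real.rpow_le_rpow_of_exponent_le ?_ (by linarith)
              have : (0 : ℝ) ≤ nm v := Nat.cast_nonneg _
              linarith
      have h4 : 0 ≤ H0 * A := by positivity
      have h5 := mul_le_mul_of_nonneg_left h3 h4
      calc _ ≤ (H0 * nm v) * (A * (1 + (nm v : ℝ)) ^ (-q)) := h2
        _ = H0 * A * ((nm v : ℝ) * (1 + (nm v : ℝ)) ^ (-q)) := by ring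
        _ ≤ H0 * A * s := h5
    -- the first absolute central moment
    have habs : ∫ ω, |T ω - HH X v| ∂(volume : Measure Ω) =
        2 * ∫ ω, max (HH X v - T ω) 0 ∂(volume : Measure Ω) := by
      have h2 : ∀ ω, |T ω - HH X v| = (T ω - HH X v) + 2 * max (HH X v - T ω) 0 := by
        intro ω
        rcases le_total (T ω) (HH X v) with h | h
        · rw [abs_of_nonpos (by linarith), max_eq_left (by linarith)]; ring
        · rw [abs_of_nonneg (by linarith), max_eq_right (by linarith)]; ring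
      have e1 : ∫ ω, |T ω - HH X v| ∂(volume : Measure Ω) =
          ∫ ω, ((T ω - HH X v) + 2 * max (HH X v - T ω) 0) ∂(volume : Measure Ω) :=
        integral_congr_ae (Eventually.of_forall h2)
      have i1 : Integrable (fun ω => T ω - HH X v) (volume : Measure Ω) :=
        hiT.sub (integrable_const _)
      have i2 : Integrable (fun ω => 2 * max (HH X v - T ω) 0) (volume : Measure Ω) :=
        (((integrable_const _).sub hiT).pos_part).const_mul 2
      have e2 : ∫ ω, (T ω - HH X v) ∂(volume : Measure Ω) = 0 := by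
        rw [integral_sub hiT (integrable_const _)]
        have : ∫ ω, T ω ∂(volume : Measure Ω) = HH X v := rfl
        rw [this]
        simp
      rw [e1, integral_add i1 i2, e2, integral_const_mul, zero_add]
    have htri : ∫ ω, |T ω - μ (Pool.Agent.N662.FP.em v)| ∂(volume : Measure Ω) ≤
        ∫ ω, |T ω - HH X v| ∂(volume : Measure Ω) + (HH X v - μ (Pool.Agent.N662.FP.em v)) := by
      have h2 : ∫ ω, (|T ω - HH X v| + (HH X v - μ (Pool.Agent.N662.FP.em v))) ∂(volume : Measure Ω) =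
          ∫ ω, |T ω - HH X v| ∂(volume : Measure Ω) + (HH X v - μ (Pool.Agent.N662.FP.em v)) := by
        have i1 : Integrable (fun ω => |T ω - HH X v|) (volume : Measure Ω) :=
          (hiT.sub (integrable_const _)).abs
        rw [integral_add i1 (integrable_const _)]
        simp
      rw [← h2]
      refine integral_mono (hiT.sub (integrable_const _)).abs
        ((hiT.sub (integrable_const _)).abs.add (integrable_const _)) (fun ω => ?_)
      show |T ω - μ (Pool.Agent.N662.FP.em v)| ≤ |T ω - HH X v| + (HH X v - μ (Pool.Agent.N662.FP.em v))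
      have h3 : T ω - μ (Pool.Agent.N662.FP.em v) = (T ω - HH X v) + (HH X v - μ (Pool.Agent.N662.FP.em v)) := by ring
      rw [h3]
      refine (abs_add_le _ _).trans ?_
      rw [abs_of_nonneg (sub_nonneg.2 (hge v))]
    have hsb := (hb κ h0.le h1.le v).2
    have hfin : ∫ ω, |T ω - μ (Pool.Agent.N662.FP.em v)| ∂(volume : Measure Ω) ≤ (2 * (A + H0 * A) + C2) * s := by
      have := hnr' v
      have e1 : (2 * (A + H0 * A) + C2) * s = 2 * (A * s + H0 * A * s) + C2 * s := by ring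
      rw [e1]
      linarith
    refine hfin.trans ?_
    have h6 : 0 ≤ 2 * (A + H0 * A) + C2 := by positivity
    have h7 := mul_le_mul_of_nonneg_left hsb h6
    calc _ ≤ _ := h7
      _ = _ := by ring

end

end Pool.Agent.Run7.h472.OH
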