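import Pool.Agent.Run7.h472.OH.Asm3

/-! Assembly, fourth part: all equivalences. -/

set_option autoImplicit false
open MeasureTheory ProbabilityTheory Filter Set
open scoped ENNReal Pointwise Topology

namespace Pool.Agent.Run7.h472.OH

open Pool.Agent.N662.FP


section
variable {Ω : Type} [MeasureSpace Ω] [IsProbabilityMeasure (volume : Measure Ω)]
variable {X : Sym2 (ℤ × ℤ) → Ω → ℝ}

/-- the central moments -/
theorem moments (hP : Pcs) (hX : Iid X) (μ : Seminorm ℝ (ℝ × ℝ)) {c C : ℝ} {L : ℕ}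
    (hc : Cst μ c C L) (hG : Good (fun ω v => D (env X ω) 0 v) μ)
    (hge : ∀ v : ℤ × ℤ, μ (Pool.Agent.N662.FP.em v) ≤ HH X v)
    (κ κm : ℝ) (h0 : 0 < κ) (h1 : κ < κm) (h2 : κm < 1)
    (hLD : LD (fun ω v => D (env X ω) 0 v) μ κm) (hFM : FM (fun ω v => D (env X ω) 0 v) μ κ)
    (k : ℕ) : CM (fun ω v => D (env X ω) 0 v) (HH X) κ k := by
  obtain ⟨A1, hA1, hLDD⟩ := hLD
  obtain ⟨A, hA⟩ := hFM
  obtain ⟨M, hM, hMM⟩ := hP.MUP k 1 one_pos
  obtain ⟨M', hM', hMM'⟩ := hP.MLO Ω (fun ω v => D (env X ω) 0 v) μ c C L hc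
    (fun v => (cINT Ω X hX 0 v).aestronglyMeasurable.aemeasurable) (ae0 hX) κ κm A1 h0 h1 h2 hA1
    hLDD k
  obtain ⟨b, hb1, hb⟩ := nm_to_mu hc
  set R : ℝ := 8 * (|A| + 1) with hR
  have hR0 : 0 < R := by positivity
  refine ⟨2 ^ k * (M * (R * b) ^ k + M' + ((|A|) * b) ^ k), fun v => ?_⟩
  have hn : (0 : ℝ) < 1 + nm v := by positivity
  set s := (1 + (nm v : ℝ)) ^ (1 - κ) with hs
  have hs0 : 0 < s := Real.rpow_pos_of_pos hn _
  have hm0 : 0 ≤ μ (Pool.Agent.N662.FP.em v) := apply_nonneg μ _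
  set w := (1 + μ (Pool.Agent.N662.FP.em v)) ^ (1 - κ) with hw
  have hw0 : 0 < w := Real.rpow_pos_of_pos (by linarith) _
  have hws : w ≤ b * s := (hb κ h0.le (by linarith) v).1
  set T : Ω → ℝ := fun ω => D (env X ω) 0 v with hT
  have hiT : Integrable T (volume : Measure Ω) := cINT Ω X hX 0 v
  have hFMv : ∫ ω, |T ω - μ (Pool.Agent.N662.FP.em v)| ∂(volume : Measure Ω) ≤ A * w := hA v
  -- upper tail
  have hr0 : 0 < R * w := by positivity
  have h8 : (volume : Measure Ω).real {ω | μ (Pool.Agent.N662.FP.em v) + R * w ≤ T ω} ≤ Real.exp (-(1 + 1)) := by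
    have h3 := mk T hiT (μ (Pool.Agent.N662.FP.em v)) (R * w) hr0
    have h4 : (volume : Measure Ω).real {ω | μ (Pool.Agent.N662.FP.em v) + R * w ≤ T ω} ≤
        (volume : Measure Ω).real {ω | R * w ≤ |T ω - μ (Pool.Agent.N662.FP.em v)|} := by
      refine measureReal_mono (fun ω hω => ?_) (measure_ne_top _ _)
      have h7 : μ (Pool.Agent.N662.FP.em v) + R * w ≤ T ω := hω
      show R * w ≤ |T ω - μ (Pool.Agent.N662.FP.em v)|
      exact (by linarith : R * w ≤ T ω - μ (Pool.Agent.N662.FP.em v)).trans (le_abs_self _)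
    refine h4.trans (h3.trans ?_)
    have h5 : (∫ ω, |T ω - μ (Pool.Agent.N662.FP.em v)| ∂(volume : Measure Ω)) / (R * w) ≤ 1 / 8 := by
      rw [div_le_iff₀ hr0, hR]
      have h6 : A * w ≤ |A| * w := mul_le_mul_of_nonneg_right (le_abs_self A) hw0.le
      have h7 : 1 / 8 * (8 * (|A| + 1) * w) = |A| * w + w := by ring
      linarith
    refine h5.trans ?_
    have h6 : Real.exp (-(1 + 1)) = Real.exp (-1) * Real.exp (-1) := by
      rw [← Real.exp_add]; norm_num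
    have h7 : (0.36 : ℝ) ≤ Real.exp (-1) := by
      rw [Real.exp_neg]
      have h9 := Real.exp_one_lt_d9
      have h10 := Real.exp_pos 1
      rw [← one_div, le_div_iff₀ h10]
      linarith
    rw [h6]
    nlinarith
  have hup := (hG.one v (R * w) 1 hr0 one_pos h8).1
  obtain ⟨hi1, hle1⟩ := hMM Ω T hiT.aestronglyMeasurable.aemeasurable (μ (Pool.Agent.N662.FP.em v)) (R * w) hr0 hup
  obtain ⟨hi2, hle2⟩ := hMM' v
  have hle2' : ∫ ω, (max (μ (Pool.Agent.N662.FP.em v) - T ω) 0) ^ k ∂(volume : Measure Ω) ≤ M' * s ^ k := hle2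
  have hi2' : Integrable (fun ω => (max (μ (Pool.Agent.N662.FP.em v) - T ω) 0) ^ k) (volume : Measure Ω) := hi2
  -- the mean
  have hhm : HH X v - μ (Pool.Agent.N662.FP.em v) ≤ |A| * b * s := by
    have h3 := (abs_int hX (μ := μ) v).trans hFMv
    have h4 : A * w ≤ |A| * w := mul_le_mul_of_nonneg_right (le_abs_self A) hw0.le
    have h5 : |A| * w ≤ |A| * (b * s) := mul_le_mul_of_nonneg_left hws (abs_nonneg _)
    linarith
  have hhm0 : 0 ≤ HH X v - μ (Pool.Agent.N662.FP.em v) := sub_nonneg.2 (hge v)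
  -- pointwise
  have hpt : ∀ ω, |T ω - HH X v| ^ k ≤ 2 ^ k * ((max (T ω - μ (Pool.Agent.N662.FP.em v)) 0) ^ k +
      (max (μ (Pool.Agent.N662.FP.em v) - T ω) 0) ^ k + (|A| * b * s) ^ k) := by
    intro ω
    have h3 : |T ω - HH X v| ≤ |T ω - μ (Pool.Agent.N662.FP.em v)| + (HH X v - μ (Pool.Agent.N662.FP.em v)) := by
      have h3 : T ω - HH X v = (T ω - μ (Pool.Agent.N662.FP.em v)) - (HH X v - μ (Pool.Agent.N662.FP.em v)) := by ring
      rw [h3]
      refine (abs_sub _ _).trans ?_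
      rw [abs_of_nonneg hhm0]
    set a := |T ω - μ (Pool.Agent.N662.FP.em v)| with ha
    have ha0 : 0 ≤ a := abs_nonneg _
    set e := |A| * b * s with he
    have he0 : 0 ≤ e := by positivity
    have h4 : |T ω - HH X v| ≤ 2 * max a e := by
      have := le_max_left a e
      have := le_max_right a e
      linarith
    have h5 : |T ω - HH X v| ^ k ≤ (2 * max a e) ^ k := pow_le_pow_left₀ (abs_nonneg _) h4 k
    rw [mul_pow] at h5
    have h6 : (max a e) ^ k ≤ a ^ k + e ^ k := by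
      rcases max_cases a e with ⟨h, _⟩ | ⟨h, _⟩ <;> rw [h]
      · linarith [pow_nonneg he0 k]
      · linarith [pow_nonneg ha0 k]
    have h7 : a ^ k ≤ (max (T ω - μ (Pool.Agent.N662.FP.em v)) 0) ^ k + (max (μ (Pool.Agent.N662.FP.em v) - T ω) 0) ^ k := by
      rcases le_total (T ω) (μ (Pool.Agent.N662.FP.em v)) with h | h
      · have h8 : a = max (μ (Pool.Agent.N662.FP.em v) - T ω) 0 := by
          rw [ha, abs_of_nonpos (by linarith), max_eq_left (by linarith)]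
          ring
        rw [h8]
        have : 0 ≤ (max (T ω - μ (Pool.Agent.N662.FP.em v)) 0) ^ k := pow_nonneg (le_max_right _ _) k
        linarith
      · have h8 : a = max (T ω - μ (Pool.Agent.N662.FP.em v)) 0 := by
          rw [ha, abs_of_nonneg (by linarith), max_eq_left (by linarith)]
        rw [h8]
        have : 0 ≤ (max (μ (Pool.Agent.N662.FP.em v) - T ω) 0) ^ k := pow_nonneg (le_max_right _ _) k
        linarith
    have h9 : (0 : ℝ) ≤ 2 ^ k := by positivity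
    have h10 : a ^ k + e ^ k ≤ (max (T ω - μ (Pool.Agent.N662.FP.em v)) 0) ^ k +
        (max (μ (Pool.Agent.N662.FP.em v) - T ω) 0) ^ k + e ^ k := by linarith
    have h11 : 2 ^ k * (max a e) ^ k ≤ 2 ^ k * (a ^ k + e ^ k) := mul_le_mul_of_nonneg_left h6 h9
    have h12 : 2 ^ k * (a ^ k + e ^ k) ≤ 2 ^ k * ((max (T ω - μ (Pool.Agent.N662.FP.em v)) 0) ^ k +
        (max (μ (Pool.Agent.N662.FP.em v) - T ω) 0) ^ k + e ^ k) := mul_le_mul_of_nonneg_left h10 h9
    exact h5.trans (h11.trans h12)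
  have hint : Integrable (fun ω => 2 ^ k * ((max (T ω - μ (Pool.Agent.N662.FP.em v)) 0) ^ k +
      (max (μ (Pool.Agent.N662.FP.em v) - T ω) 0) ^ k + (|A| * b * s) ^ k)) (volume : Measure Ω) :=
    ((hi1.add hi2').add (integrable_const _)).const_mul _
  have hmeas : AEStronglyMeasurable (fun ω => |T ω - HH X v| ^ k) (volume : Measure Ω) :=
    ((hiT.sub (integrable_const _)).abs.aestronglyMeasurable).pow k
  have hintk : Integrable (fun ω => |T ω - HH X v| ^ k) (volume : Measure Ω) := by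
    refine hint.mono' hmeas (Eventually.of_forall fun ω => ?_)
    rw [Real.norm_of_nonneg (by positivity)]
    exact hpt ω
  refine ⟨hintk, (integral_mono hintk hint hpt).trans ?_⟩
  have hi12 : Integrable (fun ω => (max (T ω - μ (Pool.Agent.N662.FP.em v)) 0) ^ k +
      (max (μ (Pool.Agent.N662.FP.em v) - T ω) 0) ^ k) (volume : Measure Ω) := hi1.add hi2'
  rw [integral_const_mul, integral_add hi12 (integrable_const _), integral_add hi1 hi2']
  have e0 : ∫ _ω, (|A| * b * s) ^ k ∂(volume : Measure Ω) = (|A| * b * s) ^ k := by simp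
  rw [e0]
  have e1 : (R * w) ^ k ≤ (R * b) ^ k * s ^ k := by
    rw [← mul_pow]
    refine pow_le_pow_left₀ hr0.le ?_ k
    calc R * w ≤ R * (b * s) := mul_le_mul_of_nonneg_left hws hR0.le
      _ = R * b * s := by ring
  have e2 : M * (R * w) ^ k ≤ M * ((R * b) ^ k * s ^ k) := mul_le_mul_of_nonneg_left e1 hM.le
  have e3 : (|A| * b * s) ^ k = (|A| * b) ^ k * s ^ k := mul_pow _ _ _
  have e4 : (M * (R * b) ^ k + M' + (|A| * b) ^ k) * s ^ k =
    M * ((R * b) ^ k * s ^ k) + M' * s ^ k + (|A| * b) ^ k * s ^ k := by ring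
  have e5 : ∫ ω, (max (T ω - μ (Pool.Agent.N662.FP.em v)) 0) ^ k ∂(volume : Measure Ω) +
      ∫ ω, (max (μ (Pool.Agent.N662.FP.em v) - T ω) 0) ^ k ∂(volume : Measure Ω) + (|A| * b * s) ^ k ≤
      (M * (R * b) ^ k + M' + (|A| * b) ^ k) * s ^ k := by
    rw [e4, e3]
    linarith
  have e6 : (0 : ℝ) ≤ 2 ^ k := by positivity
  refine (mul_le_mul_of_nonneg_left e5 e6).trans (le_of_eq ?_)
  ring

theorem full_tfae (hP : Pcs) (hX : Iid X) (μ : Seminorm ℝ (ℝ × ℝ))
    (hG : Good (fun ω v => D (env X ω) 0 v) μ)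
    (hlim : ∀ z : ℤ × ℤ, ∀ᵐ ω ∂(volume : Measure Ω),
      Tendsto (fun n : ℕ => D (env X ω) 0 ((n : ℤ) • z) / (n : ℝ)) atTop (𝓝 (μ (Pool.Agent.N662.FP.em z))))
    (K : ℝ) (hK : K < 1) :
    List.TFAE [
      ∀ κ : ℝ, 0 < κ → κ < K → ∀ q : ℝ, 0 < q → OP (fun ω v => D (env X ω) 0 v) μ κ q ∧
        Asymptotics.IsBigO atTop
          (fun t : ℝ => (volume : Measure Ω).real (Bad (fun ω v => D (env X ω) 0 v) μ κ t))
          (fun t : ℝ => t ^ (-q)),
      ∀ κ : ℝ, 0 < κ → κ < K → ∃ c : ℝ, 0 < c ∧ ∀ᶠ t : ℝ in atTop,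
        (volume : Measure Ω).real (Out (fun ω v => D (env X ω) 0 v) μ κ t) ≤ Real.exp (-(t ^ c)) ∧
        (volume : Measure Ω).real (Bad (fun ω v => D (env X ω) 0 v) μ κ t) ≤ Real.exp (-(t ^ c)),
      ∀ κ : ℝ, 0 < κ → κ < K → ∃ q : ℝ, 5 / (1 - κ) < q ∧
        LT (fun ω v => D (env X ω) 0 v) (HH X) κ q,
      ∀ κ : ℝ, 0 < κ → κ < K → ∀ k : ℕ, CM (fun ω v => D (env X ω) 0 v) (HH X) κ k,
      ∀ κ : ℝ, 0 < κ → κ < K → LD (fun ω v => D (env X ω) 0 v) μ κ ∧
        FM (fun ω v => D (env X ω) 0 v) μ κ] := by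
  obtain ⟨c, C, L, hc⟩ := t_CST μ hG.norm
  have hO := outer_tfae hP hX μ hG.norm K hK.le
  have hI := tfae cNORM cDD2 cEE hG K hK
  have hge := mean_ge hX hlim
  tfae_have 2 → 1 := by
    intro h κ h0 h1 q hq
    obtain ⟨c, hc, hcc⟩ := h κ h0 h1
    refine ⟨OE_OP ⟨c, hc, hcc.mono fun t ht => ht.1⟩ q, ?_⟩
    refine (Asymptotics.IsBigO.of_bound 1 ?_).trans (exp_O c q hc)
    filter_upwards [hcc] with t ht
    rw [Real.norm_of_nonneg measureReal_nonneg, Real.norm_of_nonneg (Real.exp_pos _).le, one_mul]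
    exact ht.2
  tfae_have 1 → 5 := by
    intro h
    have h3 := (hO.out 1 3).1 (fun κ h0 h1 q hq => (h κ h0 h1 q hq).1)
    have h4 := (hI.out 1 4).1 (fun κ h0 h1 q hq => (h κ h0 h1 q hq).2)
    exact fun κ h0 h1 => ⟨h3 κ h0 h1, h4 κ h0 h1⟩
  tfae_have 5 → 2 := by
    intro h
    have h3 := (hO.out 3 2).1 (fun κ h0 h1 => (h κ h0 h1).1)
    have h4 := (hI.out 4 2).1 (fun κ h0 h1 => (h κ h0 h1).2)
    intro κ h0 h1
    obtain ⟨c1, hc1, hh1⟩ := h3 κ h0 h1
    obtain ⟨c2, hc2, hh2⟩ := h4 κ h0 h1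
    refine ⟨min c1 c2, lt_min hc1 hc2, ?_⟩
    filter_upwards [hh1, hh2, eventually_ge_atTop 1] with t ht1 ht2 ht
    constructor
    · refine ht1.trans (Real.exp_le_exp.2 (neg_le_neg ?_))
      exact Real.rpow_le_rpow_of_exponent_le ht (min_le_left _ _)
    · refine ht2.trans (Real.exp_le_exp.2 (neg_le_neg ?_))
      exact Real.rpow_le_rpow_of_exponent_le ht (min_le_right _ _)
  tfae_have 5 → 4 := by
    intro h κ h0 h1 k
    exact moments hP hX μ hc hG hge κ ((κ + K) / 2) h0 (by linarith) (by linarith)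
      (h ((κ + K) / 2) (by linarith) (by linarith)).1 (h κ h0 h1).2 k
  tfae_have 4 → 3 := fun h κ h0 h1 => CM_LT K h κ h0 h1
  tfae_have 3 → 5 := by
    intro h
    have h3 : ∀ κ : ℝ, 0 < κ → κ < K → LD (fun ω v => D (env X ω) 0 v) μ κ := by
      refine (hO.out 4 3).1 (fun κ h0 h1 => ?_)
      obtain ⟨q, hq, hh⟩ := h κ h0 h1
      exact ⟨q, hq, (LT_all hP hX μ hc hlim κ q h0 (by linarith) hq hh).1⟩
    intro κ h0 h1
    obtain ⟨q, hq, hh⟩ := h κ h0 h1
    exact ⟨h3 κ h0 h1, (LT_all hP hX μ hc hlim κ q h0 (by linarith) hq hh).2⟩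
  tfae_finish

end

end Pool.Agent.Run7.h472.OH
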