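import Pool.Agent.Run7.h472.OH.Iface2
import Pool.Agent.N662.FP.Cl

/-! Basic facts on the mean passage time (`S_HB`). -/

set_option autoImplicit false
open MeasureTheory ProbabilityTheory Filter Set
open scoped ENNReal Pointwise Topology

namespace Pool.Agent.Run7.h472.OH

open Pool.Agent.N662.FP

theorem t_HB : S_HB := by
  intro Ω _ _ X hX
  have hadd : ∀ v w : ℤ × ℤ, HH X (v + w) ≤ HH X v + HH X w := by
    intro v w
    have h1 := cTI Ω X hX v w
    have h2 : ∫ ω, (D (env X ω) 0 v + D (env X ω) v (v + w)) ∂(volume : Measure Ω) =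
        HH X v + HH X w := by
      rw [integral_add (cINT Ω X hX 0 v) (cINT Ω X hX v (v + w)), h1]
      rfl
    rw [← h2]
    refine integral_mono_ae (cINT Ω X hX 0 (v + w))
      ((cINT Ω X hX 0 v).add (cINT Ω X hX v (v + w))) ?_
    filter_upwards [cAE Ω X hX] with ω h
    exact cTRI (env X ω) h 0 v (v + w)
  have hneg : ∀ v : ℤ × ℤ, HH X (-v) = HH X v := by
    intro v
    have h1 := cTI Ω X hX (-v) v
    rw [neg_add_cancel] at h1
    unfold HH
    rw [← h1]
    refine integral_congr_ae (Eventually.of_forall fun ω => ?_)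
    exact cREV (env X ω) 0 (-v)
  have h0 : ∀ v : ℤ × ℤ, 0 ≤ HH X v := by
    intro v
    refine integral_nonneg_of_ae ?_
    filter_upwards [cAE Ω X hX] with ω h
    exact (cGE (env X ω) h 0 v).2.2.1
  have hz : HH X 0 ≤ 0 := by
    have h1 : HH X 0 = 0 := by
      unfold HH
      have : ∀ᵐ ω ∂(volume : Measure Ω), D (env X ω) 0 0 = 0 := by
        filter_upwards [cAE Ω X hX] with ω h
        obtain ⟨_, hb, h2, _⟩ := cGE (env X ω) h 0 0
        refine le_antisymm ?_ h2
        refine csInf_le hb ⟨0, fun _ => 0, rfl, rfl, ?_, ?_⟩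
        · intro i hi
          omega
        · simp
      rw [integral_congr_ae this]
      simp
    exact h1.le
  have hmul : ∀ (e : ℤ × ℤ) (k : ℕ), HH X (k • e) ≤ k * HH X e := by
    intro e k
    induction k with
    | zero => simpa using hz
    | succ k ih =>
      rw [succ_nsmul]
      have := hadd (k • e) e
      push_cast
      linarith
  have hint : ∀ (e : ℤ × ℤ) (a : ℤ), HH X (a • e) ≤ a.natAbs * HH X e := by
    intro e a
    rcases Int.natAbs_eq a with h | h
    · conv_lhs => rw [h]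
      rw [natCast_zsmul]
      exact hmul e _
    · conv_lhs => rw [h]
      rw [neg_smul, natCast_zsmul, hneg]
      exact hmul e _
  refine ⟨hadd, hneg, h0, HH X (1, 0) + HH X (0, 1) + 1, ?_, ?_⟩
  · linarith [h0 (1, 0), h0 (0, 1)]
  · intro v
    have h1 : v = v.1 • ((1, 0) : ℤ × ℤ) + v.2 • ((0, 1) : ℤ × ℤ) := by
      ext <;> simp
    have h2 : (v.1.natAbs : ℝ) ≤ nm v := by exact_mod_cast le_max_left _ _
    have h3 : (v.2.natAbs : ℝ) ≤ nm v := by exact_mod_cast le_max_right _ _
    have h4 := hadd (v.1 • ((1, 0) : ℤ × ℤ)) (v.2 • ((0, 1) : ℤ × ℤ))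
    rw [← h1] at h4
    have h5 := hint (1, 0) v.1
    have h6 := hint (0, 1) v.2
    have h7 := mul_le_mul_of_nonneg_right h2 (h0 (1, 0))
    have h8 := mul_le_mul_of_nonneg_right h3 (h0 (0, 1))
    have h9 : (0 : ℝ) ≤ nm v := Nat.cast_nonneg _
    calc HH X v ≤ HH X (1, 0) * nm v + HH X (0, 1) * nm v := by linarith
      _ ≤ (HH X (1, 0) + HH X (0, 1) + 1) * nm v := by linarith

end Pool.Agent.Run7.h472.OH
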