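import Pool.Agent.Run7.h472.OH.Defs

/-!
# Planar first-passage percolation, lower tail: statements of the pieces

Page `MP_de94ef_pr`. Every `S_XXX` is a closed proposition with its proof in the doc string.
A piece is proved in a file `Pool/Agent/Run7/<you>/OH/<PIECE>.lean` (theorem `t_XXX`).
-/

set_option autoImplicit false
open MeasureTheory ProbabilityTheory Filter Set
open scoped ENNReal Pointwise Topology

namespace Pool.Agent.Run7.h472.OH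

open Pool.Agent.N662.FP

/-- CST (helper472). Constants exist (`Pool.Agent.N662.FP.cNORM`). -/
def S_CST : Prop := ∀ μ : Seminorm ℝ (ℝ × ℝ), (∀ x, μ x = 0 → x = 0) →
  ∃ (c C : ℝ) (L : ℕ), Cst μ c C L

/-- WBD (helper472). Basic properties of the local deficit. -/
def S_WBD : Prop := ∀ (μ : Seminorm ℝ (ℝ × ℝ)) (c C : ℝ) (L : ℕ), Cst μ c C L → ∀ n : ℕ, 1 ≤ n →
  ∀ (b : ℤ × ℤ) (x : Env),
    BddAbove (Set.range fun q : {q : Sq // Val L n b q} =>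
      (μ (em (q.1.2 (Fin.last _) - q.1.2 0)) - tmS x q.1)) ∧
    0 ≤ W μ L n b x ∧ W μ L n b x ≤ C * (L + 1) * n ∧
    ∀ (m : ℕ) (p : ℕ → ℤ × ℤ), IsP p m → ∀ i j : ℕ, i ≤ j → j ≤ m → blk n (p i) = b →
      (∀ k, i ≤ k → k ≤ j → InR L n b (p k)) →
      μ (em (p j - p i)) - tm x p i j ≤ W μ L n b x

/-- DET (helper472). The coarse path of a lattice path.

Proof by induction on the remaining number of steps. Let the path be at the index `i`, in the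
block `b`.
Good block (`W b ≤ g`): go to the first later index `i'` with `|p i' - p i| ≥ n` (then `= n`); the
piece is inside the box of `b`, so its deficit is at most `g` and its time at least
`c n - g ≥ c n / 2`, which pays for the block. If there is no such index, the path ends here.
Bad block: first jump to the last index `i''` with `p i''` in the block `b`; if the path leaves
the box of `b` between `i` and `i''`, then its time up to the first vertex at distance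
`(L - 1) n` from `p i` is at least `c (L - 1) n - W b ≥ C n - W b ≥ μ (p i'' - p i) - W b`; so in
both cases the deficit of the piece is at most `W b`. Then go from `i''` to the first later index
at distance `n` as before: the deficit of this piece is at most `W b`, and the path never
returns to the block `b`, so bad blocks occur only once. -/
def S_DET : Prop := ∀ (μ : Seminorm ℝ (ℝ × ℝ)) (c C : ℝ) (L : ℕ), Cst μ c C L → ∀ n : ℕ, 1 ≤ n →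
  ∀ g : ℝ, 0 ≤ g → g ≤ c * n / 2 → ∀ (x : Env) (m : ℕ) (p : ℕ → ℤ × ℤ), IsP p m →
  ∃ (k : ℕ) (q : ℕ → ℤ × ℤ), q 0 = blk n (p 0) ∧ (∀ i < k, nm (q (i + 1) - q i) ≤ 1) ∧
    (∀ j ≤ k, (j : ℝ) + 1 ≤ 1 + 2 * tm x p 0 m / (c * n) + (badSet μ L n g x q j).card) ∧
    μ (em (p m - p 0)) - tm x p 0 m ≤
      (1 + 2 * tm x p 0 m / (c * n)) * g + 2 * ∑ b ∈ badSet μ L n g x q k, W μ L n b x

/-- MEAS. The local deficits are measurable functions of the environment: a supremum of countably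
many measurable functions (`Sq` is countable; `Measurable.iSup` or `measurable_of_Ioi` with
`lt_ciSup_iff` and the boundedness in `S_WBD`). -/
def S_MEAS : Prop := ∀ (μ : Seminorm ℝ (ℝ × ℝ)) (c C : ℝ) (L : ℕ), Cst μ c C L → ∀ n : ℕ, 1 ≤ n →
  ∀ b : ℤ × ℤ, Measurable fun x : Env => W μ L n b x

/-- IND. Independence and stationarity of the local deficits.

`W μ L n b x` depends only on the weights `x e` of the edges `e = s(y, z)` with `y, z` in the box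
`InR L n b` (finitely many); if `nm (b - b') ≥ 2 L + 1` these sets of edges are disjoint. Hence
`iIndepFun.finsets` / `iIndepFun.finsets_comp` gives the independence of the functions
`ω ↦ W μ L n b (env X ω)`, `b ∈ A`, and the integral of the product is the product of the
integrals. Stationarity: `W μ L n b x = W μ L n 0 (x ∘ τ)` where `τ` is the translation of the
edges by `n b`, and `X ∘ τ` is again iid with the same law
(`iIndepFun_iff_map_fun_eq_infinitePi_map`; compare `Pool.Agent.N195.FM.t_TIL`). -/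
def S_IND : Prop := ∀ (Ω : Type) [MeasureSpace Ω] [IsProbabilityMeasure (volume : Measure Ω)]
  (X : Sym2 (ℤ × ℤ) → Ω → ℝ), Iid X →
  ∀ (μ : Seminorm ℝ (ℝ × ℝ)) (c C : ℝ) (L : ℕ), Cst μ c C L → ∀ n : ℕ, 1 ≤ n →
  ∀ f : ℝ → ℝ≥0∞, Measurable f → ∀ A : Finset (ℤ × ℤ),
  (∀ b ∈ A, ∀ b' ∈ A, b ≠ b' → 2 * L + 1 ≤ nm (b - b')) →
  ∫⁻ ω, ∏ b ∈ A, f (W μ L n b (env X ω)) ∂(volume : Measure Ω) =
    (∫⁻ ω, f (W μ L n 0 (env X ω)) ∂(volume : Measure Ω)) ^ A.card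

/-- TR. Joint translation invariance of the passage times (compare `S_TIL` and
`Pool.Agent.N195.FM.t_TIL`; `X` shifted by `a` is again iid with the same law; `S_ME`, `S_AE`). -/
def S_TR : Prop := ∀ (Ω : Type) [MeasureSpace Ω] [IsProbabilityMeasure (volume : Measure Ω)]
  (X : Sym2 (ℤ × ℤ) → Ω → ℝ), Iid X → ∀ (a : ℤ × ℤ) (Z : Finset (ℤ × ℤ)) (h : ℤ × ℤ → ℝ),
  (volume : Measure Ω).real {ω | ∃ z ∈ Z, D (env X ω) a (a + z) < h z} =
    (volume : Measure Ω).real {ω | ∃ z ∈ Z, D (env X ω) 0 z < h z}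

/-- CG. The coarse-graining bound: exponential moments of the deficits of the bad blocks.

Let `M = 2 L + 1`, `K = 1 + 2 H / (c n)`, `β = M² log 36`. On the event `Low` take the coarse path
`q 0, ..., q k` of `S_DET` (`tm ≤ H`, as `u ≥ 0`). With `S` the bad blocks among `q 0, ..., q k`:
`#S ≥ k + 1 - K` and `u ≤ K g + 2 ∑_S W ≤ u/2 + 2 ∑_S W`, so `∑_S W ≥ u/4` and
`∑_S (lam W + β) ≥ lam u/4 + β (k + 1 - K) =: Y_k`. Union over `k`, over the `#St * 9^k` sequences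
of blocks, and over the `M²` residue classes `r` modulo `M` (some class has
`∑_(S ∩ r) (lam W + β) ≥ Y_k / M²`; the distinct blocks of one class have distance at least
`M = 2 L + 1`). For one sequence with set of blocks `F` (`#F ≤ k + 1`) and one class: by Markov and
`S_IND` with `f w = exp (lam w + β)` if `g < w`, else `1`, the probability is at most
`exp (-Y_k / M²) * 2 ^ (k+1)`, because `∫⁻ f(W) ≤ 1 + exp β * EM ≤ 2`. As
`exp (-Y_k / M²) = exp (- lam u / (4 M²)) * 36 ^ K * 36 ^ (-(k+1))`, and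
`∑_k 9^k 2^(k+1) 36^(-(k+1)) ≤ 1`, the bound follows. -/
def S_CG : Prop := ∀ (Ω : Type) [MeasureSpace Ω] [IsProbabilityMeasure (volume : Measure Ω)]
  (X : Sym2 (ℤ × ℤ) → Ω → ℝ), Iid X →
  ∀ (μ : Seminorm ℝ (ℝ × ℝ)) (c C : ℝ) (L : ℕ), Cst μ c C L → ∀ n : ℕ, 1 ≤ n →
  ∀ g lam u H : ℝ, 0 ≤ g → g ≤ c * n / 2 → 0 ≤ lam → 0 ≤ u → 0 ≤ H →
  (1 + 2 * H / (c * n)) * g ≤ u / 2 →
  EM X μ L n g lam ≤ ENNReal.ofReal ((36 : ℝ) ^ (-((2 * (L : ℝ) + 1) ^ 2))) →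
  ∀ St : Finset (ℤ × ℤ),
  (volume : Measure Ω).real {ω | Low μ n St H u (env X ω)} ≤
    St.card * (2 * (L : ℝ) + 1) ^ 2 * (36 : ℝ) ^ (1 + 2 * H / (c * n)) *
      Real.exp (-(lam * u / (4 * (2 * (L : ℝ) + 1) ^ 2)))

/-- FEW. The recursion when there are few bad blocks.

Let `K = 1 + 2 C (L+1) N / (c n)`, `M = 2 L + 1`, and let `R` be the set of the blocks `b` (of
size `n`) with `nm b ≤ ρ`. Suppose that fewer than `j` blocks of `R` are bad (`W μ L n b > g`) and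
`W μ L n b ≤ u / (4 j)` for all `b ∈ R`. Then `W μ L N 0 ≤ u`: take a valid sequence for the block
`0` of size `N`, as a path `p` with `m` steps; if its deficit is positive then
`tm x p 0 m ≤ μ (p m - p 0) ≤ C (L+1) N`. Coarse path `q` of `S_DET`: `nm (q 0) ≤ N / n`. If
`k + 1 > K + j` choose `k' ≤ k` with `K + j ≤ k' + 1 ≤ K + j + 1`; then the bad set of
`q 0..q k'` has at least `k' + 1 - K ≥ j` elements, all in `R` as
`nm (q i) ≤ N / n + i ≤ N/n + K + j ≤ ρ`, contradiction. So `k + 1 ≤ K + j`, all `q i` are in `R`,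
and the deficit is at most `K g + 2 j (u / (4 j)) ≤ u`.
The probability that at least `j` blocks of `R` are bad: some residue class modulo `M` contains
at least `j / M²` bad blocks; by Markov and `S_IND` with `f w = s` if `g < w`, else `1`, where
`s = 1 / ((2ρ+1)² p) ≥ 1`, this has probability at most
`s ^ (-j/M²) (1 + (s-1) p) ^ #R ≤ s ^ (-j/M²) * exp 1`. Sum over the `M²` classes. For the second
event: union over `R` and `S_IND` with `A = {b}` (stationarity). -/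
def S_FEW : Prop := ∀ (Ω : Type) [MeasureSpace Ω] [IsProbabilityMeasure (volume : Measure Ω)]
  (X : Sym2 (ℤ × ℤ) → Ω → ℝ), Iid X →
  ∀ (μ : Seminorm ℝ (ℝ × ℝ)) (c C : ℝ) (L : ℕ), Cst μ c C L →
  ∀ (n N : ℕ), 1 ≤ n → 1 ≤ N → ∀ (g u p : ℝ) (j ρ : ℕ), 1 ≤ j → 0 ≤ g → g ≤ c * n / 2 → 0 < u →
  0 < p → G X μ L n g ≤ p → (2 * (ρ : ℝ) + 1) ^ 2 * p ≤ 1 →
  (1 + 2 * (C * (L + 1) * N) / (c * n)) * g ≤ u / 2 →
  (N : ℝ) / n + (1 + 2 * (C * (L + 1) * N) / (c * n)) + j + 1 ≤ ρ →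
  G X μ L N u ≤
    3 * (2 * (L : ℝ) + 1) ^ 2 *
      ((2 * (ρ : ℝ) + 1) ^ 2 * p) ^ ((j : ℝ) / (2 * (L : ℝ) + 1) ^ 2) +
    (2 * (ρ : ℝ) + 1) ^ 2 * G X μ L n (u / (4 * j))

/-- STEP (from `S_CG`). One scale with good exponential moments controls all larger scales.

`B3 = 1 + 2 C (L+1) / c`. (A) If `δ m < W μ L m 0` then some valid sequence has a deficit `> δ m`,
so `Low μ n St H u` holds with `St` = the blocks of size `n` which meet `[0,m)²` (at most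
`(m/n+1)² ≤ 4 m²`), `H = C (L+1) m`, `u = δ m`; `K = 1 + 2H/(cn) ≤ B3 m/n`,
`g = δ n / B`, `lam = B / (δ n)`: `K g ≤ u/2` if `B ≥ 2 B3`; the bound of `S_CG` is
`4 m² M² exp ((m/n) (B3 log 36 - B/(4M²)))`. (B) If `D 0 v ≤ (1-δ) μ v`, then some path has time
`≤ μ v - δ μ v / 2` (infimum, `S_GE`, and the weights are a.s. nonnegative, `S_AE`), so
`Low μ n {0} (μ v) (δ μ v / 2)` holds. Monotonicity: `EM` increases if `g` decreases and if `lam`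
increases, so a larger `B` gives a stronger hypothesis. -/
def S_STEP : Prop := ∀ (Ω : Type) [MeasureSpace Ω] [IsProbabilityMeasure (volume : Measure Ω)]
  (X : Sym2 (ℤ × ℤ) → Ω → ℝ), Iid X →
  ∀ (μ : Seminorm ℝ (ℝ × ℝ)) (c C : ℝ) (L : ℕ), Cst μ c C L →
  ∃ B0 : ℝ, 1 ≤ B0 ∧ ∀ B : ℝ, B0 ≤ B → ∀ δ : ℝ, 0 < δ → δ ≤ 1 → ∀ n : ℕ, 1 ≤ n →
    EM X μ L n (δ * n / B) (B / (δ * n)) ≤ ENNReal.ofReal (1 / B) →
    (∀ m : ℕ, n ≤ m → G X μ L m (δ * m) ≤ B * m ^ 2 * Real.exp (-((m : ℝ) / n))) ∧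
    ∀ v : ℤ × ℤ, (n : ℝ) ≤ μ (em v) →
      (volume : Measure Ω).real {ω | D (env X ω) 0 v ≤ (1 - δ) * μ (em v)} ≤
        B * Real.exp (-(μ (em v) / n))

/-- the right hand side of `S_EMB`, for a function `F` in the place of the tail `G X μ L` -/
noncomputable def Sm (F : ℕ → ℝ → ℝ) (n : ℕ) (g lam y : ℝ) (I : ℕ) : ℝ :=
  Real.exp (lam * y) * F n g +
    ∑ i ∈ Finset.range I, Real.exp (lam * (2 ^ (i + 1) * y)) * F n (2 ^ i * y)

/-- EMB. The exponential moment by the tail: split `{W > g}` into `{g < W ≤ y}` and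
`{2^i y < W ≤ 2^(i+1) y}`, `i < I`, as `W ≤ C (L+1) n ≤ 2^I y`. -/
def S_EMB : Prop := ∀ (Ω : Type) [MeasureSpace Ω] [IsProbabilityMeasure (volume : Measure Ω)]
  (X : Sym2 (ℤ × ℤ) → Ω → ℝ), Iid X →
  ∀ (μ : Seminorm ℝ (ℝ × ℝ)) (c C : ℝ) (L : ℕ), Cst μ c C L → ∀ n : ℕ, 1 ≤ n →
  ∀ (g lam y : ℝ) (I : ℕ), 0 ≤ lam → 0 < y → g ≤ y → C * (L + 1) * n ≤ 2 ^ I * y →
  EM X μ L n g lam ≤ ENNReal.ofReal (Sm (G X μ L) n g lam y I)

/-- OTG. From the outer events to the local deficits.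

Let `κ1 < κ`, `g1 = n ^ (1 - κ1)`. If `g1 < W μ L n 0`, there are `a` in the block `0` (`n²`
possibilities), and `z` with `nm z ≤ (L+1) n` and `D x a (a+z) < μ z - g1` (the path; weights
a.s. nonnegative). By `S_TR` the probability is at most `n²` times the probability that
`T z := D x 0 z < μ z - g1` for some `z` with `nm z ≤ (L+1) n`. Then for some natural `t` with
`g1/4 ≤ t ≤ C (L+1) n + 1` the event `Out T μ κ t` holds: if `T z ≥ g1/4` take `t = ⌈T z⌉`, and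
`μ z > T z + g1 ≥ t - 1 + g1 > t + t^(1-κ)` for large `n`; if `T z < g1/4` take `t = ⌈g1/4⌉`, and
`μ z > g1 ≥ 2 t ≥ t + t^(1-κ)`. (If `T z ≤ t`, then `em z ∈ Fat (T) t`.) Hence
`G n g1 ≤ n² (C(L+1)n + 2) A (g1/4)^(-q)` which is `≤ n^(-q1)` with
`q1 = ((1-κ1) q - 3)/2 > 0`. -/
def S_OTG : Prop := ∀ (Ω : Type) [MeasureSpace Ω] [IsProbabilityMeasure (volume : Measure Ω)]
  (X : Sym2 (ℤ × ℤ) → Ω → ℝ), Iid X →
  ∀ (μ : Seminorm ℝ (ℝ × ℝ)) (c C : ℝ) (L : ℕ), Cst μ c C L →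
  ∀ κ κ1 q : ℝ, 0 < κ1 → κ1 < κ → κ < 1 → 3 / (1 - κ) < q →
  Asymptotics.IsBigO atTop (fun t : ℝ => (volume : Measure Ω).real
    (Out (fun ω v => D (env X ω) 0 v) μ κ t)) (fun t : ℝ => t ^ (-q)) →
  ∃ q1 : ℝ, 0 < q1 ∧ ∀ᶠ n : ℕ in atTop, G X μ L n ((n : ℝ) ^ (1 - κ1)) ≤ (n : ℝ) ^ (-q1)

/-- ITG (pure analysis). Self-improvement: polynomial decay becomes stretched exponential decay.

`P(a)`: there is `e > 0` with `F n (n^a) ≤ exp (-n^e)` for all large `n`. `P(a)` holds for `a > 1`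
(`F = 0`). Choose `b ∈ (0,1)` small: `(1-b) q > 2 b + η`, `1 - (1-b) κ < 1 - κ'`. Put
`a* = 1 - κ'`. Claim: `P(a') → P(max a* ((1 - b/2) a'))` for `a' ≥ a*`. Let `N` be large,
`n = ⌈N^(1-b)⌉`, `a = max a* ((1-b/2) a')`, `u = N^a`, `g = n^(1-κ)`, `j = ⌈N^ε⌉`,
`ρ ≈ 2 B N^b`, `p = n^(-q)`: `(2ρ+1)² p ≤ N^(-η')`, `B (N/n) g ≤ u` since
`b + (1-b)(1-κ) = 1 - (1-b) κ < a* ≤ a`, and `u / (4j) ≥ n^(a')` since `a - ε > (1-b) a'` (note
`(1-b/2) a' > (1-b) a'` and `a* > 0`). So `F N u ≤ B N^(-η' j/M²) + (2ρ+1)² exp (-n^e)`. After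
finitely many steps `a = a*`. -/
def S_ITG : Prop := ∀ (F : ℕ → ℝ → ℝ), (∀ n u, 0 ≤ F n u) → (∀ n, Antitone (F n)) →
  ∀ (B : ℝ) (M : ℕ), 1 ≤ B → 1 ≤ M → (∀ (n : ℕ) (u : ℝ), 1 ≤ n → B * n ≤ u → F n u = 0) →
  (∀ n N : ℕ, 1 ≤ n → n ≤ N → ∀ (g u p : ℝ) (j ρ : ℕ), 1 ≤ j → 0 ≤ g → g ≤ n / B → 0 < u → 0 < p →
    F n g ≤ p → (2 * (ρ : ℝ) + 1) ^ 2 * p ≤ 1 → B * (N / n) * g ≤ u → B * (N / n) + j ≤ ρ →
    F N u ≤ B * ((2 * (ρ : ℝ) + 1) ^ 2 * p) ^ ((j : ℝ) / M) +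
      (2 * (ρ : ℝ) + 1) ^ 2 * F n (u / (4 * j))) →
  ∀ κ κ' q : ℝ, 0 < κ' → κ' < κ → κ < 1 → 0 < q →
  (∀ᶠ n : ℕ in atTop, F n ((n : ℝ) ^ (1 - κ)) ≤ (n : ℝ) ^ (-q)) →
  ∃ e : ℝ, 0 < e ∧ ∀ᶠ n : ℕ in atTop, F n ((n : ℝ) ^ (1 - κ')) ≤ Real.exp (-((n : ℝ) ^ e))

/-- ITT (pure analysis). From stretched exponential moderate deviations to large deviations.

Write `g = δ n / B`, `lam = B / (δ n)`. Claim(θ): there is `A` with
`F m (δ m) ≤ A m² exp (-m δ^θ / A)` for all `m ≥ 1`, `δ ∈ (0,1]`. The conclusion with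
`n ≤ A δ^(-θ)` in the place of `n ≤ A δ^(-1/κ')` is called Cond(θ); Cond(θ) implies Claim(θ) (for
`m < n` the bound is trivial, `F ≤ 1`).
(0) Cond(θ0) holds for `θ0 = 1 / min e κ` (roughly): take `y = B n`, `I = 0`,
`n = ⌈(A/δ)^θ0⌉` with `A` large: `g ≥ n^(1-κ)` and `exp (lam B n) F n g ≤ exp (B²/δ - n^e)`.
(1) Claim(θ) with `θ ≥ 1/κ'` implies Cond(θ1), `θ1 = max (1/κ') (θ / (1 + η))`, with `η > 0` fixed
and small: `n = ⌈(A/δ)^θ1⌉`, `y = n^(e/2) δ n`, `I` minimal with `B n ≤ 2^I y`. First term: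
`exp (B n^(e/2) - n^e)`, as `g ≥ n^(1-κ)` (`θ1 ≥ 1/κ' > 1/κ`). In the sum,
`F n (2^i y) ≤ A' n² exp (-n (2^i n^(e/2) δ)^θ / A') ≤ A' n² exp (-2^i n (n^(e/2) δ)^θ / A')`
(if `2^i n^(e/2) δ ≤ 1`, else `F = 0` or use the bound at `δ = 1` and antitone: terms with
`2^i y > B n` do not occur) against `exp (2^(i+1) B n^(e/2))`; fine if
`n^(1 + (θ-1) e/2) δ^θ` is larger than a power `n^η''`, which holds if
`θ1 (1 + (θ-1) e/2) > θ`, and `(θ-1) e/2 ≥ (1/κ' - 1) e/2 =: 2 η`.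
(2) After finitely many steps `θ = 1/κ'`. -/
def S_ITT : Prop := ∀ (F : ℕ → ℝ → ℝ), (∀ n u, 0 ≤ F n u) → (∀ n u, F n u ≤ 1) →
  (∀ n, Antitone (F n)) → ∀ B : ℝ, 1 ≤ B →
  (∀ (n : ℕ) (u : ℝ), 1 ≤ n → B * n ≤ u → F n u = 0) →
  (∀ δ : ℝ, 0 < δ → δ ≤ 1 → ∀ n : ℕ, 1 ≤ n → ∀ (y : ℝ) (I : ℕ), 0 < y → δ * n / B ≤ y →
    B * n ≤ 2 ^ I * y → Sm F n (δ * n / B) (B / (δ * n)) y I ≤ 1 / B →
    ∀ m : ℕ, n ≤ m → F m (δ * m) ≤ B * m ^ 2 * Real.exp (-((m : ℝ) / n))) →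
  ∀ κ κ' e : ℝ, 0 < κ' → κ' < κ → κ < 1 → 0 < e →
  (∀ᶠ n : ℕ in atTop, F n ((n : ℝ) ^ (1 - κ)) ≤ Real.exp (-((n : ℝ) ^ e))) →
  ∃ A : ℝ, 1 ≤ A ∧ ∀ δ : ℝ, 0 < δ → δ ≤ 1 → ∃ n : ℕ, 1 ≤ n ∧ (n : ℝ) ≤ A * δ ^ (-(1 / κ')) ∧
    ∃ (y : ℝ) (I : ℕ), 0 < y ∧ δ * n / B ≤ y ∧ B * n ≤ 2 ^ I * y ∧
      Sm F n (δ * n / B) (B / (δ * n)) y I ≤ 1 / B

/-- OUT. From large deviations at one point to the outer events.

`Out` implies `T v ≤ t` for some `v` with `μ v > t + t^(1-κ') - C/2 ≥ t + t^(1-κ')/2` (large `t`;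
`x` in the fattened cluster with `μ x > (1 + t^(-κ')) t`, `v` the vertex, `|x - v| ≤ 1/2`, bound
`μ (x - v) ≤ C'` by a constant). With `δ = 1 - t / μ v`: if `μ v ≤ 2 t` then `δ ≥ t^(-κ')/4`; if
`μ v ≥ 2t`, `δ ≥ 1/2`. So `δ^(1/κ) μ v ≥ c1 (μ v)^(1 - κ'/κ)` in both cases. Sum
`A exp (-c2 (μ v)^a)`, `a = 1 - κ'/κ > 0`, over all lattice points with `μ v ≥ t`. -/
def S_OUT : Prop := ∀ (Ω : Type) [MeasureSpace Ω] [IsProbabilityMeasure (volume : Measure Ω)]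
  (T : Ω → ℤ × ℤ → ℝ) (μ : Seminorm ℝ (ℝ × ℝ)) (c C : ℝ) (L : ℕ), Cst μ c C L →
  ∀ κ κ' A : ℝ, 0 < κ' → κ' < κ → κ < 1 → 0 < A →
  (∀ (v : ℤ × ℤ) (δ : ℝ), 0 < δ → δ ≤ 1 →
    (volume : Measure Ω).real {ω | T ω v ≤ (1 - δ) * μ (em v)} ≤
      A * Real.exp (-(δ ^ (1 / κ) * μ (em v) / A))) →
  ∃ e : ℝ, 0 < e ∧ ∀ᶠ t : ℝ in atTop,
    (volume : Measure Ω).real (Out T μ κ' t) ≤ Real.exp (-(t ^ e))

end Pool.Agent.Run7.h472.OH
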