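import Pool.Agent.Run7.h472.OH.WBD

/-! The coarse path of a lattice path (`S_DET`). -/

set_option autoImplicit false
open MeasureTheory ProbabilityTheory Filter Set
open scoped ENNReal Pointwise Topology

namespace Pool.Agent.Run7.h472.OH

open Pool.Agent.N662.FP

/-- first exit from a box -/
theorem first_exit {m : ℕ} {p : ℕ → ℤ × ℤ} (hp : IsP p m) {i k r : ℕ} (hik : i ≤ k) (hkm : k ≤ m)
    (hr : 1 ≤ r) (h : r ≤ nm (p k - p i)) :
    ∃ k0, i < k0 ∧ k0 ≤ k ∧ r ≤ nm (p k0 - p i) ∧ ∀ s, i ≤ s → s ≤ k0 → nm (p s - p i) ≤ r := by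
  classical
  have hex : ∃ s, i ≤ s ∧ r ≤ nm (p s - p i) := ⟨k, hik, h⟩
  set k0 := Nat.find hex with hk0
  obtain ⟨h1, h2⟩ := Nat.find_spec hex
  have h3 : ∀ s, i ≤ s → s < k0 → nm (p s - p i) < r := by
    intro s hs1 hs2
    have := Nat.find_min hex hs2
    by_contra hc
    exact this ⟨hs1, not_lt.1 hc⟩
  have h4 : k0 ≤ k := Nat.find_min' hex ⟨hik, h⟩
  have h5 : i < k0 := by
    rcases Nat.lt_or_ge i k0 with h | h
    · exact h
    · exfalso
      have h6 : k0 = i := le_antisymm h h1
      rw [← hk0] at h2
      rw [h6, sub_self, nm_zero] at h2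
      omega
  refine ⟨k0, h5, h4, h2, ?_⟩
  intro s hs1 hs2
  rcases Nat.lt_or_ge s k0 with h | h
  · exact (h3 s hs1 h).le
  · have h6 : s = k0 := le_antisymm hs2 h
    subst h6
    obtain ⟨s', hs'⟩ : ∃ s', k0 = s' + 1 := ⟨k0 - 1, by omega⟩
    rw [hs']
    have h7 := nm_tri (p (s' + 1)) (p s') (p i)
    have h8 := nm_step (hp s' (by omega))
    have h9 := h3 s' (by omega) (by omega)
    omega

/-- points near a point of the block are in the box -/
theorem inR_of_near {L n : ℕ} (hn : 1 ≤ n) {b z w : ℤ × ℤ} (hz : blk n z = b) {r : ℕ}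
    (hr : r + n ≤ L * n) (h : nm (w - z) ≤ r) : InR L n b w := by
  obtain ⟨h1, h2⟩ := nm_blk hn hz
  have h3 := abs_le_nm1 (w - z)
  have h4 := abs_le_nm2 (w - z)
  have h5 : (nm (w - z) : ℤ) ≤ r := by exact_mod_cast h
  have h6 : (r : ℤ) + n ≤ L * n := by exact_mod_cast hr
  constructor
  · have : w.1 - (n : ℤ) * b.1 = (w - z).1 + (z.1 - (n : ℤ) * b.1) := by
      show _ = (w.1 - z.1) + _
      ring
    rw [this]
    exact (abs_add_le _ _).trans (by linarith)
  · have : w.2 - (n : ℤ) * b.2 = (w - z).2 + (z.2 - (n : ℤ) * b.2) := by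
      show _ = (w.2 - z.2) + _
      ring
    rw [this]
    exact (abs_add_le _ _).trans (by linarith)

theorem ediv_near {n : ℤ} (hn : 0 < n) {a b : ℤ} (h : |b - a| ≤ n) : |b / n - a / n| ≤ 1 := by
  rw [abs_le] at h ⊢
  have h1 : a / n - 1 ≤ b / n := by
    have : (a + (-1) * n) / n = a / n + (-1) := Int.add_mul_ediv_right _ _ hn.ne'
    have h2 : (a + (-1) * n) / n ≤ b / n := Int.ediv_le_ediv hn (by linarith)
    linarith
  have h3 : b / n ≤ a / n + 1 := by
    have : (a + 1 * n) / n = a / n + 1 := Int.add_mul_ediv_right _ _ hn.ne'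
    have h2 : b / n ≤ (a + 1 * n) / n := Int.ediv_le_ediv hn (by linarith)
    linarith
  constructor <;> linarith

theorem blk_near {n : ℕ} (hn : 1 ≤ n) {z w : ℤ × ℤ} (h : nm (w - z) ≤ n) :
    nm (blk n w - blk n z) ≤ 1 := by
  have hn' : (0 : ℤ) < n := by exact_mod_cast hn
  have h3 := abs_le_nm1 (w - z)
  have h4 := abs_le_nm2 (w - z)
  have h5 : (nm (w - z) : ℤ) ≤ n := by exact_mod_cast h
  refine nm_le ?_ ?_
  · have := ediv_near hn' (a := z.1) (b := w.1) (h3.trans h5)
    simpa [blk] using this
  · have := ediv_near hn' (a := z.2) (b := w.2) (h4.trans h5)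
    simpa [blk] using this

/-- put a block in front of a sequence -/
def cons (b : ℤ × ℤ) (q : ℕ → ℤ × ℤ) : ℕ → ℤ × ℤ
  | 0 => b
  | t + 1 => q t

theorem image_cons (b : ℤ × ℤ) (q : ℕ → ℤ × ℤ) (k : ℕ) :
    (Finset.range (k + 2)).image (cons b q) = insert b ((Finset.range (k + 1)).image q) := by
  ext z
  simp only [Finset.mem_image, Finset.mem_range, Finset.mem_insert]
  constructor
  · rintro ⟨t, ht, rfl⟩
    cases t with
    | zero => exact Or.inl rfl
    | succ t => exact Or.inr ⟨t, by omega, rfl⟩
  · rintro (h | ⟨t, ht, rfl⟩)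
    · exact ⟨0, by omega, h.symm⟩
    · exact ⟨t + 1, by omega, rfl⟩

section
variable (μ : Seminorm ℝ (ℝ × ℝ)) (L n : ℕ) (g : ℝ) (x : Env)

theorem badSet_cons_bad (b : ℤ × ℤ) (q : ℕ → ℤ × ℤ) (k : ℕ) (h : g < W μ L n b x) :
    badSet μ L n g x (cons b q) (k + 1) = insert b (badSet μ L n g x q k) := by
  classical
  unfold badSet
  simp only [image_cons, Finset.filter_insert, h, if_true]

theorem badSet_cons_good (b : ℤ × ℤ) (q : ℕ → ℤ × ℤ) (k : ℕ) (h : ¬ g < W μ L n b x) :
    badSet μ L n g x (cons b q) (k + 1) = badSet μ L n g x q k := by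
  classical
  unfold badSet
  simp only [image_cons, Finset.filter_insert, h, if_false]

theorem badSet_zero_bad (q : ℕ → ℤ × ℤ) (h : g < W μ L n (q 0) x) :
    badSet μ L n g x q 0 = {q 0} := by
  classical
  unfold badSet
  simp [Finset.filter_singleton, h]

theorem badSet_zero_good (q : ℕ → ℤ × ℤ) (h : ¬ g < W μ L n (q 0) x) :
    badSet μ L n g x q 0 = ∅ := by
  classical
  unfold badSet
  simp [Finset.filter_singleton, h]

theorem mem_badSet {q : ℕ → ℤ × ℤ} {k : ℕ} {b : ℤ × ℤ} (h : b ∈ badSet μ L n g x q k) :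
    (∃ t ≤ k, q t = b) ∧ g < W μ L n b x := by
  classical
  unfold badSet at h
  simp only [Finset.mem_filter, Finset.mem_image, Finset.mem_range] at h
  obtain ⟨⟨t, ht, rfl⟩, h2⟩ := h
  exact ⟨⟨t, by omega, rfl⟩, h2⟩

end

theorem em_sub_tri (μ : Seminorm ℝ (ℝ × ℝ)) (a b c : ℤ × ℤ) :
    μ (Pool.Agent.N662.FP.em (c - a)) ≤
      μ (Pool.Agent.N662.FP.em (b - a)) + μ (Pool.Agent.N662.FP.em (c - b)) := by
  have h : Pool.Agent.N662.FP.em (c - a) =
      Pool.Agent.N662.FP.em (b - a) + Pool.Agent.N662.FP.em (c - b) := by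
    unfold Pool.Agent.N662.FP.em
    ext <;> simp
  rw [h]
  exact map_add_le_add μ _ _

theorem t_DET : S_DET := by
  intro μ c C L hc n hn g hg hgc x m p hp
  have hcp := hc.c_pos
  have hCp := hc.C_pos
  have hL2 := hc.two_le
  have hn0 : (0 : ℝ) < n := by exact_mod_cast hn
  have hcn : 0 < c * n := by positivity
  have hWB := fun b => t_WBD μ c C L hc n hn b x
  set w : ℤ × ℤ → ℝ := fun b => W μ L n b x with hw
  have hw0 : ∀ b, 0 ≤ w b := fun b => (hWB b).2.1
  -- the crossing piece
  have cross : ∀ (b : ℤ × ℤ) (i k : ℕ), i ≤ k → k ≤ m → blk n (p i) = b → n ≤ nm (p k - p i) →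
      ∃ i', i < i' ∧ i' ≤ m ∧ nm (p i' - p i) ≤ n ∧ n ≤ nm (p i' - p i) ∧
        μ (Pool.Agent.N662.FP.em (p i' - p i)) - tm x p i i' ≤ w b := by
    intro b i k hik hkm hb hnk
    obtain ⟨k0, h1, h2, h3, h4⟩ := first_exit hp hik hkm hn hnk
    refine ⟨k0, h1, h2.trans hkm, h4 k0 h1.le le_rfl, h3, ?_⟩
    refine (hWB b).2.2.2 m p hp i k0 h1.le (h2.trans hkm) hb ?_
    intro s hs1 hs2
    refine inR_of_near hn hb (r := n) ?_ (h4 s hs1 hs2)
    nlinarith
  -- the final piece
  have final : ∀ (b : ℤ × ℤ) (i : ℕ), i ≤ m → blk n (p i) = b →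
      (¬ ∃ k, i ≤ k ∧ k ≤ m ∧ n ≤ nm (p k - p i)) →
      μ (Pool.Agent.N662.FP.em (p m - p i)) - tm x p i m ≤ w b := by
    intro b i him hb hno
    refine (hWB b).2.2.2 m p hp i m him le_rfl hb ?_
    intro s hs1 hs2
    refine inR_of_near hn hb (r := n) (by nlinarith) ?_
    by_contra hcon
    exact hno ⟨s, hs1, hs2, (not_le.1 hcon).le⟩
  -- the jump inside a block
  have jump : ∀ (b : ℤ × ℤ) (i j : ℕ), i ≤ j → j ≤ m → blk n (p i) = b → blk n (p j) = b →
      μ (Pool.Agent.N662.FP.em (p j - p i)) - tm x p i j ≤ w b := by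
    intro b i j hij hjm hbi hbj
    by_cases hR : ∀ s, i ≤ s → s ≤ j → nm (p s - p i) ≤ (L - 1) * n
    · refine (hWB b).2.2.2 m p hp i j hij hjm hbi ?_
      intro s hs1 hs2
      refine inR_of_near hn hbi (r := (L - 1) * n) ?_ (hR s hs1 hs2)
      obtain ⟨L', rfl⟩ : ∃ L', L = L' + 1 := ⟨L - 1, by omega⟩
      simp only [Nat.add_sub_cancel]
      nlinarith
    · push Not at hR
      obtain ⟨s, hs1, hs2, hs3⟩ := hR
      have hr1 : 1 ≤ (L - 1) * n := Nat.mul_pos (by omega) (by omega)
      obtain ⟨k0, h1, h2, h3, h4⟩ := first_exit hp hs1 (hs2.trans hjm) hr1 hs3.le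
      have h5 : μ (Pool.Agent.N662.FP.em (p k0 - p i)) - tm x p i k0 ≤ w b := by
        refine (hWB b).2.2.2 m p hp i k0 h1.le ((h2.trans hs2).trans hjm) hbi ?_
        intro s' hs1' hs2'
        refine inR_of_near hn hbi (r := (L - 1) * n) ?_ (h4 s' hs1' hs2')
        obtain ⟨L', rfl⟩ : ∃ L', L = L' + 1 := ⟨L - 1, by omega⟩
        simp only [Nat.add_sub_cancel]
        nlinarith
      have h6 : tm x p i k0 ≤ tm x p i j := by
        rw [← tm_add x p h1.le (h2.trans hs2)]
        linarith [tm_nonneg x p k0 j]
      have h7 := hc.lo (p k0 - p i)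
      have h8 : c * (((L : ℝ) - 1) * n) ≤ c * nm (p k0 - p i) := by
        refine mul_le_mul_of_nonneg_left ?_ hcp.le
        have h9 : (((L - 1) * n : ℕ) : ℝ) ≤ (nm (p k0 - p i) : ℝ) := by exact_mod_cast h3
        rw [Nat.cast_mul, Nat.cast_sub (by omega), Nat.cast_one] at h9
        exact h9
      have h10 := hc.hi (p j - p i)
      have h11 : (nm (p j - p i) : ℝ) ≤ n := by
        have ha := blk_iff hn hbi
        have hb' := blk_iff hn hbj
        have : nm (p j - p i) ≤ n := by
          refine nm_le ?_ ?_
          · show |(p j).1 - (p i).1| ≤ _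
            rw [abs_le]
            constructor <;> linarith [ha.1, ha.2.1, hb'.1, hb'.2.1]
          · show |(p j).2 - (p i).2| ≤ _
            rw [abs_le]
            constructor <;> linarith [ha.2.2.1, ha.2.2.2, hb'.2.2.1, hb'.2.2.2]
        exact_mod_cast this
      have h12 : C * (nm (p j - p i) : ℝ) ≤ C * n := mul_le_mul_of_nonneg_left h11 hCp.le
      have h13 : C * n ≤ c * ((L : ℝ) - 1) * n := mul_le_mul_of_nonneg_right hc.L_large hn0.le
      have h14 : c * ((L : ℝ) - 1) * n = c * (((L : ℝ) - 1) * n) := by ring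
      linarith
  -- induction
  have main : ∀ d i : ℕ, i ≤ m → m - i ≤ d → ∃ (k : ℕ) (q : ℕ → ℤ × ℤ), q 0 = blk n (p i) ∧
      (∀ t < k, nm (q (t + 1) - q t) ≤ 1) ∧ (∀ t ≤ k, ∃ s, i ≤ s ∧ s ≤ m ∧ blk n (p s) = q t) ∧
      (∀ j ≤ k, (j : ℝ) + 1 ≤ 1 + 2 * tm x p i m / (c * n) + (badSet μ L n g x q j).card) ∧
      μ (Pool.Agent.N662.FP.em (p m - p i)) - tm x p i m ≤
        (1 + 2 * tm x p i m / (c * n)) * g + 2 * ∑ b ∈ badSet μ L n g x q k, w b := by
    intro d
    induction d with
    | zero =>
      intro i him hd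
      have hi : i = m := by omega
      subst hi
      have ht : tm x p i i = 0 := by simp [tm]
      refine ⟨0, fun _ => blk n (p i), rfl, by omega, fun t _ => ⟨i, le_rfl, le_rfl, rfl⟩, ?_, ?_⟩
      · intro j hj
        have : j = 0 := by omega
        subst this
        rw [ht]
        have : (0 : ℝ) ≤ ((badSet μ L n g x (fun _ => blk n (p i)) 0).card : ℝ) :=
          Nat.cast_nonneg _
        simp only [Nat.cast_zero, mul_zero, zero_div]
        linarith
      · rw [ht, sub_self]
        have h0 : Pool.Agent.N662.FP.em (0 : ℤ × ℤ) = 0 := by simp [Pool.Agent.N662.FP.em]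
        rw [h0, map_zero]
        have := Finset.sum_nonneg (s := badSet μ L n g x (fun _ => blk n (p i)) 0) (f := w)
          (fun b _ => hw0 b)
        simp only [mul_zero, zero_div]
        linarith
    | succ d ih =>
      intro i him hd
      set b := blk n (p i) with hb
      have htm0 : 0 ≤ 2 * tm x p i m / (c * n) := by
        have := tm_nonneg x p i m
        positivity
      by_cases hbad : g < w b
      · -- bad block: jump to the last visit
        classical
        set i2 := Nat.findGreatest (fun s => blk n (p s) = b) m with hi2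
        have h1 : i ≤ i2 := Nat.le_findGreatest him hb.symm
        have h2 : i2 ≤ m := Nat.findGreatest_le m
        have h3 : blk n (p i2) = b := Nat.findGreatest_spec (P := fun s => blk n (p s) = b) him hb.symm
        have h4 : ∀ s, i2 < s → s ≤ m → blk n (p s) ≠ b := fun s hs1 hs2 =>
          Nat.findGreatest_is_greatest hs1 hs2
        have h5 := jump b i i2 h1 h2 hb.symm h3
        by_cases hex : ∃ k, i2 ≤ k ∧ k ≤ m ∧ n ≤ nm (p k - p i2)
        · obtain ⟨k, hk1, hk2, hk3⟩ := hex
          obtain ⟨i', g1, g2, g3, g4, g5⟩ := cross b i2 k hk1 hk2 h3 hk3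
          obtain ⟨k', q', e1, e2, e3, e4, e5⟩ := ih i' g2 (by omega)
          have hadd1 := tm_add x p h1 h2
          have hadd2 := tm_add x p g1.le g2
          have t1 := tm_nonneg x p i i2
          have t2 := tm_nonneg x p i2 i'
          have hnot : ∀ t ≤ k', q' t ≠ b := by
            intro t ht hc'
            obtain ⟨s, hs1, hs2, hs3⟩ := e3 t ht
            exact h4 s (by omega) hs2 (hs3.trans hc')
          have hnot' : ∀ j ≤ k', b ∉ badSet μ L n g x q' j := by
            intro j hj hc'
            obtain ⟨⟨t, ht, htb⟩, _⟩ := mem_badSet μ L n g x hc'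
            exact hnot t (ht.trans hj) htb
          have hle : 2 * tm x p i' m / (c * n) ≤ 2 * tm x p i m / (c * n) := by
            gcongr
            linarith
          refine ⟨k' + 1, cons b q', rfl, ?_, ?_, ?_, ?_⟩
          · intro t ht
            cases t with
            | zero =>
              show nm (q' 0 - b) ≤ 1
              rw [e1, ← h3]
              exact blk_near hn g3
            | succ t => exact e2 t (by omega)
          · intro t ht
            cases t with
            | zero => exact ⟨i, le_rfl, him, rfl⟩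
            | succ t =>
              obtain ⟨s, hs1, hs2, hs3⟩ := e3 t (by omega)
              exact ⟨s, by omega, hs2, hs3⟩
          · intro j hj
            cases j with
            | zero =>
              have : (0 : ℝ) ≤ ((badSet μ L n g x (cons b q') 0).card : ℝ) := Nat.cast_nonneg _
              simp only [Nat.cast_zero]
              linarith
            | succ j =>
              rw [badSet_cons_bad μ L n g x b q' j hbad,
                Finset.card_insert_of_notMem (hnot' j (by omega))]
              have := e4 j (by omega)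
              push_cast
              linarith
          · rw [badSet_cons_bad μ L n g x b q' k' hbad,
              Finset.sum_insert (hnot' k' le_rfl)]
            have tr1 := em_sub_tri μ (p i) (p i2) (p m)
            have tr2 := em_sub_tri μ (p i2) (p i') (p m)
            have hmul : (1 + 2 * tm x p i' m / (c * n)) * g ≤
                (1 + 2 * tm x p i m / (c * n)) * g :=
              mul_le_mul_of_nonneg_right (by linarith) hg
            linarith
        · have h6 := final b i2 h2 h3 hex
          have hadd1 := tm_add x p h1 h2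
          have tr1 := em_sub_tri μ (p i) (p i2) (p m)
          refine ⟨0, fun _ => b, rfl, by omega, fun t _ => ⟨i, le_rfl, him, rfl⟩, ?_, ?_⟩
          · intro j hj
            have : j = 0 := by omega
            subst this
            have : (0 : ℝ) ≤ ((badSet μ L n g x (fun _ => b) 0).card : ℝ) := Nat.cast_nonneg _
            simp only [Nat.cast_zero]
            linarith
          · rw [badSet_zero_bad μ L n g x (fun _ => b) hbad, Finset.sum_singleton]
            have hmul : 0 ≤ (1 + 2 * tm x p i m / (c * n)) * g :=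
              mul_nonneg (by linarith) hg
            linarith
      · -- good block
        by_cases hex : ∃ k, i ≤ k ∧ k ≤ m ∧ n ≤ nm (p k - p i)
        · obtain ⟨k, hk1, hk2, hk3⟩ := hex
          obtain ⟨i', g1, g2, g3, g4, g5⟩ := cross b i k hk1 hk2 hb.symm hk3
          obtain ⟨k', q', e1, e2, e3, e4, e5⟩ := ih i' g2 (by omega)
          have hadd2 := tm_add x p g1.le g2
          have hgood : w b ≤ g := not_lt.1 hbad
          have hone : 1 + 2 * tm x p i' m / (c * n) ≤ 2 * tm x p i m / (c * n) := by
            have h1 := hc.lo (p i' - p i)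
            have h2 : c * (n : ℝ) ≤ c * nm (p i' - p i) :=
              mul_le_mul_of_nonneg_left (by exact_mod_cast g4) hcp.le
            have h3 : c * n / 2 ≤ tm x p i i' := by linarith
            rw [← hadd2, mul_add, add_div]
            have : 1 ≤ 2 * tm x p i i' / (c * n) := by
              rw [le_div_iff₀ hcn]
              linarith
            linarith
          refine ⟨k' + 1, cons b q', rfl, ?_, ?_, ?_, ?_⟩
          · intro t ht
            cases t with
            | zero =>
              show nm (q' 0 - b) ≤ 1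
              rw [e1]
              exact blk_near hn g3
            | succ t => exact e2 t (by omega)
          · intro t ht
            cases t with
            | zero => exact ⟨i, le_rfl, him, rfl⟩
            | succ t =>
              obtain ⟨s, hs1, hs2, hs3⟩ := e3 t (by omega)
              exact ⟨s, by omega, hs2, hs3⟩
          · intro j hj
            cases j with
            | zero =>
              have : (0 : ℝ) ≤ ((badSet μ L n g x (cons b q') 0).card : ℝ) := Nat.cast_nonneg _
              simp only [Nat.cast_zero]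
              linarith
            | succ j =>
              rw [badSet_cons_good μ L n g x b q' j hbad]
              have := e4 j (by omega)
              push_cast
              linarith
          · rw [badSet_cons_good μ L n g x b q' k' hbad]
            have tr2 := em_sub_tri μ (p i) (p i') (p m)
            have hmul : (1 + (1 + 2 * tm x p i' m / (c * n))) * g ≤
                (1 + 2 * tm x p i m / (c * n)) * g :=
              mul_le_mul_of_nonneg_right (by linarith) hg
            have : (1 + (1 + 2 * tm x p i' m / (c * n))) * g =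
              g + (1 + 2 * tm x p i' m / (c * n)) * g := by ring
            linarith
        · have h6 := final b i him hb.symm hex
          refine ⟨0, fun _ => b, rfl, by omega, fun t _ => ⟨i, le_rfl, him, rfl⟩, ?_, ?_⟩
          · intro j hj
            have : j = 0 := by omega
            subst this
            have : (0 : ℝ) ≤ ((badSet μ L n g x (fun _ => b) 0).card : ℝ) := Nat.cast_nonneg _
            simp only [Nat.cast_zero]
            linarith
          · rw [badSet_zero_good μ L n g x (fun _ => b) hbad, Finset.sum_empty]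
            have hgood : w b ≤ g := not_lt.1 hbad
            have hmul : g ≤ (1 + 2 * tm x p i m / (c * n)) * g := by
              nlinarith
            linarith
  obtain ⟨k, q, h1, h2, _, h4, h5⟩ := main m 0 (Nat.zero_le _) (by omega)
  exact ⟨k, q, h1, h2, h4, h5⟩

end Pool.Agent.Run7.h472.OH
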