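import Pool.Agent.Run7.h472.OH.Asm4
import Pool.Agent.Run7.h472.OH.HB
import Pool.Agent.Run7.h637.OH.CG
import Pool.Agent.Run7.h637.OH.OUT
import Pool.Agent.Run7.h637.OH.OUT2
import Pool.Agent.Run7.h637.OH.MLO
import Pool.Agent.Run7.h704.OH.FEW
import Pool.Agent.Run7.h711.OH.STEP
import Pool.Agent.Run7.h711.OH.EMB
import Pool.Agent.Run7.h213.OH.OTG
import Pool.Agent.Run7.h213.OH.TR
import Pool.Agent.Run7.h824.OH.ITG
import Pool.Agent.Run7.h824.OH.ITT
import Pool.Agent.Run7.h627.OH.IND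
import Pool.Agent.Run7.h627.OH.MEAS
import Pool.Agent.Run7.h760.OH.DBL
import Pool.Agent.Run7.h973.OH.CHD
import Pool.Agent.Run7.h973.OH.LDT
import Pool.Agent.Run7.h973.OH.MUP
import Pool.Agent.Run7.h973.OH.NRF

/-! Assembly, fifth part: all pieces are proved. -/

set_option autoImplicit false
open MeasureTheory ProbabilityTheory Filter Set
open scoped ENNReal Pointwise Topology

namespace Pool.Agent.Run7.h472.OH

open Pool.Agent.N662.FP

theorem pMEAS : S_MEAS := Pool.Agent.Run7.h627.OH.t_MEAS t_WBD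
theorem pIND : S_IND := Pool.Agent.Run7.h627.OH.t_IND t_WBD pMEAS
theorem pCG : S_CG := Pool.Agent.Run7.h637.OH.t_CG t_WBD t_DET pMEAS pIND
theorem pFEW : S_FEW := Pool.Agent.Run7.h704.OH.t_FEW t_WBD t_DET pMEAS pIND
theorem pTR : S_TR := Pool.Agent.Run7.h213.OH.t_TR cME cAE
theorem pHB : S_HB := t_HB

theorem pcs : Pcs where
  CG := pCG
  FEW := pFEW
  STEP := Run7.h711.OH.t_STEP t_WBD pCG cGE cAE
  EMB := Run7.h711.OH.t_EMB t_WBD pMEAS
  OTG := Pool.Agent.Run7.h213.OH.t_OTG t_WBD pTR cGE cAE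
  ITG := Pool.Agent.Run7.h824.OH.t_ITG
  ITT := Pool.Agent.Run7.h824.OH.t_ITT
  OUT := Pool.Agent.Run7.h637.OH.t_OUT
  OUT2 := Pool.Agent.Run7.h637.OH.t_OUT2
  LDT := Run7.h973.OH.t_LDT
  HB := pHB
  DBL := Pool.Agent.Run7.h760.OH.t_DBL Run7.h973.OH.t_CHD pHB
  NRF := Run7.h973.OH.t_NRF
  MUP := Run7.h973.OH.t_MUP
  MLO := Pool.Agent.Run7.h637.OH.t_MLO

theorem nm_norm (v : ℤ × ℤ) : (nm v : ℝ) = ‖v‖ := by
  rw [nm_real, Prod.norm_def, Int.norm_eq_abs, Int.norm_eq_abs]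

section
variable {Ω : Type} [MeasureSpace Ω] [IsProbabilityMeasure (volume : Measure Ω)]
variable {X : Sym2 (ℤ × ℤ) → Ω → ℝ}

/-- one exponent, outer half -/
theorem oneOuter (hX : Iid X) (μ : Seminorm ℝ (ℝ × ℝ)) (hμ : ∀ x, μ x = 0 → x = 0)
    (κ κ' q : ℝ) (h0 : 0 < κ') (h1 : κ' < κ) (h2 : κ < 1) (hq : 3 / (1 - κ) < q)
    (hO : OP (fun ω v => D (env X ω) 0 v) μ κ q) :
    OE (fun ω v => D (env X ω) 0 v) μ κ' ∧ LD (fun ω v => D (env X ω) 0 v) μ κ' := by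
  obtain ⟨c, C, L, hc⟩ := t_CST μ hμ
  constructor
  · obtain ⟨A, hA, hh⟩ := toLD pcs.CG pcs.FEW pcs.STEP pcs.EMB pcs.OTG pcs.ITG pcs.ITT hX μ hμ κ
      ((κ + κ') / 2) q (by linarith) (by linarith) h2 hq hO
    exact pcs.OUT Ω _ μ c C L hc ((κ + κ') / 2) κ' A h0 (by linarith) (by linarith) hA hh
  · exact toLD pcs.CG pcs.FEW pcs.STEP pcs.EMB pcs.OTG pcs.ITG pcs.ITT hX μ hμ κ
      κ' q h0 h1 h2 hq hO

/-- one exponent, around the mean -/
theorem oneMean (hX : Iid X) (μ : Seminorm ℝ (ℝ × ℝ))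
    (hG : Good (fun ω v => D (env X ω) 0 v) μ)
    (hlim : ∀ z : ℤ × ℤ, ∀ᵐ ω ∂(volume : Measure Ω),
      Tendsto (fun n : ℕ => D (env X ω) 0 ((n : ℤ) • z) / (n : ℝ)) atTop
        (𝓝 (μ (Pool.Agent.N662.FP.em z))))
    (κ κ' q : ℝ) (h0 : 0 < κ') (h1 : κ' < κ) (h2 : κ < 1) (hq : 5 / (1 - κ) < q)
    (hL : LT (fun ω v => D (env X ω) 0 v) (HH X) κ q) :
    (∃ A : ℝ, ∀ v : ℤ × ℤ, HH X v ≤ μ (Pool.Agent.N662.FP.em v) + A * (1 + ‖v‖) ^ (1 - κ)) ∧
    ∃ c : ℝ, 0 < c ∧ ∀ᶠ t : ℝ in atTop,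
        (volume : Measure Ω).real (Out (fun ω v => D (env X ω) 0 v) μ κ' t) ≤
          Real.exp (-(t ^ c)) ∧
        (volume : Measure Ω).real (Bad (fun ω v => D (env X ω) 0 v) μ κ' t) ≤
          Real.exp (-(t ^ c)) := by
  obtain ⟨c, C, L, hc⟩ := t_CST μ hG.norm
  obtain ⟨hLμ, A, hA⟩ := LT_all pcs hX μ hc hlim κ q (by linarith) h2 hq hL
  obtain ⟨b, hb1, hb⟩ := nm_to_mu hc
  constructor
  · refine ⟨|A| * b, fun v => ?_⟩
    have h3 := (abs_int hX (μ := μ) v).trans (hA v)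
    have hm0 : 0 ≤ μ (Pool.Agent.N662.FP.em v) := apply_nonneg μ _
    have hw0 : 0 < (1 + μ (Pool.Agent.N662.FP.em v)) ^ (1 - κ) :=
      Real.rpow_pos_of_pos (by linarith) _
    have h4 : A * (1 + μ (Pool.Agent.N662.FP.em v)) ^ (1 - κ) ≤
        |A| * (1 + μ (Pool.Agent.N662.FP.em v)) ^ (1 - κ) :=
      mul_le_mul_of_nonneg_right (le_abs_self A) hw0.le
    have h5 := mul_le_mul_of_nonneg_left (hb κ (by linarith) h2.le v).1 (abs_nonneg A)
    rw [nm_norm] at h5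
    have h6 : |A| * (b * (1 + ‖v‖) ^ (1 - κ)) = |A| * b * (1 + ‖v‖) ^ (1 - κ) := by ring
    linarith
  · -- outer
    have hk : 0 < 1 - κ := by linarith
    set κ3 := (2 * κ + κ') / 3 with hκ3
    have hk3 : 0 < 1 - κ3 := by linarith
    have hOP : OP (fun ω v => D (env X ω) 0 v) μ κ3 (q - 2) :=
      pcs.OUT2 Ω _ μ c C L hc κ κ3 q (by linarith) (by linarith) h2 (by
        have : 5 ≤ 5 / (1 - κ) := by
          rw [le_div_iff₀ hk]
          linarith
        linarith) hLμ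
    have hq3 : 3 / (1 - κ3) < q - 2 := by
      have h4 : 3 / (1 - κ3) ≤ 3 / (1 - κ) :=
        div_le_div_of_nonneg_left (by norm_num) hk (by linarith)
      have h5 : 5 / (1 - κ) = 3 / (1 - κ) + 2 / (1 - κ) := by
        rw [← add_div]; norm_num
      have h6 : 2 ≤ 2 / (1 - κ) := by
        rw [le_div_iff₀ hk]
        linarith
      linarith
    obtain ⟨c1, hc1, hh1⟩ := (oneOuter hX μ hG.norm κ3 κ' (q - 2) h0 (by linarith) (by linarith)
      hq3 hOP).1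
    -- inner
    set R : ℝ := 8 * (|A| + 1) with hR
    have hR0 : 0 < R := by positivity
    have h8 : ∀ v : ℤ × ℤ, (volume : Measure Ω).real {ω | μ (Pool.Agent.N662.FP.em v) +
        R * (1 + μ (Pool.Agent.N662.FP.em v)) ^ (1 - κ) ≤ D (env X ω) 0 v} ≤ 1 / 8 := by
      intro v
      have hm0 : 0 ≤ μ (Pool.Agent.N662.FP.em v) := apply_nonneg μ _
      set w := (1 + μ (Pool.Agent.N662.FP.em v)) ^ (1 - κ) with hw
      have hw0 : 0 < w := Real.rpow_pos_of_pos (by linarith) _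
      have hr0 : 0 < R * w := by positivity
      have hFMv : ∫ ω, |D (env X ω) 0 v - μ (Pool.Agent.N662.FP.em v)| ∂(volume : Measure Ω) ≤
        A * w := hA v
      have h3 := mk (fun ω => D (env X ω) 0 v) (cINT Ω X hX 0 v) (μ (Pool.Agent.N662.FP.em v))
        (R * w) hr0
      have h4 : (volume : Measure Ω).real {ω | μ (Pool.Agent.N662.FP.em v) + R * w ≤
          D (env X ω) 0 v} ≤ (volume : Measure Ω).real
            {ω | R * w ≤ |D (env X ω) 0 v - μ (Pool.Agent.N662.FP.em v)|} := by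
        refine measureReal_mono (fun ω hω => ?_) (measure_ne_top _ _)
        have h7 : μ (Pool.Agent.N662.FP.em v) + R * w ≤ D (env X ω) 0 v := hω
        show R * w ≤ |D (env X ω) 0 v - μ (Pool.Agent.N662.FP.em v)|
        exact (by linarith : R * w ≤ D (env X ω) 0 v - μ (Pool.Agent.N662.FP.em v)).trans
          (le_abs_self _)
      refine h4.trans (h3.trans ?_)
      rw [div_le_iff₀ hr0, hR]
      have h6 : A * w ≤ |A| * w := mul_le_mul_of_nonneg_right (le_abs_self A) hw0.le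
      have h7 : 1 / 8 * (8 * (|A| + 1) * w) = |A| * w + w := by ring
      linarith
    obtain ⟨c2, hc2, hh2⟩ := d_c cEE hG κ (by linarith) h2 R hR0 (1 / 8) eighth h8 κ' h0 h1
    refine ⟨min c1 c2, lt_min hc1 hc2, ?_⟩
    filter_upwards [hh1, hh2, eventually_ge_atTop 1] with t ht1 ht2 ht
    constructor
    · refine ht1.trans (Real.exp_le_exp.2 (neg_le_neg ?_))
      exact Real.rpow_le_rpow_of_exponent_le ht (min_le_left _ _)
    · refine ht2.trans (Real.exp_le_exp.2 (neg_le_neg ?_))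
      exact Real.rpow_le_rpow_of_exponent_le ht (min_le_right _ _)

end

end Pool.Agent.Run7.h472.OH
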