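import Pool.Agent.Run7.h472.OH.Iface

/-!
# Planar first-passage percolation: third interface

The outer half of Q1 follows from its version IN PROBABILITY in boxes (hand-ins of `MP_de94ef_pr`).
A multiplicative moment recursion from the scale `n` to the scale `N = M n`, `M` a constant.
-/

set_option autoImplicit false
open MeasureTheory ProbabilityTheory Filter Set
open scoped ENNReal Pointwise Topology

namespace Pool.Agent.Run7.h472.OH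

open Pool.Agent.N662.FP

/-- the blocks with coordinates of absolute value at most `ρ` -/
noncomputable def bx (ρ : ℕ) : Finset (ℤ × ℤ) := (Finset.Icc (-(ρ : ℤ)) ρ) ×ˢ (Finset.Icc (-(ρ : ℤ)) ρ)

/-- the sum of the deficits of the bad blocks among `A` -/
noncomputable def bsum (μ : Seminorm ℝ (ℝ × ℝ)) (L n : ℕ) (g : ℝ) (x : Env)
    (A : Finset (ℤ × ℤ)) : ℝ := by
  classical
  exact ∑ b ∈ A.filter (fun b => g < W μ L n b x), W μ L n b x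

section
variable {Ω : Type} [MeasureSpace Ω]

/-- the `a`-th moment of the deficit of a bad block, in units of `s` -/
noncomputable def Mo (X : Sym2 (ℤ × ℤ) → Ω → ℝ) (μ : Seminorm ℝ (ℝ × ℝ)) (L a : ℕ) (n : ℕ)
    (g s : ℝ) : ℝ :=
  (∫⁻ ω in {ω | g < W μ L n 0 (env X ω)},
    ENNReal.ofReal ((1 + W μ L n 0 (env X ω) / s) ^ a) ∂(volume : Measure Ω)).toReal

/-- two points of the box of radius `t` with passage time below `μ - t ^ (1 - κ)` -/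
def Short (X : Sym2 (ℤ × ℤ) → Ω → ℝ) (μ : Seminorm ℝ (ℝ × ℝ)) (κ t : ℝ) : Set Ω :=
  {ω | ∃ u v : ℤ × ℤ, (nm u : ℝ) ≤ t ∧ (nm v : ℝ) ≤ t ∧
    D (env X ω) u v < μ (em (v - u)) - t ^ (1 - κ)}

/-- two points of the box of radius `t` with passage time above `μ + t ^ (1 - κ)` -/
def Long (X : Sym2 (ℤ × ℤ) → Ω → ℝ) (μ : Seminorm ℝ (ℝ × ℝ)) (κ t : ℝ) : Set Ω :=
  {ω | ∃ u v : ℤ × ℤ, (nm u : ℝ) ≤ t ∧ (nm v : ℝ) ≤ t ∧
    μ (em (v - u)) + t ^ (1 - κ) < D (env X ω) u v}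
end

/-- DET2 (helper472, done). `S_DET` with the additional information that the coarse path consists
of blocks visited by the path. -/
def S_DET2 : Prop := ∀ (μ : Seminorm ℝ (ℝ × ℝ)) (c C : ℝ) (L : ℕ), Cst μ c C L → ∀ n : ℕ, 1 ≤ n →
  ∀ g : ℝ, 0 ≤ g → g ≤ c * n / 2 → ∀ (x : Env) (m : ℕ) (p : ℕ → ℤ × ℤ), IsP p m →
  ∃ (k : ℕ) (q : ℕ → ℤ × ℤ), (∀ t ≤ k, ∃ s ≤ m, q t = blk n (p s)) ∧
    μ (em (p m - p 0)) - tm x p 0 m ≤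
      (1 + 2 * tm x p 0 m / (c * n)) * g + 2 * ∑ b ∈ badSet μ L n g x q k, W μ L n b x

/-- REG. One scale by all bad blocks of a smaller scale (no probability).

`W μ L N 0 x` is a supremum over valid sequences (nonempty: the sequence of length `0` at `0`);
`ciSup_le`. Let `q` be valid for the block `0` of size `N`, as a path `p` with `m` steps (extend
constantly; `tmS x q = tm x p 0 m`; compare the proof of `S_FEW` in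
`Pool.Agent.Run7.h704.OH.FEW`). If `μ (p m - p 0) - tm ≤ 0` the bound is trivial (the right hand
side is `≥ 0`). Otherwise `tm ≤ μ (p m - p 0) ≤ C (L+1) N` (both ends are in the box of radius
`L N` around `0`, the start in `[0,N)²`), and by `S_DET2`
`μ - tm ≤ (1 + 2 C (L+1) N/(c n)) g + 2 ∑_{badSet}`; every block of `badSet μ L n g x q k` is bad
and is the block of a point `z` with `|z.i| ≤ L N`, so its coordinates are between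
`- L N / n - 1` and `L N / n`, so it is in `bx ρ`; all `W ≥ 0` (`S_WBD`). -/
def S_REG : Prop := ∀ (μ : Seminorm ℝ (ℝ × ℝ)) (c C : ℝ) (L : ℕ), Cst μ c C L →
  ∀ n N : ℕ, 1 ≤ n → 1 ≤ N → ∀ g : ℝ, 0 ≤ g → g ≤ c * n / 2 → ∀ (x : Env) (ρ : ℕ),
  (L : ℝ) * N / n + 1 ≤ ρ →
  W μ L N 0 x ≤ (1 + 2 * (C * (L + 1) * N) / (c * n)) * g + 2 * bsum μ L n g x (bx ρ)

/-- MOR. The moment recursion.

Let `M = 2 L + 1`, `A = (2ρ+1)²` (the number of blocks in `bx ρ`), `K = 1 + 2 C (L+1) N/(c n)`,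
`f w = (1 + M² w / S)^a` if `g < w` and `f w = 1` otherwise, `m' = ∫⁻_{g < W_n} f(W_n)`.
(1) `m' ≤ θ` (as `ENNReal.ofReal`): `(1+t)^a ≤ 2^a + (2t)^a` for `t ≥ 0`, with
`t = M² W / S ≤ (M² s / S) (1 + W/s)`. (All functions of `W` are bounded, `S_WBD`, so `Mo` is
finite and its `toReal` is harmless.)
(2) For a set `R` of blocks with mutual distances `≥ M` (a residue class modulo `M` in `bx ρ`)
`∏_{b ∈ R} f(W b) ≥ (1 + M² bsum R / S)^a` (bad blocks give `∏ (1+t_i) ≥ 1 + ∑ t_i`), and by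
`S_IND` for `f` and for `1{w ≤ g}`:
`E[∏_R f(W b); some bad block in R] = (1 - p + m')^#R - (1 - p)^#R ≤ #R m' (1 + m')^#R`, where
`p = G n g` (`E f(W_0) = 1 - p + m'`; on the event that no block of `R` is bad the product is `1`).
`(1 + m')^#R ≤ exp (A θ) ≤ 3`.
(3) On `{gN < W_N}`: if no block of `bx ρ` is bad then `W_N ≤ K g ≤ S` by `S_REG` and
`(1 + W_N/S)^a ≤ 2^a`: contribution `≤ 2^a G N gN`. Otherwise with the residue class `R` of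
maximal `bsum` (`bsum (bx ρ) ≤ M² bsum R`, and `R` contains a bad block since the sum is positive):
`1 + W_N/S ≤ 2 (1 + M² bsum R / S)`, so `(1 + W_N/S)^a ≤ 2^a 1{some bad in R} ∏_R f(W b)`.
Sum over the `M²` classes: contribution `≤ 2^a M² A m' 3`. -/
def S_MOR : Prop := ∀ (Ω : Type) [MeasureSpace Ω] [IsProbabilityMeasure (volume : Measure Ω)]
  (X : Sym2 (ℤ × ℤ) → Ω → ℝ), Iid X →
  ∀ (μ : Seminorm ℝ (ℝ × ℝ)) (c C : ℝ) (L : ℕ), Cst μ c C L →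
  ∀ (a n N : ℕ), 1 ≤ n → 1 ≤ N → ∀ (g gN s S : ℝ) (ρ : ℕ), 0 ≤ g → g ≤ c * n / 2 → 0 < s → 0 < S →
  (L : ℝ) * N / n + 1 ≤ ρ → (1 + 2 * (C * (L + 1) * N) / (c * n)) * g ≤ S →
  (2 * (ρ : ℝ) + 1) ^ 2 * (2 ^ a * G X μ L n g +
    (2 * (2 * (L : ℝ) + 1) ^ 2 * s / S) ^ a * Mo X μ L a n g s) ≤ 1 →
  Mo X μ L a N gN S ≤ 2 ^ a * G X μ L N gN + 3 * 2 ^ a * (2 * (L : ℝ) + 1) ^ 2 *
    ((2 * (ρ : ℝ) + 1) ^ 2 * (2 ^ a * G X μ L n g +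
      (2 * (2 * (L : ℝ) + 1) ^ 2 * s / S) ^ a * Mo X μ L a n g s))

/-- MOB. Trivial bound and Markov inequality for the moment. (1) `W ≤ C (L+1) n ≤ s` gives
`(1 + W/s)^a ≤ 2^a`. (2) On `{u < W}` (`⊆ {g < W}`) the integrand is at least `(1 + u/s)^a`; the
integral is finite as `W` is bounded (`S_WBD`); measurability `S_MEAS` (composed with `env X`). -/
def S_MOB : Prop := ∀ (Ω : Type) [MeasureSpace Ω] [IsProbabilityMeasure (volume : Measure Ω)]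
  (X : Sym2 (ℤ × ℤ) → Ω → ℝ), Iid X →
  ∀ (μ : Seminorm ℝ (ℝ × ℝ)) (c C : ℝ) (L : ℕ), Cst μ c C L →
  ∀ (a n : ℕ), 1 ≤ n → ∀ g s : ℝ, 0 < s →
  0 ≤ Mo X μ L a n g s ∧
  (C * (L + 1) * n ≤ s → Mo X μ L a n g s ≤ 2 ^ a * G X μ L n g) ∧
  ∀ u : ℝ, 0 ≤ u → g ≤ u → G X μ L n u * (1 + u / s) ^ a ≤ Mo X μ L a n g s

/-- BAN (pure analysis). From smallness to polynomial decay.

Put `κ'' = (κ + κ')/2`, `g n = n^(1-κ)`, `s n = A0 n^(1-κ'')`. Claim: `Mm n (g n) (s n) ≤ 1` for all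
`n ≥ n0`. Choose the integer `M ≥ 2` with `4 B^(3+a) M^(2 - a (1-κ'')) ≤ 1/4` (possible as
`a (1-κ'') > a (1-κ) > 2`), then `ε > 0` with `4 B³ M² 2^a ε ≤ 1/4` and `2^a ε ≤ 1/4`; given the
eventual bound `F n (g n) ≤ ε` for `n ≥ n0`, also `n0 ≥ 1`, `n^κ ≥ B` for `n ≥ n0`; and
`A0 = B (M n0 + M)^κ'' + 2 B M`. Base `n0 ≤ n < M n0 + M`: `B n ≤ s n`, so `Mm ≤ 2^a F ≤ 1`.
Step `N ≥ M n0 + M`: `n = N / M` (integer part) satisfies `n0 ≤ n < N`, `M ≤ N / n ≤ 2 M` (real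
quotient, as `N < M (n+1) ≤ 2 M n`), `B (N/n) (g n) ≤ 2 B M n^(1-κ) ≤ s N`,
`s n / s N = (n/N)^(1-κ'') ≤ M^(-(1-κ''))`, so
`θ := 2^a F n (g n) + (B (s n)/(s N))^a Mm n (g n) (s n) ≤ 2^a ε + B^a M^(-a (1-κ''))`,
`(B N/n)² θ ≤ 4 B² M² θ ≤ 1/(2B)`, so `Mm N ≤ 1/4 + 1/2 ≤ 1`.
Conclusion: with `u = n^(1-κ') ≥ g n`, `F n u ≤ (u / s n)^(-a) = A0^a n^(-a (κ'' - κ')) ≤ n^(-q)`
for `q = a (κ'' - κ')/2` and large `n` (note `a ≥ 1`). -/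
def S_BAN : Prop := ∀ (F : ℕ → ℝ → ℝ) (Mm : ℕ → ℝ → ℝ → ℝ) (a : ℕ) (B : ℝ), 1 ≤ B →
  (∀ n u, 0 ≤ F n u) → (∀ n g s, 1 ≤ n → 0 < s → 0 ≤ Mm n g s) →
  (∀ (n : ℕ) (g s : ℝ), 1 ≤ n → 0 < s → B * n ≤ s → Mm n g s ≤ 2 ^ a * F n g) →
  (∀ (n : ℕ) (g s u : ℝ), 1 ≤ n → 0 < s → 0 ≤ u → g ≤ u → F n u * (1 + u / s) ^ a ≤ Mm n g s) →
  (∀ (n N : ℕ), 1 ≤ n → n ≤ N → ∀ (g gN s S : ℝ), 0 ≤ g → g ≤ n / B → 0 < s → 0 < S →
    B * (N / n) * g ≤ S →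
    (B * (N / n)) ^ 2 * (2 ^ a * F n g + (B * s / S) ^ a * Mm n g s) ≤ 1 →
    Mm N gN S ≤ 2 ^ a * F N gN +
      B * ((B * (N / n)) ^ 2 * (2 ^ a * F n g + (B * s / S) ^ a * Mm n g s))) →
  ∀ κ κ' : ℝ, 0 < κ' → κ' < κ → κ < 1 → 2 < a * (1 - κ) →
  ∃ ε : ℝ, 0 < ε ∧ ((∀ᶠ n : ℕ in atTop, F n ((n : ℝ) ^ (1 - κ)) ≤ ε) →
    ∃ q : ℝ, 0 < q ∧ ∀ᶠ n : ℕ in atTop, F n ((n : ℝ) ^ (1 - κ')) ≤ (n : ℝ) ^ (-q))

/-- STG. From the box event to the local deficits: if `n^(1-κ1) < W μ L n 0`, then there is a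
valid sequence (a path with time `< μ - n^(1-κ1)`, weights a.s. nonnegative, `S_AE`) from `u` to
`v`, both in the box of radius `L n`, so `D u v ≤ time` (`S_GE`) and `Short κ (L n)` holds if
`n^(1-κ1) ≥ (L n)^(1-κ)`, true for large `n`. -/
def S_STG : Prop := ∀ (Ω : Type) [MeasureSpace Ω] [IsProbabilityMeasure (volume : Measure Ω)]
  (X : Sym2 (ℤ × ℤ) → Ω → ℝ), Iid X →
  ∀ (μ : Seminorm ℝ (ℝ × ℝ)) (c C : ℝ) (L : ℕ), Cst μ c C L →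
  ∀ κ κ1 e : ℝ, 0 < κ1 → κ1 < κ → κ < 1 →
  (∀ᶠ t : ℝ in atTop, (volume : Measure Ω).real (Short X μ κ t) ≤ e) →
  ∀ᶠ n : ℕ in atTop, G X μ L n ((n : ℝ) ^ (1 - κ1)) ≤ e

/-- LBB. From the large deviation bound to the box event: union over the at most `(2t+1)^4` pairs
`u, v`; by `S_TR` (with `Z = {v - u}`) the term is `P(D 0 z < μ z - t^(1-κ))`, `z = v - u`,
`nm z ≤ 2 t`; it is `0` if `μ z < t^(1-κ)` (`D ≥ 0` a.s.) and otherwise at most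
`A exp (-(δ^(1/κ2) μ z / A))` with `δ = t^(1-κ)/μ z ≤ 1`, and
`δ^(1/κ2) μ z = t^((1-κ)/κ2) (μ z)^(1 - 1/κ2) ≥ t^((1-κ)/κ2) (2 C t)^(1-1/κ2)
 = c' t^(1 - κ/κ2)`. -/
def S_LBB : Prop := ∀ (Ω : Type) [MeasureSpace Ω] [IsProbabilityMeasure (volume : Measure Ω)]
  (X : Sym2 (ℤ × ℤ) → Ω → ℝ), Iid X →
  ∀ (μ : Seminorm ℝ (ℝ × ℝ)) (c C : ℝ) (L : ℕ), Cst μ c C L →
  ∀ κ κ2 A : ℝ, 0 < κ → κ < κ2 → κ2 ≤ 1 → 0 < A →
  (∀ (v : ℤ × ℤ) (δ : ℝ), 0 < δ → δ ≤ 1 →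
    (volume : Measure Ω).real {ω | D (env X ω) 0 v ≤ (1 - δ) * μ (em v)} ≤
      A * Real.exp (-(δ ^ (1 / κ2) * μ (em v) / A))) →
  ∃ e : ℝ, 0 < e ∧ ∀ᶠ t : ℝ in atTop,
    (volume : Measure Ω).real (Short X μ κ t) ≤ Real.exp (-(t ^ e))

/-- UBB. From the exponential upper tails at one point to the box event. Put `h = D 0`. Union over
the at most `(2t+1)^4` pairs `u, v`, `z = v - u`, `nm z ≤ 2 t`, translation invariance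
(`Pool.Agent.N662.FP` / `S_TR` is for `<`; use the identity of laws in
`Pool.Agent.Run7.h213.OH.TR` or a `S_TR`-type argument for `>`):
`P(D u v > μ z + t^(1-κ)) = P(D 0 z > μ z + t^(1-κ))
 ≤ exp (-((t^(1-κ) - r)/r'))` where `r = R (1 + μ z)^(1-κ2) ≤ R (1 + 2 C t)^(1-κ2)`, which is at
most `exp (-(c' t^(κ2-κ)))` for large `t`. -/
def S_UBB : Prop := ∀ (Ω : Type) [MeasureSpace Ω] [IsProbabilityMeasure (volume : Measure Ω)]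
  (X : Sym2 (ℤ × ℤ) → Ω → ℝ), Iid X →
  ∀ (μ : Seminorm ℝ (ℝ × ℝ)) (c C : ℝ) (L : ℕ), Cst μ c C L →
  ∀ κ κ2 R : ℝ, 0 < κ → κ < κ2 → κ2 < 1 → 0 < R →
  (∀ (v : ℤ × ℤ) (u : ℝ), 0 ≤ u →
    (volume : Measure Ω).real {ω | μ (em v) + R * (1 + μ (em v)) ^ (1 - κ2) + u ≤
      D (env X ω) 0 v} ≤ Real.exp (-(u / (R * (1 + μ (em v)) ^ (1 - κ2))))) →
  ∃ e : ℝ, 0 < e ∧ ∀ᶠ t : ℝ in atTop,
    (volume : Measure Ω).real (Long X μ κ t) ≤ Real.exp (-(t ^ e))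

end Pool.Agent.Run7.h472.OH
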