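import Pool.Agent.Run7.h472.OH.Asm5
import Pool.Agent.Run7.h472.OH.DET2

/-! Assembly, sixth part: the version in probability. -/

set_option autoImplicit false
open MeasureTheory ProbabilityTheory Filter Set
open scoped ENNReal Pointwise Topology

namespace Pool.Agent.Run7.h472.OH

open Pool.Agent.N662.FP

/-- the pieces of the third interface -/
structure Pcs3 : Prop where
  MOR : S_MOR
  MOB : S_MOB
  BAN : S_BAN
  STG : S_STG
  LBB : S_LBB
  UBB : S_UBB

section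
variable {Ω : Type} [MeasureSpace Ω] [IsProbabilityMeasure (volume : Measure Ω)]
variable {X : Sym2 (ℤ × ℤ) → Ω → ℝ}

/-- from smallness to polynomial decay, for the local deficits -/
theorem boot (hP : Pcs3) (hX : Iid X) (μ : Seminorm ℝ (ℝ × ℝ)) (c C : ℝ) (L : ℕ)
    (hc : Cst μ c C L) (κ κ' : ℝ) (h0 : 0 < κ') (h1 : κ' < κ) (h2 : κ < 1) :
    ∃ ε : ℝ, 0 < ε ∧ ((∀ᶠ n : ℕ in atTop, G X μ L n ((n : ℝ) ^ (1 - κ)) ≤ ε) →
      ∃ q : ℝ, 0 < q ∧ ∀ᶠ n : ℕ in atTop, G X μ L n ((n : ℝ) ^ (1 - κ')) ≤ (n : ℝ) ^ (-q)) := by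
  have hcp := hc.c_pos
  have hCp := hc.C_pos
  have hk : 0 < 1 - κ := by linarith
  obtain ⟨a, ha⟩ := exists_nat_gt (2 / (1 - κ))
  have ha2 : 2 < a * (1 - κ) := by
    rwa [div_lt_iff₀ hk] at ha
  set S0 : ℝ := 2 * C * (L + 1) / c with hS
  have hL0 : (0 : ℝ) ≤ L := Nat.cast_nonneg L
  have hS0 : 0 < S0 := by positivity
  set B : ℝ := C * (L + 1) + 2 / c + (1 + S0) + 3 * 2 ^ a * (2 * (L : ℝ) + 1) ^ 2 +
    2 * (2 * (L : ℝ) + 1) ^ 2 + (2 * L + 5) with hB
  have hp1 : 0 < C * ((L : ℝ) + 1) := by positivity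
  have hp2 : 0 < 2 / c := by positivity
  have hp3 : 0 < 3 * 2 ^ a * (2 * (L : ℝ) + 1) ^ 2 := by positivity
  have hp4 : 0 < 2 * (2 * (L : ℝ) + 1) ^ 2 := by positivity
  have hB1 : 1 ≤ B := by linarith
  have hBpos : 0 < B := by linarith
  refine hP.BAN (G X μ L) (Mo X μ L a) a B hB1 (fun n u => G_nonneg μ L n u)
    (fun n g s hn hs => (hP.MOB Ω X hX μ c C L hc a n hn g s hs).1) ?_ ?_ ?_ κ κ' h0 h1 h2 ha2
  · intro n g s hn hs hBs
    refine (hP.MOB Ω X hX μ c C L hc a n hn g s hs).2.1 (le_trans ?_ hBs)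
    exact mul_le_mul_of_nonneg_right (by linarith) (Nat.cast_nonneg n)
  · intro n g s u hn hs hu hgu
    exact (hP.MOB Ω X hX μ c C L hc a n hn g s hs).2.2 u hu hgu
  · intro n N hn hnN g gN s S hg hgB hs hSp hBg hθ
    have hn0 : (0 : ℝ) < n := by exact_mod_cast hn
    have hN0 : (0 : ℝ) < N := by
      have : (n : ℝ) ≤ N := by exact_mod_cast hnN
      linarith
    have hNn : 1 ≤ (N : ℝ) / n := by
      rw [le_div_iff₀ hn0, one_mul]
      exact_mod_cast hnN
    set ρ : ℕ := ⌈(L : ℝ) * N / n + 1⌉₊ with hρ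
    have hρ1 : (L : ℝ) * N / n + 1 ≤ ρ := Nat.le_ceil _
    have hρ2 : (ρ : ℝ) < (L : ℝ) * N / n + 1 + 1 := by
      refine Nat.ceil_lt_add_one ?_
      positivity
    have hρB : 2 * (ρ : ℝ) + 1 ≤ B * (N / n) := by
      have e1 : (L : ℝ) * N / n = L * (N / n) := by ring
      rw [e1] at hρ2
      have h3 : (2 * (L : ℝ) + 5) * (N / n) ≤ B * (N / n) :=
        mul_le_mul_of_nonneg_right (by linarith) (by linarith)
      have h4 : (2 * (L : ℝ) + 5) * ((N : ℝ) / n) = 2 * (L * (N / n)) + 5 * (N / n) := by ring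
      linarith
    have hρ0 : (0 : ℝ) ≤ ρ := Nat.cast_nonneg ρ
    have hρBB : (2 * (ρ : ℝ) + 1) ^ 2 ≤ (B * (N / n)) ^ 2 :=
      pow_le_pow_left₀ (by linarith) hρB 2
    have hG0 := G_nonneg (X := X) μ L n g
    have hM0 := (hP.MOB Ω X hX μ c C L hc a n hn g s hs).1
    have hx1 : 2 * (2 * (L : ℝ) + 1) ^ 2 * s / S ≤ B * s / S := by
      refine div_le_div_of_nonneg_right ?_ hSp.le
      exact mul_le_mul_of_nonneg_right (by linarith) hs.le
    have hx0 : 0 ≤ 2 * (2 * (L : ℝ) + 1) ^ 2 * s / S := by positivity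
    have hθ1 : 2 ^ a * G X μ L n g + (2 * (2 * (L : ℝ) + 1) ^ 2 * s / S) ^ a * Mo X μ L a n g s ≤
        2 ^ a * G X μ L n g + (B * s / S) ^ a * Mo X μ L a n g s := by
      have := mul_le_mul_of_nonneg_right (pow_le_pow_left₀ hx0 hx1 a) hM0
      linarith
    have hθ0 : 0 ≤ 2 ^ a * G X μ L n g +
        (2 * (2 * (L : ℝ) + 1) ^ 2 * s / S) ^ a * Mo X μ L a n g s := by positivity
    have hθ2 : (2 * (ρ : ℝ) + 1) ^ 2 * (2 ^ a * G X μ L n g +
        (2 * (2 * (L : ℝ) + 1) ^ 2 * s / S) ^ a * Mo X μ L a n g s) ≤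
        (B * (N / n)) ^ 2 * (2 ^ a * G X μ L n g + (B * s / S) ^ a * Mo X μ L a n g s) :=
      mul_le_mul hρBB hθ1 hθ0 (by positivity)
    have h3 := hP.MOR Ω X hX μ c C L hc a n N hn (hn.trans hnN) g gN s S ρ hg ?_ hs hSp hρ1 ?_
      (hθ2.trans hθ)
    · refine h3.trans ?_
      have h4 : 3 * 2 ^ a * (2 * (L : ℝ) + 1) ^ 2 ≤ B := by linarith
      have h5 := mul_le_mul h4 hθ2 (by positivity) hBpos.le
      linarith
    · refine hgB.trans ?_
      rw [div_le_iff₀ hBpos]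
      have h4 : 2 ≤ B * c := by
        have : 2 / c ≤ B := by linarith
        rwa [div_le_iff₀ hcp] at this
      have h5 := mul_le_mul_of_nonneg_right h4 hn0.le
      have h6 : c * (n : ℝ) / 2 * B = B * c * n / 2 := by ring
      linarith
    · refine le_trans ?_ hBg
      refine mul_le_mul_of_nonneg_right ?_ hg
      have e1 : 2 * (C * (L + 1) * N) / (c * n) = S0 * (N / n) := by
        rw [hS]
        field_simp
      rw [e1]
      have h3 : (1 + S0) * ((N : ℝ) / n) ≤ B * (N / n) :=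
        mul_le_mul_of_nonneg_right (by linarith) (by linarith)
      have h4 : (1 + S0) * ((N : ℝ) / n) = N / n + S0 * (N / n) := by ring
      linarith

/-- from polynomial decay of the local deficits to the large deviation bound -/
theorem toLDG (hQ : Pcs) (hX : Iid X) (μ : Seminorm ℝ (ℝ × ℝ)) (c C : ℝ) (L : ℕ)
    (hc : Cst μ c C L) (κ1 κ' q1 : ℝ) (h0 : 0 < κ') (h1 : κ' < κ1) (h2 : κ1 < 1)
    (hq1 : 0 < q1)
    (hG1 : ∀ᶠ n : ℕ in atTop, G X μ L n ((n : ℝ) ^ (1 - κ1)) ≤ (n : ℝ) ^ (-q1)) :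
    LD (fun ω v => D (env X ω) 0 v) μ κ' := by
  have hSTEP := hQ.STEP
  have hFEW := hQ.FEW
  have hEMB := hQ.EMB
  have hITG := hQ.ITG
  have hITT := hQ.ITT
  have hcp := hc.c_pos
  have hCp := hc.C_pos
  set κ2 := (κ' + κ1) / 2 with hκ2
  obtain ⟨B0, hB01, hB0⟩ := hSTEP Ω X hX μ c C L hc
  -- the constant
  set S : ℝ := 2 * C * (L + 1) / c with hS
  have hL0 : (0 : ℝ) ≤ L := Nat.cast_nonneg L
  have hS0 : 0 < S := by positivity
  set B : ℝ := B0 + C * (L + 1) + 2 / c + 2 * (1 + S) + 3 * (2 * (L : ℝ) + 1) ^ 2 + 3 + S with hB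
  have hp1 : 0 < C * ((L : ℝ) + 1) := by positivity
  have hp2 : 0 < 2 / c := by positivity
  have hp3 : 0 < 3 * (2 * (L : ℝ) + 1) ^ 2 := by positivity
  have hB1 : 1 ≤ B := by linarith
  have hBpos : 0 < B := by linarith
  have hBB0 : B0 ≤ B := by linarith
  have hBC : C * (L + 1) ≤ B := by linarith
  have hBc : 2 / c ≤ B := by linarith
  -- the recursion
  have hrec : ∀ n N : ℕ, 1 ≤ n → n ≤ N → ∀ (g u p : ℝ) (j ρ : ℕ), 1 ≤ j → 0 ≤ g → g ≤ n / B →
      0 < u → 0 < p → G X μ L n g ≤ p → (2 * (ρ : ℝ) + 1) ^ 2 * p ≤ 1 → B * (N / n) * g ≤ u →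
      B * (N / n) + j ≤ ρ →
      G X μ L N u ≤ B * ((2 * (ρ : ℝ) + 1) ^ 2 * p) ^ ((j : ℝ) / ((2 * L + 1) ^ 2 : ℕ)) +
        (2 * (ρ : ℝ) + 1) ^ 2 * G X μ L n (u / (4 * j)) := by
    intro n N hn hnN g u p j ρ hj hg hgB hu hp hGp hρ hBg hBρ
    have hn0 : (0 : ℝ) < n := by exact_mod_cast hn
    have hN0 : (0 : ℝ) < N := by
      have : (n : ℝ) ≤ N := by exact_mod_cast hnN
      linarith
    have hNn : 1 ≤ (N : ℝ) / n := by
      rw [le_div_iff₀ hn0, one_mul]
      exact_mod_cast hnN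
    have hK : 1 + 2 * (C * (L + 1) * N) / (c * n) ≤ (1 + S) * (N / n) := by
      have : 2 * (C * (L + 1) * N) / (c * n) = S * (N / n) := by
        rw [hS]
        field_simp
      rw [this, add_mul, one_mul]
      linarith
    have h3 := hFEW Ω X hX μ c C L hc n N hn (hn.trans hnN) g u p j ρ hj hg ?_ hu hp hGp hρ ?_ ?_
    · refine h3.trans ?_
      have e1 : (((2 * L + 1) ^ 2 : ℕ) : ℝ) = (2 * (L : ℝ) + 1) ^ 2 := by push_cast; ring
      rw [e1]
      have h4 : 0 ≤ ((2 * (ρ : ℝ) + 1) ^ 2 * p) ^ ((j : ℝ) / (2 * (L : ℝ) + 1) ^ 2) := by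
        positivity
      have h5 : 3 * (2 * (L : ℝ) + 1) ^ 2 ≤ B := by linarith
      have := mul_le_mul_of_nonneg_right h5 h4
      linarith
    · refine hgB.trans ?_
      rw [div_le_iff₀ hBpos]
      have h4 : 2 ≤ B * c := by
        rw [div_le_iff₀ hcp] at hBc
        linarith
      have h5 := mul_le_mul_of_nonneg_right h4 hn0.le
      have h6 : c * (n : ℝ) / 2 * B = B * c * n / 2 := by ring
      linarith
    · have h4 : (1 + 2 * (C * (L + 1) * N) / (c * n)) * g ≤ (1 + S) * (N / n) * g :=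
        mul_le_mul_of_nonneg_right hK hg
      have h5 : 2 * (1 + S) * ((N : ℝ) / n * g) ≤ B * ((N : ℝ) / n * g) :=
        mul_le_mul_of_nonneg_right (by linarith) (by positivity)
      have h6 : 2 * (1 + S) * ((N : ℝ) / n * g) = 2 * ((1 + S) * (N / n) * g) := by ring
      have h7 : B * ((N : ℝ) / n * g) = B * (N / n) * g := by ring
      linarith
    · have h6 : (3 + S) * ((N : ℝ) / n) ≤ B * (N / n) :=
        mul_le_mul_of_nonneg_right (by linarith) (by linarith)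
      have h7 : (3 + S) * ((N : ℝ) / n) = N / n + (1 + S) * (N / n) + N / n := by ring
      linarith
  obtain ⟨e, he, hG2⟩ := hITG (G X μ L) (fun n u => G_nonneg μ L n u) (fun n => G_anti μ L n) B
    ((2 * L + 1) ^ 2) hB1 (Nat.one_le_iff_ne_zero.2 (by positivity))
    (fun n u hn hu => G_zero hc hBC n u hn hu) hrec κ1 κ2 q1 (by linarith) (by linarith)
    (by linarith) hq1 hG1
  have hstep : ∀ δ : ℝ, 0 < δ → δ ≤ 1 → ∀ n : ℕ, 1 ≤ n → ∀ (y : ℝ) (I : ℕ), 0 < y →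
      δ * n / B ≤ y → B * n ≤ 2 ^ I * y → Sm (G X μ L) n (δ * n / B) (B / (δ * n)) y I ≤ 1 / B →
      (∀ m : ℕ, n ≤ m → G X μ L m (δ * m) ≤ B * m ^ 2 * Real.exp (-((m : ℝ) / n))) ∧
      ∀ v : ℤ × ℤ, (n : ℝ) ≤ μ (Pool.Agent.N662.FP.em v) →
      (volume : Measure Ω).real {ω | D (env X ω) 0 v ≤ (1 - δ) * μ (Pool.Agent.N662.FP.em v)} ≤
        B * Real.exp (-(μ (Pool.Agent.N662.FP.em v) / n)) := by
    intro δ hδ hδ1 n hn y I hy hgy hBy hSm
    have hn0 : (0 : ℝ) < n := by exact_mod_cast hn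
    refine hB0 B hBB0 δ hδ hδ1 n hn ?_
    refine (hEMB Ω X hX μ c C L hc n hn (δ * n / B) (B / (δ * n)) y I (by positivity) hy hgy
      ?_).trans (ENNReal.ofReal_le_ofReal hSm)
    exact (mul_le_mul_of_nonneg_right hBC hn0.le).trans hBy
  obtain ⟨A, hA1, hA⟩ := hITT (G X μ L) (fun n u => G_nonneg μ L n u)
    (fun n u => G_le_one μ L n u) (fun n => G_anti μ L n) B hB1
    (fun n u hn hu => G_zero hc hBC n u hn hu)
    (fun δ hδ hδ1 n hn y I hy hgy hBy hSm => (hstep δ hδ hδ1 n hn y I hy hgy hBy hSm).1)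
    κ2 κ' e h0 (by linarith) (by linarith) he hG2
  refine ⟨A + B + 3, by linarith, ?_⟩
  intro v δ hδ hδ1
  obtain ⟨n, hn, hnA, y, I, hy, hgy, hBy, hSm⟩ := hA δ hδ hδ1
  have hn0 : (0 : ℝ) < n := by exact_mod_cast hn
  have hμ0 : 0 ≤ μ (Pool.Agent.N662.FP.em v) := apply_nonneg μ _
  have hδp : 0 < δ ^ (1 / κ') := Real.rpow_pos_of_pos hδ _
  have hnδ : (n : ℝ) * δ ^ (1 / κ') ≤ A := by
    have := mul_le_mul_of_nonneg_right hnA hδp.le
    rwa [mul_assoc, ← Real.rpow_add hδ, neg_add_cancel, Real.rpow_zero, mul_one] at this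
  set E := δ ^ (1 / κ') * μ (Pool.Agent.N662.FP.em v) with hE
  have hE0 : 0 ≤ E := by positivity
  have hEA : E / (A + B + 3) ≤ E / A :=
    div_le_div_of_nonneg_left hE0 (by linarith) (by linarith)
  by_cases hv : (n : ℝ) ≤ μ (Pool.Agent.N662.FP.em v)
  · refine ((hstep δ hδ hδ1 n hn y I hy hgy hBy hSm).2 v hv).trans ?_
    have h3 : E / A ≤ μ (Pool.Agent.N662.FP.em v) / n := by
      rw [div_le_div_iff₀ (by linarith) hn0, hE]
      have h4 := mul_le_mul_of_nonneg_right hnδ hμ0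
      have h5 : δ ^ (1 / κ') * μ (Pool.Agent.N662.FP.em v) * n =
        n * δ ^ (1 / κ') * μ (Pool.Agent.N662.FP.em v) := by ring
      linarith
    have h4 : Real.exp (-(μ (Pool.Agent.N662.FP.em v) / n)) ≤ Real.exp (-(E / (A + B + 3))) :=
      Real.exp_le_exp.2 (by linarith)
    have h5 := Real.exp_pos (-(E / (A + B + 3)))
    have h6 := mul_le_mul_of_nonneg_left h4 hBpos.le
    have h7 : B * Real.exp (-(E / (A + B + 3))) ≤ (A + B + 3) * Real.exp (-(E / (A + B + 3))) :=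
      mul_le_mul_of_nonneg_right (by linarith) h5.le
    exact h6.trans h7
  · have hv' := (not_le.1 hv).le
    have h3 : E ≤ A := by
      rw [hE]
      refine le_trans ?_ hnδ
      rw [mul_comm]
      exact mul_le_mul_of_nonneg_right hv' hδp.le
    have h4 : E / (A + B + 3) ≤ 1 := by
      rw [div_le_one (by linarith)]
      linarith
    have h5 : Real.exp (-1) ≤ Real.exp (-(E / (A + B + 3))) := Real.exp_le_exp.2 (by linarith)
    have h6 : 1 ≤ 3 * Real.exp (-1) := by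
      rw [Real.exp_neg]
      have := Real.exp_one_lt_d9
      have h7 := Real.exp_pos 1
      rw [← div_eq_mul_inv, le_div_iff₀ h7]
      linarith
    have h8 := Real.exp_pos (-(E / (A + B + 3)))
    refine (measureReal_le_one).trans (h6.trans ?_)
    have h9 : 3 * Real.exp (-1) ≤ 3 * Real.exp (-(E / (A + B + 3))) := by linarith
    have h10 : 3 * Real.exp (-(E / (A + B + 3))) ≤ (A + B + 3) * Real.exp (-(E / (A + B + 3))) :=
      mul_le_mul_of_nonneg_right (by linarith) h8.le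
    exact h9.trans h10

/-- stretched exponential decay of the box event -/
def SE (X : Sym2 (ℤ × ℤ) → Ω → ℝ) (μ : Seminorm ℝ (ℝ × ℝ)) (κ : ℝ) : Prop :=
  ∃ c : ℝ, 0 < c ∧ ∀ᶠ t : ℝ in atTop, (volume : Measure Ω).real (Short X μ κ t) ≤
    Real.exp (-(t ^ c))

/-- one exponent, box version -/
theorem oneBox (hQ : Pcs) (hP : Pcs3) (hX : Iid X) (μ : Seminorm ℝ (ℝ × ℝ))
    (hμ : ∀ x, μ x = 0 → x = 0) (κ κ' : ℝ) (h0 : 0 < κ') (h1 : κ' < κ) (h2 : κ < 1) :
    ∃ ε : ℝ, 0 < ε ∧ ((∀ᶠ t : ℝ in atTop, (volume : Measure Ω).real (Short X μ κ t) ≤ ε) →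
      OE (fun ω v => D (env X ω) 0 v) μ κ' ∧ LD (fun ω v => D (env X ω) 0 v) μ κ' ∧
      SE X μ κ') := by
  obtain ⟨c, C, L, hc⟩ := t_CST μ hμ
  set κa := κ' + 4 * (κ - κ') / 5 with hκa
  set κb := κ' + 3 * (κ - κ') / 5 with hκb
  set κc := κ' + 2 * (κ - κ') / 5 with hκc
  obtain ⟨ε, hε, hb⟩ := boot hP hX μ c C L hc κa κb (by linarith) (by linarith) (by linarith)
  refine ⟨ε, hε, fun hS => ?_⟩
  have h3 := hP.STG Ω X hX μ c C L hc κ κa ε (by linarith) (by linarith) h2 hS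
  obtain ⟨q, hq, h4⟩ := hb h3
  have h5 := toLDG hQ hX μ c C L hc κb κc q (by linarith) (by linarith) (by linarith) hq h4
  have h6 := toLDG hQ hX μ c C L hc κb κ' q h0 (by linarith) (by linarith) hq h4
  obtain ⟨A, hA, hh⟩ := h5
  exact ⟨hQ.OUT Ω _ μ c C L hc κc κ' A h0 (by linarith) (by linarith) hA hh, h6,
    hP.LBB Ω X hX μ c C L hc κ' κc A h0 (by linarith) (by linarith) hA hh⟩

/-- two points of the box of radius `t` whose passage time differs from `μ` by more than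
`t ^ (1 - κ)` -/
def Far (X : Sym2 (ℤ × ℤ) → Ω → ℝ) (μ : Seminorm ℝ (ℝ × ℝ)) (κ t : ℝ) : Set Ω :=
  {ω | ∃ u v : ℤ × ℤ, (nm u : ℝ) ≤ t ∧ (nm v : ℝ) ≤ t ∧
    t ^ (1 - κ) < |D (env X ω) u v - μ (Pool.Agent.N662.FP.em (v - u))|}

omit [MeasureSpace Ω] [IsProbabilityMeasure (volume : Measure Ω)] in
theorem Short_Far (μ : Seminorm ℝ (ℝ × ℝ)) (κ t : ℝ) : Short X μ κ t ⊆ Far X μ κ t := by
  rintro ω ⟨u, v, hu, hv, h⟩
  refine ⟨u, v, hu, hv, ?_⟩
  rw [abs_sub_comm]
  exact lt_of_lt_of_le (by linarith) (le_abs_self _)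

omit [MeasureSpace Ω] [IsProbabilityMeasure (volume : Measure Ω)] in
theorem Far_sub (μ : Seminorm ℝ (ℝ × ℝ)) (κ t : ℝ) :
    Far X μ κ t ⊆ Short X μ κ t ∪ Long X μ κ t := by
  rintro ω ⟨u, v, hu, hv, h⟩
  rcases lt_abs.1 h with h | h
  · exact Or.inr ⟨u, v, hu, hv, by linarith⟩
  · exact Or.inl ⟨u, v, hu, hv, by linarith⟩

/-- stretched exponential decay tends to zero -/
theorem tend0 {f : ℝ → ℝ} (h0 : ∀ t, 0 ≤ f t) (h : ∃ c : ℝ, 0 < c ∧ ∀ᶠ t : ℝ in atTop,
    f t ≤ Real.exp (-(t ^ c))) : Tendsto f atTop (𝓝 0) := by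
  obtain ⟨c, hc, hh⟩ := h
  have h1 : Tendsto (fun t : ℝ => Real.exp (-(t ^ c))) atTop (𝓝 0) := by
    have := (tendsto_rpow_atTop hc)
    exact Real.tendsto_exp_neg_atTop_nhds_zero.comp this
  exact squeeze_zero' (Eventually.of_forall h0) hh h1

theorem outer_box (hQ : Pcs) (hP : Pcs3) (hX : Iid X) (μ : Seminorm ℝ (ℝ × ℝ))
    (hμ : ∀ x, μ x = 0 → x = 0) (K : ℝ) (hK : K ≤ 1) :
    List.TFAE [
      ∀ κ : ℝ, 0 < κ → κ < K → Tendsto (fun t : ℝ => (volume : Measure Ω).real (Short X μ κ t))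
        atTop (𝓝 0),
      ∀ κ : ℝ, 0 < κ → κ < K → SE X μ κ,
      ∀ κ : ℝ, 0 < κ → κ < K → LD (fun ω v => D (env X ω) 0 v) μ κ] := by
  obtain ⟨c, C, L, hc⟩ := t_CST μ hμ
  tfae_have 1 → 3 := by
    intro h κ h0 h1
    obtain ⟨ε, hε, hh⟩ := oneBox hQ hP hX μ hμ ((κ + K) / 2) κ h0 (by linarith) (by linarith)
    exact (hh ((h ((κ + K) / 2) (by linarith) (by linarith)).eventually_le_const hε)).2.1
  tfae_have 3 → 2 := by
    intro h κ h0 h1
    obtain ⟨A, hA, hh⟩ := h ((κ + K) / 2) (by linarith) (by linarith)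
    exact hP.LBB Ω X hX μ c C L hc κ ((κ + K) / 2) A h0 (by linarith) (by linarith) hA hh
  tfae_have 2 → 1 := fun h κ h0 h1 => tend0 (fun t => measureReal_nonneg) (h κ h0 h1)
  tfae_finish

/-- exponential upper tails at one point from the first moment -/
theorem upT (μ : Seminorm ℝ (ℝ × ℝ)) (hX : Iid X)
    (hG : Good (fun ω v => D (env X ω) 0 v) μ) (κ : ℝ)
    (hFM : FM (fun ω v => D (env X ω) 0 v) μ κ) : ∃ R : ℝ, 0 < R ∧
    ∀ (v : ℤ × ℤ) (u : ℝ), 0 ≤ u →
    (volume : Measure Ω).real {ω | μ (Pool.Agent.N662.FP.em v) +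
      R * (1 + μ (Pool.Agent.N662.FP.em v)) ^ (1 - κ) + u ≤
      D (env X ω) 0 v} ≤ Real.exp (-(u / (R * (1 + μ (Pool.Agent.N662.FP.em v)) ^ (1 - κ)))) := by
  obtain ⟨A, hA⟩ := hFM
  set R : ℝ := 8 * (|A| + 1) with hR
  have hR0 : 0 < R := by positivity
  refine ⟨R, hR0, fun v u hu => ?_⟩
  have hm0 : 0 ≤ μ (Pool.Agent.N662.FP.em v) := apply_nonneg μ _
  set w := (1 + μ (Pool.Agent.N662.FP.em v)) ^ (1 - κ) with hw
  have hw0 : 0 < w := Real.rpow_pos_of_pos (by linarith) _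
  set T : Ω → ℝ := fun ω => D (env X ω) 0 v with hT
  have hiT : Integrable T (volume : Measure Ω) := cINT Ω X hX 0 v
  have hFMv : ∫ ω, |T ω - μ (Pool.Agent.N662.FP.em v)| ∂(volume : Measure Ω) ≤ A * w := hA v
  have hr0 : 0 < R * w := by positivity
  have h8 : (volume : Measure Ω).real {ω | μ (Pool.Agent.N662.FP.em v) + R * w ≤ T ω} ≤
      Real.exp (-(1 + 1)) := by
    have h3 := mk T hiT (μ (Pool.Agent.N662.FP.em v)) (R * w) hr0
    have h4 : (volume : Measure Ω).real {ω | μ (Pool.Agent.N662.FP.em v) + R * w ≤ T ω} ≤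
        (volume : Measure Ω).real {ω | R * w ≤ |T ω - μ (Pool.Agent.N662.FP.em v)|} := by
      refine measureReal_mono (fun ω hω => ?_) (measure_ne_top _ _)
      have h7 : μ (Pool.Agent.N662.FP.em v) + R * w ≤ T ω := hω
      show R * w ≤ |T ω - μ (Pool.Agent.N662.FP.em v)|
      exact (by linarith : R * w ≤ T ω - μ (Pool.Agent.N662.FP.em v)).trans (le_abs_self _)
    refine h4.trans (h3.trans ?_)
    have h5 : (∫ ω, |T ω - μ (Pool.Agent.N662.FP.em v)| ∂(volume : Measure Ω)) / (R * w) ≤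
        1 / 8 := by
      rw [div_le_iff₀ hr0, hR]
      have h6 : A * w ≤ |A| * w := mul_le_mul_of_nonneg_right (le_abs_self A) hw0.le
      have h7 : 1 / 8 * (8 * (|A| + 1) * w) = |A| * w + w := by ring
      linarith
    refine h5.trans ?_
    have h6 : Real.exp (-(1 + 1)) = Real.exp (-1) * Real.exp (-1) := by
      rw [← Real.exp_add]; norm_num
    have h7 : (0.36 : ℝ) ≤ Real.exp (-1) := by
      rw [Real.exp_neg]
      have h9 := Real.exp_one_lt_d9
      have h10 := Real.exp_pos 1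
      rw [← one_div, le_div_iff₀ h10]
      linarith
    rw [h6]
    nlinarith
  have hup := (hG.one v (R * w) 1 hr0 one_pos h8).1 u hu
  refine hup.trans (Real.exp_le_exp.2 ?_)
  have : 0 ≤ u / (R * w) := by positivity
  have e1 : 1 * u / (R * w) = u / (R * w) := by rw [one_mul]
  rw [e1]
  linarith

theorem nm_cofinite : Tendsto (fun v : ℤ × ℤ => (nm v : ℝ)) cofinite atTop := by
  have h1 : Tendsto (fun v : ℤ × ℤ => nm v) cofinite atTop := by
    rw [Filter.tendsto_atTop]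
    intro b
    rw [Filter.eventually_cofinite]
    refine (((Finset.Icc (-(b : ℤ)) b) ×ˢ (Finset.Icc (-(b : ℤ)) b)).finite_toSet).subset ?_
    intro v hv
    have hv' : ¬ b ≤ nm v := hv
    have h3 := abs_le_nm1 v
    have h4 := abs_le_nm2 v
    have h5 : (nm v : ℤ) ≤ b := by
      have : nm v ≤ b := by omega
      exact_mod_cast this
    simp only [Finset.coe_product, Set.mem_prod, Finset.mem_coe, Finset.mem_Icc]
    exact ⟨abs_le.1 (h3.trans h5), abs_le.1 (h4.trans h5)⟩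
  exact tendsto_natCast_atTop_atTop.comp h1

theorem full_box (hQ : Pcs) (hP : Pcs3) (hX : Iid X) (μ : Seminorm ℝ (ℝ × ℝ))
    (hG : Good (fun ω v => D (env X ω) 0 v) μ) (K : ℝ) (hK : K < 1) :
    List.TFAE [
      ∀ κ : ℝ, 0 < κ → κ < K → Tendsto (fun t : ℝ => (volume : Measure Ω).real (Far X μ κ t))
        atTop (𝓝 0),
      ∀ κ : ℝ, 0 < κ → κ < K → ∃ c : ℝ, 0 < c ∧ ∀ᶠ t : ℝ in atTop,
        (volume : Measure Ω).real (Far X μ κ t) ≤ Real.exp (-(t ^ c)),
      ∀ κ : ℝ, 0 < κ → κ < K → LD (fun ω v => D (env X ω) 0 v) μ κ ∧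
        FM (fun ω v => D (env X ω) 0 v) μ κ] := by
  obtain ⟨c, C, L, hc⟩ := t_CST μ hG.norm
  have hI := tfae cNORM cDD2 cEE hG K hK
  have hO := outer_box hQ hP hX μ hG.norm K hK.le
  tfae_have 2 → 1 := fun h κ h0 h1 => tend0 (fun t => measureReal_nonneg) (h κ h0 h1)
  tfae_have 3 → 2 := by
    intro h κ h0 h1
    obtain ⟨⟨A, hA, hh⟩, hFM⟩ := h ((κ + K) / 2) (by linarith) (by linarith)
    obtain ⟨e1, he1, hs⟩ := hP.LBB Ω X hX μ c C L hc κ ((κ + K) / 2) A h0 (by linarith)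
      (by linarith) hA hh
    obtain ⟨R, hR, hup⟩ := upT μ hX hG _ hFM
    obtain ⟨e2, he2, hl⟩ := hP.UBB Ω X hX μ c C L hc κ ((κ + K) / 2) R h0 (by linarith)
      (by linarith) hR hup
    set e := min e1 e2 with he
    have he0 : 0 < e := lt_min he1 he2
    refine ⟨e / 2, by positivity, ?_⟩
    have h5 : ∀ᶠ t : ℝ in atTop, Real.log 2 ≤ t ^ (e / 2) * (t ^ (e / 2) - 1) := by
      have h6 := tendsto_rpow_atTop (by positivity : 0 < e / 2)
      filter_upwards [h6.eventually_ge_atTop 2] with t ht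
      have h7 : Real.log 2 ≤ 1 := by linarith [Real.log_two_lt_d9]
      nlinarith
    filter_upwards [hs, hl, h5, eventually_ge_atTop 1] with t hs1 hl1 h51 ht1
    have ht0 : 0 < t := by linarith
    have hsum : (volume : Measure Ω).real (Far X μ κ t) ≤
        (volume : Measure Ω).real (Short X μ κ t) + (volume : Measure Ω).real (Long X μ κ t) :=
      (measureReal_mono (Far_sub μ κ t) (measure_ne_top _ _)).trans (measureReal_union_le _ _)
    have h6 : Real.exp (-(t ^ e1)) ≤ Real.exp (-(t ^ e)) :=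
      Real.exp_le_exp.2 (neg_le_neg (Real.rpow_le_rpow_of_exponent_le ht1 (min_le_left _ _)))
    have h7 : Real.exp (-(t ^ e2)) ≤ Real.exp (-(t ^ e)) :=
      Real.exp_le_exp.2 (neg_le_neg (Real.rpow_le_rpow_of_exponent_le ht1 (min_le_right _ _)))
    have h8 : 2 * Real.exp (-(t ^ e)) ≤ Real.exp (-(t ^ (e / 2))) := by
      have e3 : (2 : ℝ) = Real.exp (Real.log 2) := (Real.exp_log (by norm_num)).symm
      have e4 : t ^ e = t ^ (e / 2) * t ^ (e / 2) := by
        rw [← Real.rpow_add ht0]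
        congr 1
        ring
      calc 2 * Real.exp (-(t ^ e)) = Real.exp (Real.log 2 + -(t ^ e)) := by
            rw [Real.exp_add, ← e3]
        _ ≤ Real.exp (-(t ^ (e / 2))) := by
            refine Real.exp_le_exp.2 ?_
            rw [e4]
            nlinarith
    linarith
  tfae_have 1 → 3 := by
    intro h
    have h3 := (hO.out 0 2).1 (fun κ h0 h1 => by
      refine squeeze_zero (fun t => measureReal_nonneg) (fun t => ?_) (h κ h0 h1)
      exact measureReal_mono (Short_Far μ κ t) (measure_ne_top _ _))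
    have h4 : ∀ κ : ℝ, 0 < κ → κ < K → FM (fun ω v => D (env X ω) 0 v) μ κ := by
      refine (hI.out 5 4).1 ?_
      intro κ h0 h1 ε hε
      set κm := (κ + K) / 2 with hκm
      have hf := (h κm (by linarith) (by linarith)).comp nm_cofinite
      refine squeeze_zero' (Eventually.of_forall fun v => measureReal_nonneg) ?_ hf
      -- eventually `ε (1 + μ v)^(1-κ) > nm v ^ (1-κm)`
      have hcp := hc.c_pos
      set c0 := min c 1 with hc0
      have hc00 : 0 < c0 := lt_min hcp one_pos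
      have hgap : 0 < κm - κ := by linarith
      have h5 : ∀ᶠ v : ℤ × ℤ in cofinite, 1 / (ε * c0) < (nm v : ℝ) ^ (κm - κ) :=
        ((tendsto_rpow_atTop hgap).comp nm_cofinite).eventually_gt_atTop _
      have h6 : ∀ᶠ v : ℤ × ℤ in cofinite, (1 : ℝ) ≤ nm v := nm_cofinite.eventually_ge_atTop 1
      filter_upwards [h5, h6] with v h51 h61
      refine measureReal_mono ?_ (measure_ne_top _ _)
      intro ω (hω : ε * (1 + μ (Pool.Agent.N662.FP.em v)) ^ (1 - κ) ≤
        |D (env X ω) 0 v - μ (Pool.Agent.N662.FP.em v)|)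
      refine ⟨0, v, ?_, le_rfl, ?_⟩
      · show (nm (0 : ℤ × ℤ) : ℝ) ≤ (nm v : ℝ)
        rw [nm_zero, Nat.cast_zero]
        exact Nat.cast_nonneg _
      · rw [sub_zero]
        refine lt_of_lt_of_le ?_ hω
        have hn0 : (0 : ℝ) < nm v := by linarith
        have h7 : c0 * (nm v : ℝ) ≤ 1 + μ (Pool.Agent.N662.FP.em v) := by
          have h8 := hc.lo v
          have h9 : c0 * (nm v : ℝ) ≤ c * nm v :=
            mul_le_mul_of_nonneg_right (min_le_left _ _) hn0.le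
          linarith
        have h8 : (c0 * (nm v : ℝ)) ^ (1 - κ) ≤ (1 + μ (Pool.Agent.N662.FP.em v)) ^ (1 - κ) :=
          Real.rpow_le_rpow (by positivity) h7 (by linarith)
        have h9 : (c0 * (nm v : ℝ)) ^ (1 - κ) = c0 ^ (1 - κ) * (nm v : ℝ) ^ (1 - κ) :=
          Real.mul_rpow hc00.le hn0.le
        have h10 : c0 ≤ c0 ^ (1 - κ) := by
          conv_lhs => rw [← Real.rpow_one c0]
          exact Real.rpow_le_rpow_of_exponent_ge hc00 (min_le_right _ _) (by linarith)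
        have h11 : (nm v : ℝ) ^ (1 - κ) = (nm v : ℝ) ^ (1 - κm) * (nm v : ℝ) ^ (κm - κ) := by
          rw [← Real.rpow_add hn0]
          congr 1
          ring
        have h12 : 0 < (nm v : ℝ) ^ (1 - κm) := Real.rpow_pos_of_pos hn0 _
        have h13 : 1 < ε * c0 * (nm v : ℝ) ^ (κm - κ) := by
          rw [div_lt_iff₀ (by positivity)] at h51
          linarith
        calc (nm v : ℝ) ^ (1 - κm) = (nm v : ℝ) ^ (1 - κm) * 1 := (mul_one _).symm
          _ < (nm v : ℝ) ^ (1 - κm) * (ε * c0 * (nm v : ℝ) ^ (κm - κ)) :=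
              mul_lt_mul_of_pos_left h13 h12
          _ = ε * (c0 * (nm v : ℝ) ^ (1 - κ)) := by rw [h11]; ring
          _ ≤ ε * (c0 ^ (1 - κ) * (nm v : ℝ) ^ (1 - κ)) := by
              refine mul_le_mul_of_nonneg_left ?_ hε.le
              exact mul_le_mul_of_nonneg_right h10 (Real.rpow_nonneg hn0.le _)
          _ ≤ ε * (1 + μ (Pool.Agent.N662.FP.em v)) ^ (1 - κ) := by
              rw [← h9]
              exact mul_le_mul_of_nonneg_left h8 hε.le
    exact fun κ h0 h1 => ⟨h3 κ h0 h1, h4 κ h0 h1⟩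
  tfae_finish

end

end Pool.Agent.Run7.h472.OH
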