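import Pool.Agent.Run7.h472.OH.Asm6

/-! Assembly, seventh part: one exponent, both halves, in probability. -/

set_option autoImplicit false
open MeasureTheory ProbabilityTheory Filter Set
open scoped ENNReal Pointwise Topology

namespace Pool.Agent.Run7.h472.OH

open Pool.Agent.N662.FP

section
variable {Ω : Type} [MeasureSpace Ω] [IsProbabilityMeasure (volume : Measure Ω)]
variable {X : Sym2 (ℤ × ℤ) → Ω → ℝ}

/-- the one-point upper tail from the box event -/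
theorem farUp (hX : Iid X) (μ : Seminorm ℝ (ℝ × ℝ)) (c C : ℝ) (L : ℕ) (hc : Cst μ c C L)
    (κ : ℝ) (h0 : 0 < κ) (h1 : κ < 1)
    (hF : ∀ᶠ t : ℝ in atTop, (volume : Measure Ω).real (Far X μ κ t) ≤ 1 / 8) :
    ∃ R : ℝ, 0 < R ∧ ∀ v : ℤ × ℤ, (volume : Measure Ω).real {ω | μ (Pool.Agent.N662.FP.em v) +
      R * (1 + μ (Pool.Agent.N662.FP.em v)) ^ (1 - κ) ≤ D (env X ω) 0 v} ≤ 1 / 8 := by
  have hcp := hc.c_pos
  obtain ⟨t0, ht0⟩ := eventually_atTop.1 hF
  obtain ⟨N0, hN0⟩ := exists_nat_gt (max t0 1)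
  have hN1 : t0 < N0 := lt_of_le_of_lt (le_max_left _ _) hN0
  have hN2 : (1 : ℝ) < N0 := lt_of_le_of_lt (le_max_right _ _) hN0
  set F : Finset (ℤ × ℤ) := (Finset.Icc (-(N0 : ℤ)) N0) ×ˢ (Finset.Icc (-(N0 : ℤ)) N0) with hFd
  set E : ℤ × ℤ → ℝ := fun v =>
    ∫ ω, |D (env X ω) 0 v - μ (Pool.Agent.N662.FP.em v)| ∂(volume : Measure Ω) with hE
  have hE0 : ∀ v, 0 ≤ E v := fun v => integral_nonneg fun ω => abs_nonneg _
  set c0 := min c 1 with hc0
  have hc00 : 0 < c0 := lt_min hcp one_pos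
  set R : ℝ := 8 * ∑ v ∈ F, E v + 2 / c0 + 1 with hR
  have hs0 : 0 ≤ ∑ v ∈ F, E v := Finset.sum_nonneg fun v _ => hE0 v
  have hc1 : 0 < 2 / c0 := by positivity
  have hR0 : 0 < R := by linarith
  refine ⟨R, hR0, fun v => ?_⟩
  have hm0 : 0 ≤ μ (Pool.Agent.N662.FP.em v) := apply_nonneg μ _
  set w := (1 + μ (Pool.Agent.N662.FP.em v)) ^ (1 - κ) with hw
  have hw1 : 1 ≤ w := Real.one_le_rpow (by linarith) (by linarith)
  have hr0 : 0 < R * w := by positivity
  by_cases hv : nm v ≤ N0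
  · have hvF : v ∈ F := by
      have h3 := abs_le_nm1 v
      have h4 := abs_le_nm2 v
      have h5 : (nm v : ℤ) ≤ N0 := by exact_mod_cast hv
      rw [hFd, Finset.mem_product, Finset.mem_Icc, Finset.mem_Icc]
      exact ⟨abs_le.1 (h3.trans h5), abs_le.1 (h4.trans h5)⟩
    have h3 := mk (fun ω => D (env X ω) 0 v) (cINT Ω X hX 0 v) (μ (Pool.Agent.N662.FP.em v))
      (R * w) hr0
    have h4 : (volume : Measure Ω).real {ω | μ (Pool.Agent.N662.FP.em v) + R * w ≤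
        D (env X ω) 0 v} ≤ (volume : Measure Ω).real
          {ω | R * w ≤ |D (env X ω) 0 v - μ (Pool.Agent.N662.FP.em v)|} := by
      refine measureReal_mono (fun ω hω => ?_) (measure_ne_top _ _)
      have h7 : μ (Pool.Agent.N662.FP.em v) + R * w ≤ D (env X ω) 0 v := hω
      show R * w ≤ |D (env X ω) 0 v - μ (Pool.Agent.N662.FP.em v)|
      exact (by linarith : R * w ≤ D (env X ω) 0 v - μ (Pool.Agent.N662.FP.em v)).trans
        (le_abs_self _)
    refine h4.trans (h3.trans ?_)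
    rw [div_le_iff₀ hr0]
    have h5 : E v ≤ ∑ v ∈ F, E v := Finset.single_le_sum (fun v _ => hE0 v) hvF
    have h6 : R * 1 ≤ R * w := mul_le_mul_of_nonneg_left hw1 hR0.le
    show E v ≤ 1 / 8 * (R * w)
    linarith
  · have hv' : N0 < nm v := not_le.1 hv
    have hvr : (N0 : ℝ) < nm v := by exact_mod_cast hv'
    refine le_trans (measureReal_mono ?_ (measure_ne_top _ _)) (ht0 (nm v : ℝ) (by linarith))
    intro ω (hω : μ (Pool.Agent.N662.FP.em v) + R * w ≤ D (env X ω) 0 v)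
    refine ⟨0, v, ?_, le_rfl, ?_⟩
    · rw [nm_zero, Nat.cast_zero]
      exact Nat.cast_nonneg _
    · rw [sub_zero]
      refine lt_of_lt_of_le ?_ ((by linarith : R * w ≤ D (env X ω) 0 v -
        μ (Pool.Agent.N662.FP.em v)).trans (le_abs_self _))
      have hn0 : (0 : ℝ) < nm v := by linarith
      have h7 : c0 * (nm v : ℝ) ≤ 1 + μ (Pool.Agent.N662.FP.em v) := by
        have h8 := hc.lo v
        have h9 : c0 * (nm v : ℝ) ≤ c * nm v :=
          mul_le_mul_of_nonneg_right (min_le_left _ _) hn0.le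
        linarith
      have h8 : (c0 * (nm v : ℝ)) ^ (1 - κ) ≤ w :=
        Real.rpow_le_rpow (by positivity) h7 (by linarith)
      have h9 : (c0 * (nm v : ℝ)) ^ (1 - κ) = c0 ^ (1 - κ) * (nm v : ℝ) ^ (1 - κ) :=
        Real.mul_rpow hc00.le hn0.le
      have h10 : c0 ≤ c0 ^ (1 - κ) := by
        conv_lhs => rw [← Real.rpow_one c0]
        exact Real.rpow_le_rpow_of_exponent_ge hc00 (min_le_right _ _) (by linarith)
      have h12 : 0 < (nm v : ℝ) ^ (1 - κ) := Real.rpow_pos_of_pos hn0 _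
      have h13 : c0 * (nm v : ℝ) ^ (1 - κ) ≤ w := by
        refine le_trans ?_ h8
        rw [h9]
        exact mul_le_mul_of_nonneg_right h10 h12.le
      have h14 : 2 / c0 * (c0 * (nm v : ℝ) ^ (1 - κ)) ≤ R * w :=
        mul_le_mul (by linarith) h13 (by positivity) hR0.le
      have h15 : 2 / c0 * (c0 * (nm v : ℝ) ^ (1 - κ)) = 2 * (nm v : ℝ) ^ (1 - κ) := by
        field_simp
      linarith

/-- one exponent, both halves -/
theorem oneFar (hQ : Pcs) (hP : Pcs3) (hX : Iid X) (μ : Seminorm ℝ (ℝ × ℝ))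
    (hG : Good (fun ω v => D (env X ω) 0 v) μ) (κ κ' : ℝ) (h0 : 0 < κ') (h1 : κ' < κ)
    (h2 : κ < 1) :
    ∃ ε : ℝ, 0 < ε ∧ ((∀ᶠ t : ℝ in atTop, (volume : Measure Ω).real (Far X μ κ t) ≤ ε) →
      ∃ c : ℝ, 0 < c ∧ ∀ᶠ t : ℝ in atTop,
        (volume : Measure Ω).real (Out (fun ω v => D (env X ω) 0 v) μ κ' t) ≤
          Real.exp (-(t ^ c)) ∧
        (volume : Measure Ω).real (Bad (fun ω v => D (env X ω) 0 v) μ κ' t) ≤
          Real.exp (-(t ^ c))) := by
  obtain ⟨c, C, L, hc⟩ := t_CST μ hG.norm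
  obtain ⟨ε, hε, hh⟩ := oneBox hQ hP hX μ hG.norm κ κ' h0 h1 h2
  refine ⟨min ε (1 / 8), lt_min hε (by norm_num), fun hF => ?_⟩
  have hS : ∀ᶠ t : ℝ in atTop, (volume : Measure Ω).real (Short X μ κ t) ≤ ε := by
    filter_upwards [hF] with t ht
    exact (measureReal_mono (Short_Far μ κ t) (measure_ne_top _ _)).trans
      (ht.trans (min_le_left _ _))
  obtain ⟨⟨c1, hc1, hh1⟩, _, _⟩ := hh hS
  obtain ⟨R, hR, h8⟩ := farUp hX μ c C L hc κ (by linarith) h2
    (hF.mono fun t ht => ht.trans (min_le_right _ _))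
  obtain ⟨c2, hc2, hh2⟩ := d_c cEE hG κ (by linarith) h2 R hR (1 / 8) eighth h8 κ' h0 h1
  refine ⟨min c1 c2, lt_min hc1 hc2, ?_⟩
  filter_upwards [hh1, hh2, eventually_ge_atTop 1] with t ht1 ht2 ht
  constructor
  · refine ht1.trans (Real.exp_le_exp.2 (neg_le_neg ?_))
    exact Real.rpow_le_rpow_of_exponent_le ht (min_le_left _ _)
  · refine ht2.trans (Real.exp_le_exp.2 (neg_le_neg ?_))
    exact Real.rpow_le_rpow_of_exponent_le ht (min_le_right _ _)

end

end Pool.Agent.Run7.h472.OH
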