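import Pool.Agent.N662.FP.Stm

/-!
# Planar first-passage percolation, lower tail: definitions

Page `MP_de94ef_pr`, hand-in `OuterHalf`. Uses the definitions `PS`, `D`, `env`, `Iid`, `Fat`, `em`
of `Pool.Agent.N662.FP.Stm`.
-/

set_option autoImplicit false
open MeasureTheory ProbabilityTheory Filter Set
open scoped ENNReal Pointwise Topology

namespace Pool.Agent.Run7.h472.OH

open Pool.Agent.N662.FP

/-- environments -/
abbrev Env := Sym2 (ℤ × ℤ) → ℝ

/-- the sup norm -/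
def nm (z : ℤ × ℤ) : ℕ := max z.1.natAbs z.2.natAbs

/-- `p 0, ..., p m` is a nearest neighbour path -/
def IsP (p : ℕ → ℤ × ℤ) (m : ℕ) : Prop :=
  ∀ i < m, |(p (i + 1)).1 - (p i).1| + |(p (i + 1)).2 - (p i).2| = 1

/-- the time between the indices `i` and `j` (negative weights are replaced by `0`) -/
noncomputable def tm (x : Env) (p : ℕ → ℤ × ℤ) (i j : ℕ) : ℝ :=
  ∑ k ∈ Finset.Ico i j, max (x s(p k, p (k + 1))) 0

/-- the index of the block of size `n` which contains `z` -/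
def blk (n : ℕ) (z : ℤ × ℤ) : ℤ × ℤ := (z.1 / (n : ℤ), z.2 / (n : ℤ))

/-- `z` is in the box of radius `L n` around the corner `n b` of the block `b` -/
def InR (L n : ℕ) (b z : ℤ × ℤ) : Prop :=
  |z.1 - (n : ℤ) * b.1| ≤ (L : ℤ) * n ∧ |z.2 - (n : ℤ) * b.2| ≤ (L : ℤ) * n

/-- finite sequences of vertices (a countable type) -/
abbrev Sq := Σ m : ℕ, (Fin (m + 1) → ℤ × ℤ)

/-- nearest neighbour paths inside the box of the block `b` which start in the block `b` -/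
structure Val (L n : ℕ) (b : ℤ × ℤ) (q : Sq) : Prop where
  start : blk n (q.2 0) = b
  inR : ∀ i, InR L n b (q.2 i)
  step : ∀ i : Fin q.1,
    |(q.2 i.succ).1 - (q.2 i.castSucc).1| + |(q.2 i.succ).2 - (q.2 i.castSucc).2| = 1

/-- the time of a finite sequence -/
noncomputable def tmS (x : Env) (q : Sq) : ℝ :=
  ∑ i : Fin q.1, max (x s(q.2 i.castSucc, q.2 i.succ)) 0

/-- the largest local deficit at the block `b` of size `n`: the supremum of
`μ (end - start) - time` over the paths inside the box of radius `L n` which start in the block -/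
noncomputable def W (μ : Seminorm ℝ (ℝ × ℝ)) (L n : ℕ) (b : ℤ × ℤ) (x : Env) : ℝ :=
  ⨆ q : {q : Sq // Val L n b q}, (μ (em (q.1.2 (Fin.last _) - q.1.2 0)) - tmS x q.1)

/-- constants of the norm: `c |z| ≤ μ z ≤ C |z|`, and `L` is large -/
structure Cst (μ : Seminorm ℝ (ℝ × ℝ)) (c C : ℝ) (L : ℕ) : Prop where
  c_pos : 0 < c
  C_pos : 0 < C
  two_le : 2 ≤ L
  lo : ∀ z : ℤ × ℤ, c * nm z ≤ μ (em z)
  hi : ∀ z : ℤ × ℤ, μ (em z) ≤ C * nm z
  L_large : C ≤ c * ((L : ℝ) - 1)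

/-- the blocks among `q 0, ..., q k` with deficit larger than `g` -/
noncomputable def badSet (μ : Seminorm ℝ (ℝ × ℝ)) (L n : ℕ) (g : ℝ) (x : Env) (q : ℕ → ℤ × ℤ)
    (k : ℕ) : Finset (ℤ × ℤ) := by
  classical
  exact ((Finset.range (k + 1)).image q).filter (fun b => g < W μ L n b x)

section
variable {Ω : Type} [MeasureSpace Ω]

/-- the tail of the deficit of the block `0` -/
noncomputable def G (X : Sym2 (ℤ × ℤ) → Ω → ℝ) (μ : Seminorm ℝ (ℝ × ℝ)) (L n : ℕ) (u : ℝ) : ℝ :=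
  (volume : Measure Ω).real {ω | u < W μ L n 0 (env X ω)}

/-- the exponential moment of the deficit of a bad block -/
noncomputable def EM (X : Sym2 (ℤ × ℤ) → Ω → ℝ) (μ : Seminorm ℝ (ℝ × ℝ)) (L n : ℕ) (g lam : ℝ) :
    ℝ≥0∞ :=
  ∫⁻ ω in {ω | g < W μ L n 0 (env X ω)}, ENNReal.ofReal (Real.exp (lam * W μ L n 0 (env X ω)))
    ∂(volume : Measure Ω)

/-- the outer event: the fattened cluster leaves `(1 + t ^ (-κ)) t` times the limit shape -/
def Out (T : Ω → ℤ × ℤ → ℝ) (μ : Seminorm ℝ (ℝ × ℝ)) (κ t : ℝ) : Set Ω :=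
  {ω | ¬ (Fat (T ω) t ⊆ ((1 + t ^ (-κ)) * t) • {x : ℝ × ℝ | μ x ≤ 1})}

/-- some path which starts in one of the blocks `St` has a deficit at least `u` -/
def Low (μ : Seminorm ℝ (ℝ × ℝ)) (n : ℕ) (St : Finset (ℤ × ℤ)) (H u : ℝ) (x : Env) : Prop :=
  ∃ (m : ℕ) (p : ℕ → ℤ × ℤ), IsP p m ∧ blk n (p 0) ∈ St ∧ μ (em (p m - p 0)) ≤ H ∧
    tm x p 0 m ≤ μ (em (p m - p 0)) - u
end

end Pool.Agent.Run7.h472.OH
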